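import Pool.Agent.L7h32.AA.Asm2
import Pool.Agent.L7h32.PI.Est
import Pool.Agent.L7h69.PI.Nu

/-!
# Project AH: the analytic core
-/

set_option autoImplicit false
set_option linter.unusedSectionVars false

open Set Filter Topology Metric MeasureTheory
open scoped ContDiff

noncomputable section

namespace Pool.Agent.L7h17.AH

open Pool.Agent.L7h32.AA Pool.Agent.L7h32.PI

variable {E F : Type} [NormedAddCommGroup E] [NormedSpace ℝ E] [FiniteDimensional ℝ E]
  [MeasurableSpace E] [BorelSpace E] {μ : Measure E} [μ.IsAddHaarMeasure]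
  [NormedAddCommGroup F] [NormedSpace ℝ F] [FiniteDimensional ℝ F]

/-- `φ : K → F` is nearly affine at the scale `r` with error `ε` and distortion at most `H` (the linear
maps expand the tangent vectors of `K`) -/
def NAT (K : Set E) (N : E → E) (ε H r : ℝ) (φ : E → F) : Prop :=
  ∀ x ∈ K, ∃ (l : ℝ) (T : E →L[ℝ] F), 0 < l ∧ (∀ v, ‖T v‖ ≤ H * l * ‖v‖) ∧
    (∀ v, l * ‖fderiv ℝ N x v‖ ≤ ‖T (fderiv ℝ N x v)‖) ∧
    ∀ y ∈ K, ‖y - x‖ ≤ r → ‖φ y - φ x - T (y - x)‖ ≤ ε * l * r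

/-- all the data -/
structure Dat (μ : Measure E) (K U V : Set E) (N : E → E) (t₁ C : ℝ) (η : E → ℝ) (Λ : ℝ)
    (K' U' : Set F) (N' : F → F) (ε H κ w o r τ : ℝ) (φ : E → F) : Prop where
  ret : Ret K U N
  pi : Pi0 K U N t₁ C V
  ker : Ker μ η
  even : ∀ v, η (-v) = η v
  lam2 : 2 ≤ Λ
  lam : ∀ v : E, ∫ y, |η y - η (y + v)| ∂μ ≤ Λ * ‖v‖ ∧ ∫ y, |η y - η (y + v)| ∂μ ≤ 2
  eps0 : 0 < ε
  eps : ε * ((C + 1) * Λ) ≤ 1 / 16
  H1 : 1 ≤ H
  ret' : Ret K' U' N'
  nu : NU1 K U N κ w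
  nu' : NU1 K' U' N' κ w
  kap0 : 0 ≤ κ
  kap : κ * (64 * ((H + 1) * ((C + 1) * Λ))) ≤ ε
  cont : ContinuousOn (fun x => φ (N x)) U
  maps : MapsTo φ K K'
  aff : NAT K N ε H r φ
  tau0 : 0 < τ
  tau1 : τ < t₁
  hr : r = (C + 1) * τ
  hrw : r < w
  om : o ≤ w / 8
  osc : ∀ x ∈ K, ∀ y ∈ K, ‖x - y‖ ≤ r → ‖φ x - φ y‖ ≤ o

variable {K U V : Set E} {N : E → E} {t₁ C : ℝ} {η : E → ℝ} {Λ : ℝ}
    {K' U' : Set F} {N' : F → F} {ε H κ w o r τ : ℝ} {φ : E → F}

namespace Dat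

theorem C1 (D : Dat μ K U V N t₁ C η Λ K' U' N' ε H κ w o r τ φ) : 1 ≤ C := D.pi.one

theorem ww (D : Dat μ K U V N t₁ C η Λ K' U' N' ε H κ w o r τ φ) : 0 < w := by
  have h1 := D.hrw
  have h2 := D.hr
  have h3 := D.tau0
  have h4 := D.C1
  have : 0 < (C + 1) * τ := by positivity
  linarith

theorem r0 (D : Dat μ K U V N t₁ C η Λ K' U' N' ε H κ w o r τ φ) : 0 < r := by
  have h2 := D.hr
  have h3 := D.tau0
  have h4 := D.C1
  have : 0 < (C + 1) * τ := by positivity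
  linarith

/-- `(C + 1) Λ ≥ 4` -/
theorem cl (D : Dat μ K U V N t₁ C η Λ K' U' N' ε H κ w o r τ φ) : 4 ≤ (C + 1) * Λ := by
  have h1 := D.C1
  have h2 := D.lam2
  nlinarith

theorem eps64 (D : Dat μ K U V N t₁ C η Λ K' U' N' ε H κ w o r τ φ) : ε ≤ 1 / 64 := by
  have h1 := D.cl
  have h2 := D.eps
  have h3 := D.eps0
  nlinarith

/-- `ε (C + 1) ≤ 1/32` -/
theorem epsC (D : Dat μ K U V N t₁ C η Λ K' U' N' ε H κ w o r τ φ) : ε * (C + 1) ≤ 1 / 32 := by
  have h1 := D.C1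
  have h2 := D.lam2
  have h3 := D.eps
  have h4 := D.eps0
  have h5 : ε * (C + 1) * 2 ≤ ε * (C + 1) * Λ := by
    gcongr
  nlinarith

/-- `κ (H + 1) (C + 1) Λ ≤ ε / 64` -/
theorem kk (D : Dat μ K U V N t₁ C η Λ K' U' N' ε H κ w o r τ φ) :
    κ * ((H + 1) * ((C + 1) * Λ)) ≤ ε / 64 := by
  have := D.kap
  linarith

/-- `κ (H + 1) ≤ ε / 256` -/
theorem kH (D : Dat μ K U V N t₁ C η Λ K' U' N' ε H κ w o r τ φ) : κ * (H + 1) ≤ ε / 256 := by
  have h1 := D.kk
  have h2 := D.cl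
  have h3 := D.kap0
  have h4 := D.H1
  have h5 : κ * (H + 1) * 4 ≤ κ * (H + 1) * ((C + 1) * Λ) := by gcongr
  nlinarith

theorem kap1 (D : Dat μ K U V N t₁ C η Λ K' U' N' ε H κ w o r τ φ) : κ ≤ ε / 512 := by
  have h1 := D.kH
  have h3 := D.kap0
  have h4 := D.H1
  nlinarith

theorem abs_tau (D : Dat μ K U V N t₁ C η Λ K' U' N' ε H κ w o r τ φ) : |τ| < t₁ := by
  rw [abs_of_pos D.tau0]
  exact D.tau1

theorem memU (D : Dat μ K U V N t₁ C η Λ K' U' N' ε H κ w o r τ φ) {x : E} (hx : x ∈ K) :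
    ∀ y : E, ‖y‖ ≤ 1 → x + τ • y ∈ U := D.pi.mem (D.pi.sub hx) D.abs_tau

theorem nrm (D : Dat μ K U V N t₁ C η Λ K' U' N' ε H κ w o r τ φ) {v : E} (hv : ‖v‖ ≤ 1) :
    ‖τ • v‖ ≤ τ := by
  have := D.tau0
  rw [norm_smul, Real.norm_eq_abs, abs_of_pos D.tau0]
  nlinarith

theorem hCr (D : Dat μ K U V N t₁ C η Λ K' U' N' ε H κ w o r τ φ) : C * τ + τ ≤ r := by
  rw [D.hr]
  linarith

theorem near (D : Dat μ K U V N t₁ C η Λ K' U' N' ε H κ w o r τ φ) {x : E} (hx : x ∈ K) {v : E}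
    (hv : ‖v‖ ≤ 1) : ‖N (x + τ • v) - x‖ ≤ C * τ := by
  have h1 := D.nrm hv
  have h2 := D.tau1
  have h3 := D.C1
  refine (D.pi.near x hx (τ • v) (by linarith)).trans ?_
  gcongr

theorem near2 (D : Dat μ K U V N t₁ C η Λ K' U' N' ε H κ w o r τ φ) {x y : E} (hy : y ∈ K)
    (hxy : ‖y - x‖ ≤ τ) {v : E} (hv : ‖v‖ ≤ 1) : ‖N (y + τ • v) - x‖ ≤ r := by
  have h1 := D.near hy hv
  have h2 := D.hCr
  calc ‖N (y + τ • v) - x‖ = ‖(N (y + τ • v) - y) + (y - x)‖ := by congr 1; abel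
    _ ≤ ‖N (y + τ • v) - y‖ + ‖y - x‖ := norm_add_le _ _
    _ ≤ r := by linarith

theorem near1 (D : Dat μ K U V N t₁ C η Λ K' U' N' ε H κ w o r τ φ) {x : E} (hx : x ∈ K) {v : E}
    (hv : ‖v‖ ≤ 1) : ‖N (x + τ • v) - x‖ ≤ r := by
  refine D.near2 hx ?_ hv
  rw [sub_self, norm_zero]
  exact D.tau0.le

/-- the mollified map -/
def A (μ : Measure E) (η : E → ℝ) (N : E → E) (τ : ℝ) (φ : E → F) (x : E) : F :=
  moll μ η (fun z => φ (N z)) τ x

/-- (F0) lower bound for the linear map on chords -/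
theorem chord (D : Dat μ K U V N t₁ C η Λ K' U' N' ε H κ w o r τ φ) {x y : E} (hx : x ∈ K)
    (hy : y ∈ K) (hxy : ‖y - x‖ ≤ r) {l : ℝ} (hl : 0 < l) {T : E →L[ℝ] F}
    (hT : ∀ v, ‖T v‖ ≤ H * l * ‖v‖) (hTl : ∀ v, l * ‖fderiv ℝ N x v‖ ≤ ‖T (fderiv ℝ N x v)‖) :
    7 / 8 * (l * ‖y - x‖) ≤ ‖T (y - x)‖ := by
  have hw := D.ww
  have hrw := D.hrw
  have h1 := (D.nu x hx y x (by linarith) (by rw [sub_self, norm_zero]; exact hw)).2.2
  rw [D.ret.fix y hy, D.ret.fix x hx] at h1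
  have hH := D.H1
  have hk := D.kH
  have hk1 := D.kap1
  have he := D.eps64
  have hk0 := D.kap0
  have h2 := hTl (y - x)
  have h3 := norm_sub_norm_le (y - x) ((y - x) - fderiv ℝ N x (y - x))
  rw [sub_sub_cancel] at h3
  have h4 := hT ((y - x) - fderiv ℝ N x (y - x))
  have h5 : T (fderiv ℝ N x (y - x)) = T (y - x) - T ((y - x) - fderiv ℝ N x (y - x)) := by
    rw [← map_sub]
    congr 1
    abel
  have h6 := norm_sub_le (T (y - x)) (T ((y - x) - fderiv ℝ N x (y - x)))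
  rw [← h5] at h6
  have h7 : H * l * ‖(y - x) - fderiv ℝ N x (y - x)‖ ≤ H * l * (κ * ‖y - x‖) := by gcongr
  have h8 : l * (‖y - x‖ - κ * ‖y - x‖) ≤ l * ‖fderiv ℝ N x (y - x)‖ := by
    gcongr
    linarith
  have h9 : (κ * (H + 1)) * (l * ‖y - x‖) ≤ ε / 256 * (l * ‖y - x‖) := by gcongr
  have h10 : ε / 256 * (l * ‖y - x‖) ≤ 1 / 8 * (l * ‖y - x‖) :=
    mul_le_mul_of_nonneg_right (by linarith) (by positivity)
  nlinarith

/-- (F1) the mollified retraction is nearly the identity -/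
theorem f1 (D : Dat μ K U V N t₁ C η Λ K' U' N' ε H κ w o r τ φ) {x : E} (hx : x ∈ K) :
    ‖moll μ η N τ x - x‖ ≤ κ * τ := by
  have hw := D.ww
  have hrw := D.hrw
  have hCr := D.hCr
  have hC := D.C1
  have ht := D.tau0
  have hN : ContinuousOn N U := D.ret.smooth.continuousOn
  set P : E →L[ℝ] E := fderiv ℝ N x with hP
  -- the linear part has average zero
  have i0 : Integrable (fun v => η v • v) μ := by
    have hc : Continuous fun v => η v • v := D.ker.cont.smul continuous_id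
    exact hc.integrable_of_hasCompactSupport D.ker.cs.smul_right
  have z0 : ∫ v, η v • v ∂μ = 0 := by
    have h1 := integral_neg_eq_self (fun v : E => η v • v) μ
    simp only [D.even, smul_neg] at h1
    rw [integral_neg] at h1
    have h2 : (2 : ℝ) • ∫ v, η v • v ∂μ = 0 := by
      rw [two_smul]
      nth_rewrite 1 [← h1]
      exact neg_add_cancel _
    exact (smul_eq_zero.1 h2).resolve_left two_ne_zero
  set W : E → E := fun z => N z - P (z - x) with hW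
  have hWc : ContinuousOn W U := hN.sub (P.continuous.comp (continuous_id.sub continuous_const)).continuousOn
  have e1 : moll μ η W τ x = moll μ η N τ x := by
    have h1 : moll μ η N τ x - moll μ η W τ x = moll μ η (fun z => N z - W z) τ x :=
      moll_sub D.ker D.ret.opn hN hWc x τ (D.memU hx)
    have h2 : moll μ η (fun z => N z - W z) τ x = 0 := by
      unfold moll
      have : (fun v => η v • (N (x + τ • v) - W (x + τ • v))) = fun v => (τ • P) (η v • v) := by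
        funext v
        simp only [hW]
        rw [sub_sub_cancel, add_sub_cancel_left, map_smul, _root_.smul_apply, map_smul, smul_comm]
      rw [this, ContinuousLinearMap.integral_comp_comm _ i0, z0, map_zero]
    rw [h2, sub_eq_zero] at h1
    exact h1.symm
  rw [← e1]
  refine moll_close D.ker D.ret.opn hWc x τ (D.memU hx) x fun v hv => ?_
  have h1 := D.nrm hv
  have h2 := (D.nu x hx (x + τ • v) x (by
    rw [add_sub_cancel_left]
    nlinarith) (by rw [sub_self, norm_zero]; exact hw)).2.2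
  rw [D.ret.fix x hx] at h2
  simp only [hW]
  have h3 : N (x + τ • v) - P (x + τ • v - x) - x = N (x + τ • v) - x - P (x + τ • v - x) := by abel
  rw [h3]
  refine h2.trans ?_
  rw [add_sub_cancel_left]
  have := D.kap0
  gcongr

/-- (F2) and nearly isometric -/
theorem f2 (D : Dat μ K U V N t₁ C η Λ K' U' N' ε H κ w o r τ φ) {x y : E} (hx : x ∈ K) (hy : y ∈ K)
    (hxy : ‖x - y‖ ≤ τ) :
    ‖(moll μ η N τ x - moll μ η N τ y) - (x - y)‖ ≤ 2 * κ * ‖x - y‖ := by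
  have hw := D.ww
  have hrw := D.hrw
  have hCr := D.hCr
  have hC := D.C1
  have ht := D.tau0
  have ht2 : 2 * τ ≤ r := by nlinarith
  have hN : ContinuousOn N U := D.ret.smooth.continuousOn
  have i1 := int_moll D.ker D.ret.opn hN x τ (D.memU hx)
  have i2 := int_moll D.ker D.ret.opn hN y τ (D.memU hy)
  have i3 : Integrable (fun v => η v • N (x + τ • v) - η v • N (y + τ • v)) μ := i1.sub i2
  have i4 : Integrable (fun v => η v • (x - y)) μ := D.ker.integrable.smul_const _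
  have e3 : x - y = ∫ v, η v • (x - y) ∂μ := by rw [integral_smul_const, D.ker.mass, one_smul]
  have e4 : (moll μ η N τ x - moll μ η N τ y) - (x - y) =
      ∫ v, η v • ((N (x + τ • v) - N (y + τ • v)) - (x - y)) ∂μ := by
    conv_lhs => rw [e3]
    unfold moll
    rw [← integral_sub i1 i2, ← integral_sub i3 i4]
    refine integral_congr_ae (Eventually.of_forall fun v => ?_)
    simp only [smul_sub]
  rw [e4]
  have e2 : 2 * κ * ‖x - y‖ = ∫ v, η v * (2 * κ * ‖x - y‖) ∂μ := by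
    rw [integral_mul_const, D.ker.mass, one_mul]
  rw [e2]
  refine norm_integral_le_of_norm_le (D.ker.integrable.mul_const _)
    (Eventually.of_forall fun v => ?_)
  rw [norm_smul, Real.norm_eq_abs, abs_of_nonneg (D.ker.nonneg v)]
  rcases le_or_gt ‖v‖ 1 with hv | hv
  · refine mul_le_mul_of_nonneg_left ?_ (D.ker.nonneg v)
    have h1 := D.nrm hv
    have hyx : ‖y - x‖ ≤ τ := by rwa [norm_sub_rev]
    have h2 : ‖y + τ • v - x‖ < w := by
      calc ‖y + τ • v - x‖ = ‖(y - x) + τ • v‖ := by congr 1; abel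
        _ ≤ ‖y - x‖ + ‖τ • v‖ := norm_add_le _ _
        _ < w := by linarith
    have h3 := (D.nu x hx (x + τ • v) (y + τ • v) (by
      rw [add_sub_cancel_left]
      linarith) h2).2.2
    have h4 := (D.nu x hx x y (by rw [sub_self, norm_zero]; exact hw) (by linarith)).2.2
    rw [D.ret.fix x hx, D.ret.fix y hy] at h4
    rw [add_sub_add_right_eq_sub] at h3
    have e5 : (N (x + τ • v) - N (y + τ • v)) - (x - y) =
      (N (x + τ • v) - N (y + τ • v) - fderiv ℝ N x (x - y)) - (x - y - fderiv ℝ N x (x - y)) := by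
      abel
    rw [e5]
    refine (norm_sub_le _ _).trans ?_
    linarith
  · rw [D.ker.supp v hv]
    simp

end Dat

end Pool.Agent.L7h17.AH
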