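import Pool.Agent.L7h17.AH.Core

/-!
# Project AH: the analytic core, part 2
-/

set_option autoImplicit false
set_option linter.unusedSectionVars false

open Set Filter Topology Metric MeasureTheory
open scoped ContDiff

noncomputable section

namespace Pool.Agent.L7h17.AH

open Pool.Agent.L7h32.AA Pool.Agent.L7h32.PI

variable {E F : Type} [NormedAddCommGroup E] [NormedSpace ℝ E] [FiniteDimensional ℝ E]
  [MeasurableSpace E] [BorelSpace E] {μ : Measure E} [μ.IsAddHaarMeasure]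
  [NormedAddCommGroup F] [NormedSpace ℝ F] [FiniteDimensional ℝ F]

variable {K U V : Set E} {N : E → E} {t₁ C : ℝ} {η : E → ℝ} {Λ : ℝ}
    {K' U' : Set F} {N' : F → F} {ε H κ w o r τ : ℝ} {φ : E → F}

namespace Dat

/-- `A x` is near `φ x'` -/
theorem clA (D : Dat μ K U V N t₁ C η Λ K' U' N' ε H κ w o r τ φ) {x y : E} (hx : x ∈ K)
    (hy : y ∈ K) (hxy : ‖y - x‖ ≤ τ) : ‖A μ η N τ φ y - φ x‖ ≤ o := by
  refine moll_close D.ker D.ret.opn D.cont y τ (D.memU hy) _ fun v hv => ?_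
  exact D.osc _ (D.ret.maps _ (D.memU hy v hv)) x hx (D.near2 hy hxy hv)

theorem clA1 (D : Dat μ K U V N t₁ C η Λ K' U' N' ε H κ w o r τ φ) {x : E} (hx : x ∈ K) :
    ‖A μ η N τ φ x - φ x‖ ≤ o := D.clA hx hx (by rw [sub_self, norm_zero]; exact D.tau0.le)

theorem o0 (D : Dat μ K U V N t₁ C η Λ K' U' N' ε H κ w o r τ φ) {x : E} (hx : x ∈ K) : 0 ≤ o :=
  (norm_nonneg _).trans (D.clA1 hx)

/-- (F3) -/
theorem f3 (D : Dat μ K U V N t₁ C η Λ K' U' N' ε H κ w o r τ φ) {x : E} (hx : x ∈ K)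
    {l : ℝ} (hl : 0 < l) {T : E →L[ℝ] F} (hT : ∀ v, ‖T v‖ ≤ H * l * ‖v‖)
    (hb : ∀ y ∈ K, ‖y - x‖ ≤ r → ‖φ y - φ x - T (y - x)‖ ≤ ε * l * r) :
    ‖A μ η N τ φ x - φ x‖ ≤ 2 * (ε * l * r) := by
  have hN : ContinuousOn N U := D.ret.smooth.continuousOn
  have hH := D.H1
  have hk := D.kH
  have hk0 := D.kap0
  have ht := D.tau0
  have hCr := D.hCr
  have hC := D.C1
  have he := D.eps0
  have c2 : ContinuousOn (fun z => T (N z)) U := T.continuous.comp_continuousOn hN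
  have h1 := moll_sub D.ker D.ret.opn D.cont c2 x τ (D.memU hx)
  have h2 : moll μ η (fun z => T (N z)) τ x = T (moll μ η N τ x) := by
    have i2 := int_moll D.ker D.ret.opn hN x τ (D.memU hx)
    unfold moll
    rw [← T.integral_comp_comm i2]
    simp
  have h3 : ‖moll μ η (fun z => φ (N z) - T (N z)) τ x - (φ x - T x)‖ ≤ ε * l * r := by
    refine moll_close D.ker D.ret.opn (D.cont.sub c2) x τ (D.memU hx) _ fun v hv => ?_
    have h4 := hb _ (D.ret.maps _ (D.memU hx v hv)) (D.near1 hx hv)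
    rw [map_sub] at h4
    have e : φ (N (x + τ • v)) - T (N (x + τ • v)) - (φ x - T x) =
      φ (N (x + τ • v)) - φ x - (T (N (x + τ • v)) - T x) := by abel
    change ‖φ (N (x + τ • v)) - T (N (x + τ • v)) - (φ x - T x)‖ ≤ _
    rw [e]
    exact h4
  rw [← h1, h2] at h3
  have h5 := hT (moll μ η N τ x - x)
  have h6 := D.f1 hx
  have h7 : H * l * ‖moll μ η N τ x - x‖ ≤ H * l * (κ * τ) := by gcongr
  have e : A μ η N τ φ x - φ x = (moll μ η (fun z => φ (N z)) τ x - T (moll μ η N τ x) -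
      (φ x - T x)) + T (moll μ η N τ x - x) := by
    rw [map_sub]
    unfold A
    abel
  rw [e]
  have h8 := norm_add_le (moll μ η (fun z => φ (N z)) τ x - T (moll μ η N τ x) - (φ x - T x))
    (T (moll μ η N τ x - x))
  have h9 : (κ * (H + 1)) * (l * τ) ≤ (ε / 256) * (l * τ) := by gcongr
  have h10 : ε * (l * τ) ≤ ε * (l * r) := by
    gcongr
    nlinarith
  have h11 : 0 ≤ κ * (l * τ) := by positivity
  have h12 : 0 ≤ ε * (l * τ) := by positivity
  nlinarith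

/-- the values of `φ` on the ball -/
theorem vals (D : Dat μ K U V N t₁ C η Λ K' U' N' ε H κ w o r τ φ) {x : E}
    {l : ℝ} (hl : 0 < l) {T : E →L[ℝ] F} (hT : ∀ v, ‖T v‖ ≤ H * l * ‖v‖)
    (hb : ∀ y ∈ K, ‖y - x‖ ≤ r → ‖φ y - φ x - T (y - x)‖ ≤ ε * l * r) {z : E} (hz : z ∈ K)
    (hzx : ‖z - x‖ ≤ r) : ‖φ z - φ x‖ ≤ (H + 1) * (l * r) := by
  have q1 := hb z hz hzx
  have hH := D.H1
  have q3 : ‖T (z - x)‖ ≤ H * l * r := (hT _).trans (by gcongr)
  have n1 := norm_sub_norm_le (φ z - φ x) (T (z - x))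
  have he := D.eps64
  have hr := D.r0
  have q4 : ε * (l * r) ≤ 1 * (l * r) := by
    gcongr
    linarith
  nlinarith

/-- the normal components of the increments are small -/
theorem nrml (D : Dat μ K U V N t₁ C η Λ K' U' N' ε H κ w o r τ φ) {x z : E} (hx : x ∈ K)
    (hz : z ∈ K) (hzx : ‖z - x‖ ≤ r) :
    ‖(ContinuousLinearMap.id ℝ F - fderiv ℝ N' (φ x)) (φ z - φ x)‖ ≤ κ * ‖φ z - φ x‖ := by
  have q1 := D.osc _ hz x hx hzx
  have hw := D.ww
  have ho := D.om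
  have q2 := (D.nu' (φ x) (D.maps hx) (φ z) (φ x) (by linarith)
    (by rw [sub_self, norm_zero]; exact hw)).2.2
  rw [D.ret'.fix _ (D.maps hz), D.ret'.fix _ (D.maps hx)] at q2
  exact q2

/-- (F4) -/
theorem f4 (D : Dat μ K U V N t₁ C η Λ K' U' N' ε H κ w o r τ φ) {x : E} (hx : x ∈ K) {β : ℝ}
    (hβ : ∀ z ∈ K, ‖z - x‖ ≤ r → ‖φ z - φ x‖ ≤ β) :
    ‖(ContinuousLinearMap.id ℝ F - fderiv ℝ N' (φ x)) (A μ η N τ φ x - φ x)‖ ≤ κ * β := by
  set Q : F →L[ℝ] F := ContinuousLinearMap.id ℝ F - fderiv ℝ N' (φ x) with hQ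
  have c2 : ContinuousOn (fun z => Q (φ (N z))) U := Q.continuous.comp_continuousOn D.cont
  have h2 : moll μ η (fun z => Q (φ (N z))) τ x = Q (A μ η N τ φ x) := by
    have i2 := int_moll D.ker D.ret.opn D.cont x τ (D.memU hx)
    unfold A moll
    rw [← Q.integral_comp_comm i2]
    simp
  rw [map_sub, ← h2]
  refine moll_close D.ker D.ret.opn c2 x τ (D.memU hx) _ fun v hv => ?_
  have hz := D.ret.maps _ (D.memU hx v hv)
  have hzx := D.near1 hx hv
  rw [← map_sub]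
  refine (D.nrml hx hz hzx).trans ?_
  have := D.kap0
  gcongr
  exact hβ _ hz hzx

/-- (F5) general form -/
theorem f5 (D : Dat μ K U V N t₁ C η Λ K' U' N' ε H κ w o r τ φ) {x : E} (hx : x ∈ K) {β : ℝ}
    (hβ : ∀ z ∈ K, ‖z - x‖ ≤ r → ‖φ z - φ x‖ ≤ β) :
    ‖N' (A μ η N τ φ x) - φ x‖ ≤ 2 * ‖A μ η N τ φ x - φ x‖ + κ * β := by
  have h1 := D.f4 hx hβ
  have h2 := D.clA1 hx
  have hw := D.ww
  have ho := D.om
  have q2 := (D.nu' (φ x) (D.maps hx) (A μ η N τ φ x) (φ x) (by linarith)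
    (by rw [sub_self, norm_zero]; exact hw)).2.2
  rw [D.ret'.fix _ (D.maps hx)] at q2
  set a := A μ η N τ φ x - φ x with ha
  have e : N' (A μ η N τ φ x) - φ x = (N' (A μ η N τ φ x) - φ x - fderiv ℝ N' (φ x) a) +
    (a - (ContinuousLinearMap.id ℝ F - fderiv ℝ N' (φ x)) a) := by
    simp only [_root_.sub_apply, ContinuousLinearMap.id_apply]
    abel
  rw [e]
  have h3 := norm_add_le (N' (A μ η N τ φ x) - φ x - fderiv ℝ N' (φ x) a)
    (a - (ContinuousLinearMap.id ℝ F - fderiv ℝ N' (φ x)) a)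
  have h4 := norm_sub_le a ((ContinuousLinearMap.id ℝ F - fderiv ℝ N' (φ x)) a)
  have h5 := D.kap1
  have h6 := D.eps64
  have h7 : κ * ‖a‖ ≤ 1 * ‖a‖ := by
    gcongr
    linarith
  linarith

/-- `g` is uniformly close to `φ` -/
theorem close (D : Dat μ K U V N t₁ C η Λ K' U' N' ε H κ w o r τ φ) {x : E} (hx : x ∈ K) :
    ‖N' (A μ η N τ φ x) - φ x‖ ≤ 3 * o := by
  have h1 := D.f5 hx (β := o) (fun z hz hzx => D.osc z hz x hx hzx)
  have h2 := D.clA1 hx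
  have h5 := D.kap1
  have h6 := D.eps64
  have h8 := D.o0 hx
  have h7 : κ * o ≤ 1 * o := by
    gcongr
    linarith
  linarith

/-- (F5) -/
theorem g_close (D : Dat μ K U V N t₁ C η Λ K' U' N' ε H κ w o r τ φ) {x : E} (hx : x ∈ K)
    {l : ℝ} (hl : 0 < l) {T : E →L[ℝ] F} (hT : ∀ v, ‖T v‖ ≤ H * l * ‖v‖)
    (hb : ∀ y ∈ K, ‖y - x‖ ≤ r → ‖φ y - φ x - T (y - x)‖ ≤ ε * l * r) :
    ‖N' (A μ η N τ φ x) - φ x‖ ≤ 5 * (ε * l * r) := by
  have h1 := D.f5 hx (β := (H + 1) * (l * r)) (fun z hz hzx => D.vals hl hT hb hz hzx)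
  have h2 := D.f3 hx hl hT hb
  have h3 := D.kH
  have hr := D.r0
  have he := D.eps0
  have h4 : (κ * (H + 1)) * (l * r) ≤ ε / 256 * (l * r) := by gcongr
  have h5 : 0 ≤ ε * (l * r) := by positivity
  nlinarith

/-- (F8) the path lemma: far points have far images -/
theorem path (D : Dat μ K U V N t₁ C η Λ K' U' N' ε H κ w o r τ φ) {ψ : F → E}
    (hψ : ContinuousOn ψ K') (hψK : MapsTo ψ K' K) (h1 : ∀ x ∈ K, ψ (φ x) = x)
    (h2 : ∀ y ∈ K', φ (ψ y) = y) {x x' : E} (hx : x ∈ K) (hx' : x' ∈ K) (hfar : τ ≤ ‖x' - x‖)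
    (hδ : ‖φ x' - φ x‖ < w)
    {l : ℝ} (hl : 0 < l) {T : E →L[ℝ] F} (hT : ∀ v, ‖T v‖ ≤ H * l * ‖v‖)
    (hTl : ∀ v, l * ‖fderiv ℝ N x v‖ ≤ ‖T (fderiv ℝ N x v)‖)
    (hb : ∀ y ∈ K, ‖y - x‖ ≤ r → ‖φ y - φ x - T (y - x)‖ ≤ ε * l * r) :
    3 / 8 * (l * τ) ≤ ‖φ x' - φ x‖ := by
  have hw := D.ww
  have ht := D.tau0
  have hCr := D.hCr
  have hC := D.C1
  set q := φ x with hq
  set q' := φ x' with hq'
  set δ := ‖q' - q‖ with hδd
  have hδ0 : 0 ≤ δ := norm_nonneg _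
  have hqK : q ∈ K' := D.maps hx
  have hqK' : q' ∈ K' := D.maps hx'
  have key : ∀ t ∈ Icc (0 : ℝ) 1, q + t • (q' - q) ∈ U' ∧ ‖N' (q + t • (q' - q)) - q‖ ≤ 2 * δ := by
    intro t ht
    have n1 : ‖t • (q' - q)‖ ≤ δ := by
      rw [norm_smul, Real.norm_eq_abs, abs_of_nonneg ht.1]
      calc t * ‖q' - q‖ ≤ 1 * ‖q' - q‖ := by
            gcongr
            exact ht.2
        _ = δ := one_mul _
    have a1 := D.nu' q hqK (q + t • (q' - q)) q (by
      rw [add_sub_cancel_left]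
      linarith) (by rw [sub_self, norm_zero]; exact hw)
    have a2 := (D.nu' q hqK q' q hδ (by rw [sub_self, norm_zero]; exact hw)).2.2
    rw [D.ret'.fix _ hqK, D.ret'.fix _ hqK'] at a2
    refine ⟨a1.1, ?_⟩
    have a3 := a1.2.2
    rw [D.ret'.fix _ hqK, add_sub_cancel_left, map_smul] at a3
    have e : N' (q + t • (q' - q)) - q = (N' (q + t • (q' - q)) - q - t • fderiv ℝ N' q (q' - q)) +
      (t • (q' - q) - t • (q' - q - fderiv ℝ N' q (q' - q))) := by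
      rw [smul_sub t (q' - q)]
      abel
    rw [e]
    have b1 := norm_add_le (N' (q + t • (q' - q)) - q - t • fderiv ℝ N' q (q' - q))
      (t • (q' - q) - t • (q' - q - fderiv ℝ N' q (q' - q)))
    have b2 := norm_sub_le (t • (q' - q)) (t • (q' - q - fderiv ℝ N' q (q' - q)))
    have b3 : ‖t • (q' - q - fderiv ℝ N' q (q' - q))‖ ≤ κ * δ := by
      rw [norm_smul, Real.norm_eq_abs, abs_of_nonneg ht.1]
      calc t * ‖q' - q - fderiv ℝ N' q (q' - q)‖ ≤ 1 * ‖q' - q - fderiv ℝ N' q (q' - q)‖ := by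
            gcongr
            exact ht.2
        _ ≤ _ := by rw [one_mul]; exact a2
    have b4 : κ * ‖t • (q' - q)‖ ≤ κ * δ := by
      have := D.kap0
      gcongr
    have b5 : κ * δ ≤ 1 / 2 * δ := by
      have h5 := D.kap1
      have h6 := D.eps64
      gcongr
      linarith
    linarith
  -- the path
  have c1 : ContinuousOn (fun t : ℝ => N' (q + t • (q' - q))) (Icc 0 1) := by
    have : ContinuousOn N' U' := D.ret'.smooth.continuousOn
    refine this.comp (by fun_prop) fun t ht => (key t ht).1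
  have c2 : ContinuousOn (fun t : ℝ => ‖ψ (N' (q + t • (q' - q))) - x‖) (Icc 0 1) := by
    refine ((hψ.comp c1 fun t ht => D.ret'.maps _ (key t ht).1).sub continuousOn_const).norm
  have ivt := intermediate_value_Icc (zero_le_one' ℝ) c2
  have v0 : ‖ψ (N' (q + (0 : ℝ) • (q' - q))) - x‖ = 0 := by
    rw [zero_smul, add_zero, D.ret'.fix _ hqK, h1 x hx, sub_self, norm_zero]
  have v1 : ‖ψ (N' (q + (1 : ℝ) • (q' - q))) - x‖ = ‖x' - x‖ := by
    rw [one_smul, add_sub_cancel, D.ret'.fix _ hqK', h1 x' hx']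
  simp only [v0, v1] at ivt
  obtain ⟨t, ht1, ht2⟩ := ivt ⟨ht.le, hfar⟩
  simp only at ht2
  have k := key t ht1
  have hγ := D.ret'.maps _ k.1
  set y := ψ (N' (q + t • (q' - q))) with hy
  have hyK : y ∈ K := hψK hγ
  have hφy : φ y = N' (q + t • (q' - q)) := h2 _ hγ
  have hyr : ‖y - x‖ ≤ r := by
    rw [ht2]
    nlinarith
  have d1 := D.chord hx hyK hyr hl hT hTl
  have d2 := hb y hyK hyr
  have d3 := k.2
  rw [← hφy] at d3
  rw [ht2] at d1
  have d4 := norm_sub_norm_le (T (y - x)) (φ y - φ x)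
  rw [norm_sub_rev (T (y - x))] at d4
  have d5 : ε * l * r ≤ 1 / 32 * (l * τ) := by
    have := D.epsC
    rw [D.hr]
    calc ε * l * ((C + 1) * τ) = (ε * (C + 1)) * (l * τ) := by ring
      _ ≤ _ := by gcongr
  have d6 : 0 ≤ l * τ := by positivity
  linarith

end Dat

end Pool.Agent.L7h17.AH
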