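import Pool.Agent.L7h17.AH.Core2
import Pool.Agent.L7h73.AA.Pi

/-!
# Project AH: the analytic core, part 3
-/

set_option autoImplicit false
set_option linter.unusedSectionVars false

open Set Filter Topology Metric MeasureTheory
open scoped ContDiff

noncomputable section

namespace Pool.Agent.L7h17.AH

open Pool.Agent.L7h32.AA Pool.Agent.L7h32.PI

variable {E F : Type} [NormedAddCommGroup E] [NormedSpace ℝ E] [FiniteDimensional ℝ E]
  [MeasurableSpace E] [BorelSpace E] {μ : Measure E} [μ.IsAddHaarMeasure]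
  [NormedAddCommGroup F] [NormedSpace ℝ F] [FiniteDimensional ℝ F]

variable {K U V : Set E} {N : E → E} {t₁ C : ℝ} {η : E → ℝ} {Λ : ℝ}
    {K' U' : Set F} {N' : F → F} {ε H κ w o r τ : ℝ} {φ : E → F}

namespace Dat

/-- (F6) near pairs -/
theorem imm (D : Dat μ K U V N t₁ C η Λ K' U' N' ε H κ w o r τ φ) {x y : E} (hx : x ∈ K)
    (hy : y ∈ K) (hxy : ‖x - y‖ ≤ τ)
    {l : ℝ} (hl : 0 < l) {T : E →L[ℝ] F} (hT : ∀ v, ‖T v‖ ≤ H * l * ‖v‖)
    (hTl : ∀ v, l * ‖fderiv ℝ N x v‖ ≤ ‖T (fderiv ℝ N x v)‖)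
    (hb : ∀ y ∈ K, ‖y - x‖ ≤ r → ‖φ y - φ x - T (y - x)‖ ≤ ε * l * r) :
    l / 4 * ‖x - y‖ ≤ ‖N' (A μ η N τ φ x) - N' (A μ η N τ φ y)‖ := by
  have hC := D.C1
  have hΛ2 := D.lam2
  have hw := D.ww
  have hrw := D.hrw
  have ho := D.om
  have hτ := D.tau0
  have hr0 := D.r0
  have hCr := D.hCr
  have hH := D.H1
  have hκ0 := D.kap0
  have hk := D.kH
  have hk1 := D.kap1
  have he := D.eps64
  have hε0 := D.eps0
  have hd0 : 0 ≤ ‖x - y‖ := norm_nonneg _
  have hyx : ‖y - x‖ ≤ τ := by rwa [norm_sub_rev]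
  have hyr : ‖y - x‖ ≤ r := by nlinarith
  set a := A μ η N τ φ x with hAd
  set b := A μ η N τ φ y with hBd
  set wv := moll μ η N τ x - moll μ η N τ y with hwv
  -- comparison with the linear map
  have k1 : ‖(a - b) - T wv‖ ≤ l * ‖x - y‖ / 16 := by
    refine (cmp D.ret D.pi D.ker D.lam D.cont hx hy hτ D.tau1 (R := r) (by linarith) T
      (φ x - T x) (β := ε * l * r) (fun z hz hz2 => ?_)).1.trans ?_
    · have h4 := hb _ (D.ret.maps _ hz) hz2
      rw [map_sub] at h4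
      have e : φ (N z) - (T (N z) + (φ x - T x)) = φ (N z) - φ x - (T (N z) - T x) := by abel
      rw [e]
      exact h4
    · calc ε * l * r * (Λ * (‖x - y‖ / τ)) = (ε * ((C + 1) * Λ)) * (l * ‖x - y‖) := by
            rw [D.hr]
            field_simp
        _ ≤ 1 / 16 * (l * ‖x - y‖) := by
            have := D.eps
            gcongr
        _ = _ := by ring
  have k2 : ‖wv - (x - y)‖ ≤ 2 * κ * ‖x - y‖ := D.f2 hx hy hxy
  have k3 : 7 / 8 * (l * ‖x - y‖) ≤ ‖T (x - y)‖ := by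
    have := D.chord hx hy hyr hl hT hTl
    rw [norm_sub_rev y x, ← neg_sub x y, map_neg, norm_neg] at this
    exact this
  have k4 : ‖T (wv - (x - y))‖ ≤ 1 / 16 * (l * ‖x - y‖) := by
    refine (hT _).trans ?_
    have h1 : H * l * ‖wv - (x - y)‖ ≤ H * l * (2 * κ * ‖x - y‖) := by gcongr
    have h2 : (κ * (H + 1)) * (l * ‖x - y‖) ≤ ε / 256 * (l * ‖x - y‖) := by gcongr
    have h3 : ε / 256 * (l * ‖x - y‖) ≤ 1 / 256 * (l * ‖x - y‖) :=
      mul_le_mul_of_nonneg_right (by linarith) (by positivity)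
    have h4 : 0 ≤ κ * (l * ‖x - y‖) := by positivity
    nlinarith
  have k5 : ‖T wv‖ ≤ (H + 1) * (l * ‖x - y‖) := by
    have h1 : T wv = T (x - y) + T (wv - (x - y)) := by
      rw [← map_add]
      congr 1
      abel
    rw [h1]
    have h2 := norm_add_le (T (x - y)) (T (wv - (x - y)))
    have h3 := hT (x - y)
    have h4 : 0 ≤ l * ‖x - y‖ := by positivity
    linarith
  have k5' : 13 / 16 * (l * ‖x - y‖) ≤ ‖T wv‖ := by
    have h1 : T (x - y) = T wv - T (wv - (x - y)) := by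
      rw [← map_sub]
      congr 1
      abel
    have h2 := norm_sub_le (T wv) (T (wv - (x - y)))
    rw [← h1] at h2
    linarith
  have k6 : 12 / 16 * (l * ‖x - y‖) ≤ ‖a - b‖ := by
    have q := norm_sub_norm_le (T wv) (a - b)
    rw [norm_sub_rev (T wv)] at q
    linarith
  have k7 : ‖a - b‖ ≤ 2 * (H + 1) * (l * ‖x - y‖) := by
    have q := norm_sub_norm_le (a - b) (T wv)
    have q2 : 0 ≤ l * ‖x - y‖ := by positivity
    nlinarith
  have k8 : ∀ z ∈ K, ‖z - x‖ ≤ r → ‖φ z - φ x‖ ≤ (H + 1) * (l * r) := fun z hz hzx =>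
    D.vals hl hT hb hz hzx
  set p := φ x with hpd
  have hpK : p ∈ K' := D.maps hx
  set P : F →L[ℝ] F := fderiv ℝ N' p with hP
  set Q : F →L[ℝ] F := ContinuousLinearMap.id ℝ F - P with hQ
  -- the normal component
  have k9 : ‖Q (a - b)‖ ≤ l * ‖x - y‖ / 16 := by
    set W : E → F := fun z => Q (φ (N z) - p) with hW
    have hWc : ContinuousOn W U := Q.continuous.comp_continuousOn (D.cont.sub continuousOn_const)
    have hWb : ∀ z ∈ U, ‖N z - x‖ ≤ r → ‖W z‖ ≤ κ * ((H + 1) * (l * r)) := by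
      intro z hz hzx
      have hNz := D.ret.maps z hz
      refine (D.nrml hx hNz hzx).trans ?_
      have := k8 _ hNz hzx
      gcongr
    have e1 : ∀ c ∈ K, moll μ η W τ c = Q (A μ η N τ φ c) - Q p := by
      intro c hc
      have ma := D.memU hc
      have i1 := int_moll D.ker D.ret.opn D.cont c τ ma
      have i2 : Integrable (fun v => η v • Q (φ (N (c + τ • v)))) μ := by
        have := Q.integrable_comp i1
        simpa using this
      have i3 : Integrable (fun v => η v • Q p) μ := D.ker.integrable.smul_const _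
      have e2 : Q (A μ η N τ φ c) = ∫ v, η v • Q (φ (N (c + τ • v))) ∂μ := by
        unfold A moll
        rw [← Q.integral_comp_comm i1]
        simp
      have e3 : Q p = ∫ v, η v • Q p ∂μ := by rw [integral_smul_const, D.ker.mass, one_smul]
      rw [e2]
      conv_rhs => rw [e3]
      rw [← integral_sub i2 i3]
      unfold moll
      refine integral_congr_ae (Eventually.of_forall fun v => ?_)
      simp only [hW, map_sub, smul_sub]
    have mx := D.memU hx
    have my := D.memU hy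
    have key := (moll_diff D.ker D.lam D.ret.opn hWc x y (β := κ * ((H + 1) * (l * r))) hτ mx my
      (fun v hv => hWb _ (mx v hv) (D.near1 hx hv))
      (fun v hv => hWb _ (my v hv) (D.near2 hy hyx hv))).1
    rw [e1 x hx, e1 y hy, sub_sub_sub_cancel_right, ← map_sub] at key
    refine key.trans ?_
    calc κ * ((H + 1) * (l * r)) * (Λ * (‖x - y‖ / τ)) =
          (κ * ((H + 1) * ((C + 1) * Λ))) * (l * ‖x - y‖) := by
          rw [D.hr]
          field_simp
      _ ≤ (1 / 16) * (l * ‖x - y‖) := by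
          have := D.kk
          gcongr
          linarith
      _ = _ := by ring
  -- conclusion
  have m1 := D.clA1 hx
  have m2 := D.clA hx hy hyx
  have q := (D.nu' p hpK a b (by linarith) (by linarith)).2.2
  have q1 : κ * ‖a - b‖ ≤ l * ‖x - y‖ / 16 := by
    calc κ * ‖a - b‖ ≤ κ * (2 * (H + 1) * (l * ‖x - y‖)) := by gcongr
      _ = 2 * (κ * (H + 1)) * (l * ‖x - y‖) := by ring
      _ ≤ 2 * (1 / 32) * (l * ‖x - y‖) := by
          gcongr
          linarith
      _ = _ := by ring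
  have e5 : a - b = Q (a - b) + P (a - b) := by
    simp only [hQ, _root_.sub_apply, ContinuousLinearMap.id_apply]
    abel
  have n1 : ‖a - b‖ ≤ ‖Q (a - b)‖ + ‖P (a - b)‖ := by
    conv_lhs => rw [e5]
    exact norm_add_le _ _
  have n2 := norm_sub_norm_le (P (a - b)) (N' a - N' b)
  rw [norm_sub_rev (P (a - b))] at n2
  have : 0 ≤ l * ‖x - y‖ := by positivity
  linarith

/-- the mollification is injective -/
theorem injOn (D : Dat μ K U V N t₁ C η Λ K' U' N' ε H κ w o r τ φ) {ψ : F → E}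
    (hψ : ContinuousOn ψ K') (hψK : MapsTo ψ K' K) (h1 : ∀ x ∈ K, ψ (φ x) = x)
    (h2 : ∀ y ∈ K', φ (ψ y) = y) : InjOn (fun x => N' (A μ η N τ φ x)) K := by
  have hw := D.ww
  have hτ := D.tau0
  have ho := D.om
  -- far pairs
  have far : ∀ x ∈ K, ∀ x' ∈ K, τ ≤ ‖x' - x‖ → N' (A μ η N τ φ x) = N' (A μ η N τ φ x') →
      ∀ (l l' : ℝ) (T T' : E →L[ℝ] F), 0 < l → 0 < l' → (∀ v, ‖T v‖ ≤ H * l * ‖v‖) →
      (∀ v, ‖T' v‖ ≤ H * l' * ‖v‖) →
      (∀ v, l * ‖fderiv ℝ N x v‖ ≤ ‖T (fderiv ℝ N x v)‖) →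
      (∀ y ∈ K, ‖y - x‖ ≤ r → ‖φ y - φ x - T (y - x)‖ ≤ ε * l * r) →
      (∀ y ∈ K, ‖y - x'‖ ≤ r → ‖φ y - φ x' - T' (y - x')‖ ≤ ε * l' * r) → l' ≤ l → False := by
    intro x hx x' hx' hfar heq l l' T T' hl hl' hT hT' hTl hb hb' hll
    have a1 := D.close hx
    have a2 := D.close hx'
    have hδ : ‖φ x' - φ x‖ < w := by
      have e : φ x' - φ x = (N' (A μ η N τ φ x) - φ x) - (N' (A μ η N τ φ x') - φ x') := by
        rw [heq]
        abel
      rw [e]
      have := norm_sub_le (N' (A μ η N τ φ x) - φ x) (N' (A μ η N τ φ x') - φ x')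
      linarith
    have b1 := D.path hψ hψK h1 h2 hx hx' hfar hδ hl hT hTl hb
    have b2 := D.g_close hx hl hT hb
    have b3 := D.g_close hx' hl' hT' hb'
    have hr0 := D.r0
    have hε0 := D.eps0
    have b4 : ‖φ x' - φ x‖ ≤ 10 * (ε * l * r) := by
      have e : φ x' - φ x = (N' (A μ η N τ φ x) - φ x) - (N' (A μ η N τ φ x') - φ x') := by
        rw [heq]
        abel
      rw [e]
      have := norm_sub_le (N' (A μ η N τ φ x) - φ x) (N' (A μ η N τ φ x') - φ x')
      have b5 : ε * l' * r ≤ ε * l * r := by gcongr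
      linarith
    have d5 : ε * l * r ≤ 1 / 32 * (l * τ) := by
      have := D.epsC
      rw [D.hr]
      calc ε * l * ((C + 1) * τ) = (ε * (C + 1)) * (l * τ) := by ring
        _ ≤ _ := by gcongr
    have d6 : 0 < l * τ := by positivity
    linarith
  intro x hx x' hx' heq
  simp only at heq
  obtain ⟨l, T, hl, hT, hTl, hb⟩ := D.aff x hx
  obtain ⟨l', T', hl', hT', hTl', hb'⟩ := D.aff x' hx'
  rcases le_total τ ‖x' - x‖ with h | h
  · exfalso
    rcases le_total l' l with hll | hll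
    · exact far x hx x' hx' h heq l l' T T' hl hl' hT hT' hTl hb hb' hll
    · exact far x' hx' x hx (by rwa [norm_sub_rev]) heq.symm l' l T' T hl' hl hT' hT hTl' hb' hb hll
  · have h3 := D.imm hx hx' (by rwa [norm_sub_rev]) hl hT hTl hb
    rw [heq, sub_self, norm_zero] at h3
    have h4 : ‖x - x'‖ ≤ 0 := by
      by_contra h5
      have : 0 < l / 4 * ‖x - x'‖ := by
        have := not_le.1 h5
        positivity
      linarith
    exact sub_eq_zero.1 (norm_le_zero_iff.1 h4)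

end Dat

/-- the core theorem -/
theorem core (hR : Ret K U N) (hp : Pi0 K U N t₁ C V) (hη : Ker μ η) (heven : ∀ v, η (-v) = η v)
    (hΛ2 : 2 ≤ Λ)
    (hΛ : ∀ v : E, ∫ y, |η y - η (y + v)| ∂μ ≤ Λ * ‖v‖ ∧ ∫ y, |η y - η (y + v)| ∂μ ≤ 2)
    (hε0 : 0 < ε) (hε : ε * ((C + 1) * Λ) ≤ 1 / 16) {H : ℝ} (hH : 1 ≤ H) (hR' : Ret K' U' N')
    {φ : E → F} (hφ : ContinuousOn φ K) (hφK : MapsTo φ K K') {ψ : F → E}
    (hψ : ContinuousOn ψ K') (hψK : MapsTo ψ K' K) (h1 : ∀ x ∈ K, ψ (φ x) = x)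
    (h2 : ∀ y ∈ K', φ (ψ y) = y)
    (hA : ∀ r₀ : ℝ, 0 < r₀ → ∃ r : ℝ, 0 < r ∧ r < r₀ ∧ NAT K N ε H r φ) {δ : ℝ} (hδ : 0 < δ) :
    ∃ (a : E → F), ContDiffOn ℝ ∞ a V ∧ (∀ x ∈ K, a x ∈ U') ∧
      (∀ x ∈ K, ‖N' (a x) - φ x‖ ≤ δ) ∧ InjOn (fun x => N' (a x)) K ∧
      ∀ x ∈ K, ∃ c : ℝ, 0 < c ∧ ∃ ρ : ℝ, 0 < ρ ∧ ∀ y ∈ K, ‖y - x‖ ≤ ρ →
        c * ‖x - y‖ ≤ ‖N' (a x) - N' (a y)‖ := by
  have hC := hp.one
  set κ : ℝ := ε / (64 * ((H + 1) * ((C + 1) * Λ))) with hκ
  have hκ0 : 0 < κ := by positivity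
  have hκ1 : κ * (64 * ((H + 1) * ((C + 1) * Λ))) ≤ ε := by
    rw [hκ, div_mul_cancel₀]
    positivity
  obtain ⟨w1, hw1, hN1⟩ := (Pool.Agent.L7h69.PI.s_NU E K U N hR).1 κ hκ0
  obtain ⟨w2, hw2, hN2⟩ := (Pool.Agent.L7h69.PI.s_NU F K' U' N' hR').1 κ hκ0
  set w := min w1 w2 with hw
  have hw0 : 0 < w := lt_min hw1 hw2
  have hNU1 : NU1 K U N κ w := fun p hp z z' hz hz' =>
    hN1 p hp z z' (hz.trans_le (min_le_left _ _)) (hz'.trans_le (min_le_left _ _))
  have hNU2 : NU1 K' U' N' κ w := fun p hp z z' hz hz' =>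
    hN2 p hp z z' (hz.trans_le (min_le_right _ _)) (hz'.trans_le (min_le_right _ _))
  set o := min (w / 8) (δ / 3) with ho
  have ho0 : 0 < o := lt_min (by positivity) (by positivity)
  obtain ⟨s, hs, hosc⟩ := Metric.uniformContinuousOn_iff.1
    (hR.cpt.uniformContinuousOn_of_continuous hφ) o ho0
  obtain ⟨r, hr0, hr1, hNA⟩ := hA (min (min w s) t₁) (lt_min (lt_min hw0 hs) hp.pos)
  have hrt : r < t₁ := hr1.trans_le (min_le_right _ _)
  have hrw : r < w := hr1.trans_le ((min_le_left _ _).trans (min_le_left _ _))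
  have hrs : r < s := hr1.trans_le ((min_le_left _ _).trans (min_le_right _ _))
  set τ := r / (C + 1) with hτ
  have hτ0 : 0 < τ := by positivity
  have hrτ : r = (C + 1) * τ := by
    rw [hτ]
    field_simp
  have hτr : τ < t₁ := by nlinarith
  have D : Dat μ K U V N t₁ C η Λ K' U' N' ε H κ w o r τ φ :=
    { ret := hR, pi := hp, ker := hη, even := heven, lam2 := hΛ2, lam := hΛ, eps0 := hε0, eps := hε,
      H1 := hH, ret' := hR', nu := hNU1, nu' := hNU2, kap0 := hκ0.le, kap := hκ1,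
      cont := hφ.comp hR.smooth.continuousOn fun z hz => hR.maps z hz, maps := hφK, aff := hNA,
      tau0 := hτ0, tau1 := hτr, hr := hrτ, hrw := hrw, om := min_le_left _ _,
      osc := fun x hx y hy hxy => by
        have := hosc x hx y hy (by rw [dist_eq_norm]; linarith)
        rw [dist_eq_norm] at this
        exact this.le }
  refine ⟨Dat.A μ η N τ φ, ?_, fun x hx => ?_, fun x hx => ?_, D.injOn hψ hψK h1 h2, fun x hx => ?_⟩
  · exact Pool.Agent.L7h34.AA.mol2 hη hR.opn hp.opn hp.pos hp.inU D.cont hτ0 hτr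
  · have a1 := D.clA1 hx
    have a2 := D.om
    exact (hNU2 (φ x) (hφK hx) (Dat.A μ η N τ φ x) (Dat.A μ η N τ φ x) (by linarith) (by linarith)).1
  · have a1 := D.close hx
    have a2 : o ≤ δ / 3 := min_le_right _ _
    linarith
  · obtain ⟨l, T, hl, hT, hTl, hb⟩ := D.aff x hx
    exact ⟨l / 4, by positivity, τ, hτ0, fun y hy hyx =>
      D.imm hx hy (by rwa [norm_sub_rev]) hl hT hTl hb⟩

end Pool.Agent.L7h17.AH
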