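import Pool.Agent.L7h32.AA.Asm2
import Pool.Agent.L7h32.PI.Est

/-!
# Project AH: the analytic core, relative version
-/

set_option autoImplicit false
set_option linter.unusedSectionVars false

open Set Filter Topology Metric MeasureTheory
open scoped ContDiff

noncomputable section

namespace Pool.Agent.L7h17.AH

open Pool.Agent.L7h32.AA Pool.Agent.L7h32.PI

variable {E F : Type} [NormedAddCommGroup E] [NormedSpace ℝ E] [FiniteDimensional ℝ E]
  [MeasurableSpace E] [BorelSpace E] {μ : Measure E} [μ.IsAddHaarMeasure]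
  [NormedAddCommGroup F] [NormedSpace ℝ F] [FiniteDimensional ℝ F]

/-- all the data -/
structure DatR (μ : Measure E) (K K₁ U : Set E) (N : E → E) (t₁ C : ℝ) (η : E → ℝ) (Λ : ℝ)
    (K' K₁' U' : Set F) (N' : F → F) (ε H κ w o r τ : ℝ) (φ : E → F) : Prop where
  opn : IsOpen U
  smooth : ContDiffOn ℝ ∞ N U
  mps : ∀ x ∈ U, N x ∈ K
  fix : ∀ x ∈ K, x ∈ U → N x = x
  sub : K₁ ⊆ K
  inU : ∀ x ∈ K₁, ∀ z : E, ‖z‖ < t₁ → x + z ∈ U
  nearN : ∀ x ∈ K₁, ∀ z : E, ‖z‖ < t₁ → ‖N (x + z) - x‖ ≤ C * ‖z‖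
  C1 : 1 ≤ C
  ker : Ker μ η
  even : ∀ v, η (-v) = η v
  lam2 : 2 ≤ Λ
  lam : ∀ v : E, ∫ y, |η y - η (y + v)| ∂μ ≤ Λ * ‖v‖ ∧ ∫ y, |η y - η (y + v)| ∂μ ≤ 2
  eps0 : 0 < ε
  eps : ε * ((C + 1) * Λ) ≤ 1 / 16
  H1 : 1 ≤ H
  mps' : ∀ x ∈ U', N' x ∈ K'
  fix' : ∀ x ∈ K', x ∈ U' → N' x = x
  nu : NU1 K₁ U N κ w
  nu' : NU1 K₁' U' N' κ w
  kap0 : 0 ≤ κ
  kap : κ * (64 * ((H + 1) * ((C + 1) * Λ))) ≤ ε
  cont : ContinuousOn (fun x => φ (N x)) U
  maps : MapsTo φ K K'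
  maps1 : MapsTo φ K₁ K₁'
  aff : ∀ x ∈ K₁, ∃ (l : ℝ) (T : E →L[ℝ] F), 0 < l ∧ (∀ v, ‖T v‖ ≤ H * l * ‖v‖) ∧
    (∀ v, l * ‖fderiv ℝ N x v‖ ≤ ‖T (fderiv ℝ N x v)‖) ∧
    ∀ y ∈ K, ‖y - x‖ ≤ r → ‖φ y - φ x - T (y - x)‖ ≤ ε * l * r
  tau0 : 0 < τ
  tau1 : τ < t₁
  hr : r = (C + 1) * τ
  hrw : r < w
  om : o ≤ w / 8
  osc : ∀ x ∈ K₁, ∀ y ∈ K, ‖y - x‖ ≤ r → ‖φ y - φ x‖ ≤ o

variable {K K₁ U : Set E} {N : E → E} {t₁ C : ℝ} {η : E → ℝ} {Λ : ℝ}
    {K' K₁' U' : Set F} {N' : F → F} {ε H κ w o r τ : ℝ} {φ : E → F}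

namespace DatR

theorem ww (D : DatR μ K K₁ U N t₁ C η Λ K' K₁' U' N' ε H κ w o r τ φ) : 0 < w := by
  have h1 := D.hrw
  have h2 := D.hr
  have h3 := D.tau0
  have h4 := D.C1
  have : 0 < (C + 1) * τ := by positivity
  linarith

theorem r0 (D : DatR μ K K₁ U N t₁ C η Λ K' K₁' U' N' ε H κ w o r τ φ) : 0 < r := by
  have h2 := D.hr
  have h3 := D.tau0
  have h4 := D.C1
  have : 0 < (C + 1) * τ := by positivity
  linarith

/-- `(C + 1) Λ ≥ 4` -/
theorem cl (D : DatR μ K K₁ U N t₁ C η Λ K' K₁' U' N' ε H κ w o r τ φ) : 4 ≤ (C + 1) * Λ := by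
  have h1 := D.C1
  have h2 := D.lam2
  nlinarith

theorem eps64 (D : DatR μ K K₁ U N t₁ C η Λ K' K₁' U' N' ε H κ w o r τ φ) : ε ≤ 1 / 64 := by
  have h1 := D.cl
  have h2 := D.eps
  have h3 := D.eps0
  nlinarith

/-- `ε (C + 1) ≤ 1/32` -/
theorem epsC (D : DatR μ K K₁ U N t₁ C η Λ K' K₁' U' N' ε H κ w o r τ φ) : ε * (C + 1) ≤ 1 / 32 := by
  have h1 := D.C1
  have h2 := D.lam2
  have h3 := D.eps
  have h4 := D.eps0
  have h5 : ε * (C + 1) * 2 ≤ ε * (C + 1) * Λ := by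
    gcongr
  nlinarith

/-- `κ (H + 1) (C + 1) Λ ≤ ε / 64` -/
theorem kk (D : DatR μ K K₁ U N t₁ C η Λ K' K₁' U' N' ε H κ w o r τ φ) :
    κ * ((H + 1) * ((C + 1) * Λ)) ≤ ε / 64 := by
  have := D.kap
  linarith

/-- `κ (H + 1) ≤ ε / 256` -/
theorem kH (D : DatR μ K K₁ U N t₁ C η Λ K' K₁' U' N' ε H κ w o r τ φ) : κ * (H + 1) ≤ ε / 256 := by
  have h1 := D.kk
  have h2 := D.cl
  have h3 := D.kap0
  have h4 := D.H1
  have h5 : κ * (H + 1) * 4 ≤ κ * (H + 1) * ((C + 1) * Λ) := by gcongr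
  nlinarith

theorem kap1 (D : DatR μ K K₁ U N t₁ C η Λ K' K₁' U' N' ε H κ w o r τ φ) : κ ≤ ε / 512 := by
  have h1 := D.kH
  have h3 := D.kap0
  have h4 := D.H1
  nlinarith

theorem abs_tau (D : DatR μ K K₁ U N t₁ C η Λ K' K₁' U' N' ε H κ w o r τ φ) : |τ| < t₁ := by
  rw [abs_of_pos D.tau0]
  exact D.tau1

theorem memU (D : DatR μ K K₁ U N t₁ C η Λ K' K₁' U' N' ε H κ w o r τ φ) {x : E} (hx : x ∈ K₁) :
    ∀ y : E, ‖y‖ ≤ 1 → x + τ • y ∈ U := fun y hy => D.inU x hx _ (by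
  have h1 := D.tau0
  have h2 := D.tau1
  rw [norm_smul, Real.norm_eq_abs, abs_of_pos h1]
  nlinarith)

theorem xU (D : DatR μ K K₁ U N t₁ C η Λ K' K₁' U' N' ε H κ w o r τ φ) {x : E} (hx : x ∈ K₁) :
    x ∈ U := by
  have := D.memU hx 0 (by simp)
  simpa using this

theorem fixx (D : DatR μ K K₁ U N t₁ C η Λ K' K₁' U' N' ε H κ w o r τ φ) {x : E} (hx : x ∈ K₁) :
    N x = x := D.fix x (D.sub hx) (D.xU hx)

theorem nrm (D : DatR μ K K₁ U N t₁ C η Λ K' K₁' U' N' ε H κ w o r τ φ) {v : E} (hv : ‖v‖ ≤ 1) :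
    ‖τ • v‖ ≤ τ := by
  have := D.tau0
  rw [norm_smul, Real.norm_eq_abs, abs_of_pos D.tau0]
  nlinarith

theorem hCr (D : DatR μ K K₁ U N t₁ C η Λ K' K₁' U' N' ε H κ w o r τ φ) : C * τ + τ ≤ r := by
  rw [D.hr]
  linarith

theorem near (D : DatR μ K K₁ U N t₁ C η Λ K' K₁' U' N' ε H κ w o r τ φ) {x : E} (hx : x ∈ K₁) {v : E}
    (hv : ‖v‖ ≤ 1) : ‖N (x + τ • v) - x‖ ≤ C * τ := by
  have h1 := D.nrm hv
  have h2 := D.tau1
  have h3 := D.C1
  refine (D.nearN x hx (τ • v) (by linarith)).trans ?_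
  gcongr

theorem near2 (D : DatR μ K K₁ U N t₁ C η Λ K' K₁' U' N' ε H κ w o r τ φ) {x y : E} (hy : y ∈ K₁)
    (hxy : ‖y - x‖ ≤ τ) {v : E} (hv : ‖v‖ ≤ 1) : ‖N (y + τ • v) - x‖ ≤ r := by
  have h1 := D.near hy hv
  have h2 := D.hCr
  calc ‖N (y + τ • v) - x‖ = ‖(N (y + τ • v) - y) + (y - x)‖ := by congr 1; abel
    _ ≤ ‖N (y + τ • v) - y‖ + ‖y - x‖ := norm_add_le _ _
    _ ≤ r := by linarith

theorem near1 (D : DatR μ K K₁ U N t₁ C η Λ K' K₁' U' N' ε H κ w o r τ φ) {x : E} (hx : x ∈ K₁) {v : E}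
    (hv : ‖v‖ ≤ 1) : ‖N (x + τ • v) - x‖ ≤ r := by
  refine D.near2 hx ?_ hv
  rw [sub_self, norm_zero]
  exact D.tau0.le

/-- the mollified map -/
def A (μ : Measure E) (η : E → ℝ) (N : E → E) (τ : ℝ) (φ : E → F) (x : E) : F :=
  moll μ η (fun z => φ (N z)) τ x

/-- (F0) lower bound for the linear map on chords -/
theorem chord (D : DatR μ K K₁ U N t₁ C η Λ K' K₁' U' N' ε H κ w o r τ φ) {x y : E} (hx : x ∈ K₁)
    (hy : y ∈ K) (hxy : ‖y - x‖ ≤ r) {l : ℝ} (hl : 0 < l) {T : E →L[ℝ] F}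
    (hT : ∀ v, ‖T v‖ ≤ H * l * ‖v‖) (hTl : ∀ v, l * ‖fderiv ℝ N x v‖ ≤ ‖T (fderiv ℝ N x v)‖) :
    7 / 8 * (l * ‖y - x‖) ≤ ‖T (y - x)‖ := by
  have hw := D.ww
  have hrw := D.hrw
  have h0 := D.nu x hx y x (by linarith) (by rw [sub_self, norm_zero]; exact hw)
  have h1 := h0.2.2
  rw [D.fix y hy h0.1, D.fixx hx] at h1
  have hH := D.H1
  have hk := D.kH
  have hk1 := D.kap1
  have he := D.eps64
  have hk0 := D.kap0
  have h2 := hTl (y - x)
  have h3 := norm_sub_norm_le (y - x) ((y - x) - fderiv ℝ N x (y - x))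
  rw [sub_sub_cancel] at h3
  have h4 := hT ((y - x) - fderiv ℝ N x (y - x))
  have h5 : T (fderiv ℝ N x (y - x)) = T (y - x) - T ((y - x) - fderiv ℝ N x (y - x)) := by
    rw [← map_sub]
    congr 1
    abel
  have h6 := norm_sub_le (T (y - x)) (T ((y - x) - fderiv ℝ N x (y - x)))
  rw [← h5] at h6
  have h7 : H * l * ‖(y - x) - fderiv ℝ N x (y - x)‖ ≤ H * l * (κ * ‖y - x‖) := by gcongr
  have h8 : l * (‖y - x‖ - κ * ‖y - x‖) ≤ l * ‖fderiv ℝ N x (y - x)‖ := by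
    gcongr
    linarith
  have h9 : (κ * (H + 1)) * (l * ‖y - x‖) ≤ ε / 256 * (l * ‖y - x‖) := by gcongr
  have h10 : ε / 256 * (l * ‖y - x‖) ≤ 1 / 8 * (l * ‖y - x‖) :=
    mul_le_mul_of_nonneg_right (by linarith) (by positivity)
  nlinarith

/-- (F1) the mollified retraction is nearly the identity -/
theorem f1 (D : DatR μ K K₁ U N t₁ C η Λ K' K₁' U' N' ε H κ w o r τ φ) {x : E} (hx : x ∈ K₁) :
    ‖moll μ η N τ x - x‖ ≤ κ * τ := by
  have hw := D.ww
  have hrw := D.hrw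
  have hCr := D.hCr
  have hC := D.C1
  have ht := D.tau0
  have hN : ContinuousOn N U := D.smooth.continuousOn
  set P : E →L[ℝ] E := fderiv ℝ N x with hP
  -- the linear part has average zero
  have i0 : Integrable (fun v => η v • v) μ := by
    have hc : Continuous fun v => η v • v := D.ker.cont.smul continuous_id
    exact hc.integrable_of_hasCompactSupport D.ker.cs.smul_right
  have z0 : ∫ v, η v • v ∂μ = 0 := by
    have h1 := integral_neg_eq_self (fun v : E => η v • v) μ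
    simp only [D.even, smul_neg] at h1
    rw [integral_neg] at h1
    have h2 : (2 : ℝ) • ∫ v, η v • v ∂μ = 0 := by
      rw [two_smul]
      nth_rewrite 1 [← h1]
      exact neg_add_cancel _
    exact (smul_eq_zero.1 h2).resolve_left two_ne_zero
  set W : E → E := fun z => N z - P (z - x) with hW
  have hWc : ContinuousOn W U := hN.sub (P.continuous.comp (continuous_id.sub continuous_const)).continuousOn
  have e1 : moll μ η W τ x = moll μ η N τ x := by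
    have h1 : moll μ η N τ x - moll μ η W τ x = moll μ η (fun z => N z - W z) τ x :=
      moll_sub D.ker D.opn hN hWc x τ (D.memU hx)
    have h2 : moll μ η (fun z => N z - W z) τ x = 0 := by
      unfold moll
      have : (fun v => η v • (N (x + τ • v) - W (x + τ • v))) = fun v => (τ • P) (η v • v) := by
        funext v
        simp only [hW]
        rw [sub_sub_cancel, add_sub_cancel_left, map_smul, _root_.smul_apply, map_smul, smul_comm]
      rw [this, ContinuousLinearMap.integral_comp_comm _ i0, z0, map_zero]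
    rw [h2, sub_eq_zero] at h1
    exact h1.symm
  rw [← e1]
  refine moll_close D.ker D.opn hWc x τ (D.memU hx) x fun v hv => ?_
  have h1 := D.nrm hv
  have h2 := (D.nu x hx (x + τ • v) x (by
    rw [add_sub_cancel_left]
    nlinarith) (by rw [sub_self, norm_zero]; exact hw)).2.2
  rw [D.fixx hx] at h2
  simp only [hW]
  have h3 : N (x + τ • v) - P (x + τ • v - x) - x = N (x + τ • v) - x - P (x + τ • v - x) := by abel
  rw [h3]
  refine h2.trans ?_
  rw [add_sub_cancel_left]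
  have := D.kap0
  gcongr

/-- (F2) and nearly isometric -/
theorem f2 (D : DatR μ K K₁ U N t₁ C η Λ K' K₁' U' N' ε H κ w o r τ φ) {x y : E} (hx : x ∈ K₁) (hy : y ∈ K₁)
    (hxy : ‖x - y‖ ≤ τ) :
    ‖(moll μ η N τ x - moll μ η N τ y) - (x - y)‖ ≤ 2 * κ * ‖x - y‖ := by
  have hw := D.ww
  have hrw := D.hrw
  have hCr := D.hCr
  have hC := D.C1
  have ht := D.tau0
  have ht2 : 2 * τ ≤ r := by nlinarith
  have hN : ContinuousOn N U := D.smooth.continuousOn
  have i1 := int_moll D.ker D.opn hN x τ (D.memU hx)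
  have i2 := int_moll D.ker D.opn hN y τ (D.memU hy)
  have i3 : Integrable (fun v => η v • N (x + τ • v) - η v • N (y + τ • v)) μ := i1.sub i2
  have i4 : Integrable (fun v => η v • (x - y)) μ := D.ker.integrable.smul_const _
  have e3 : x - y = ∫ v, η v • (x - y) ∂μ := by rw [integral_smul_const, D.ker.mass, one_smul]
  have e4 : (moll μ η N τ x - moll μ η N τ y) - (x - y) =
      ∫ v, η v • ((N (x + τ • v) - N (y + τ • v)) - (x - y)) ∂μ := by
    conv_lhs => rw [e3]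
    unfold moll
    rw [← integral_sub i1 i2, ← integral_sub i3 i4]
    refine integral_congr_ae (Eventually.of_forall fun v => ?_)
    simp only [smul_sub]
  rw [e4]
  have e2 : 2 * κ * ‖x - y‖ = ∫ v, η v * (2 * κ * ‖x - y‖) ∂μ := by
    rw [integral_mul_const, D.ker.mass, one_mul]
  rw [e2]
  refine norm_integral_le_of_norm_le (D.ker.integrable.mul_const _)
    (Eventually.of_forall fun v => ?_)
  rw [norm_smul, Real.norm_eq_abs, abs_of_nonneg (D.ker.nonneg v)]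
  rcases le_or_gt ‖v‖ 1 with hv | hv
  · refine mul_le_mul_of_nonneg_left ?_ (D.ker.nonneg v)
    have h1 := D.nrm hv
    have hyx : ‖y - x‖ ≤ τ := by rwa [norm_sub_rev]
    have h2 : ‖y + τ • v - x‖ < w := by
      calc ‖y + τ • v - x‖ = ‖(y - x) + τ • v‖ := by congr 1; abel
        _ ≤ ‖y - x‖ + ‖τ • v‖ := norm_add_le _ _
        _ < w := by linarith
    have h3 := (D.nu x hx (x + τ • v) (y + τ • v) (by
      rw [add_sub_cancel_left]
      linarith) h2).2.2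
    have h4 := (D.nu x hx x y (by rw [sub_self, norm_zero]; exact hw) (by linarith)).2.2
    rw [D.fixx hx, D.fixx hy] at h4
    rw [add_sub_add_right_eq_sub] at h3
    have e5 : (N (x + τ • v) - N (y + τ • v)) - (x - y) =
      (N (x + τ • v) - N (y + τ • v) - fderiv ℝ N x (x - y)) - (x - y - fderiv ℝ N x (x - y)) := by
      abel
    rw [e5]
    refine (norm_sub_le _ _).trans ?_
    linarith
  · rw [D.ker.supp v hv]
    simp

/-- `A x` is near `φ x'` -/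
theorem clA (D : DatR μ K K₁ U N t₁ C η Λ K' K₁' U' N' ε H κ w o r τ φ) {x y : E} (hx : x ∈ K₁)
    (hy : y ∈ K₁) (hxy : ‖y - x‖ ≤ τ) : ‖A μ η N τ φ y - φ x‖ ≤ o := by
  refine moll_close D.ker D.opn D.cont y τ (D.memU hy) _ fun v hv => ?_
  exact D.osc x hx _ (D.mps _ (D.memU hy v hv)) (D.near2 hy hxy hv)

theorem clA1 (D : DatR μ K K₁ U N t₁ C η Λ K' K₁' U' N' ε H κ w o r τ φ) {x : E} (hx : x ∈ K₁) :
    ‖A μ η N τ φ x - φ x‖ ≤ o := D.clA hx hx (by rw [sub_self, norm_zero]; exact D.tau0.le)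

theorem o0 (D : DatR μ K K₁ U N t₁ C η Λ K' K₁' U' N' ε H κ w o r τ φ) {x : E} (hx : x ∈ K₁) : 0 ≤ o :=
  (norm_nonneg _).trans (D.clA1 hx)

/-- (F3) -/
theorem f3 (D : DatR μ K K₁ U N t₁ C η Λ K' K₁' U' N' ε H κ w o r τ φ) {x : E} (hx : x ∈ K₁)
    {l : ℝ} (hl : 0 < l) {T : E →L[ℝ] F} (hT : ∀ v, ‖T v‖ ≤ H * l * ‖v‖)
    (hb : ∀ y ∈ K, ‖y - x‖ ≤ r → ‖φ y - φ x - T (y - x)‖ ≤ ε * l * r) :
    ‖A μ η N τ φ x - φ x‖ ≤ 2 * (ε * l * r) := by
  have hN : ContinuousOn N U := D.smooth.continuousOn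
  have hH := D.H1
  have hk := D.kH
  have hk0 := D.kap0
  have ht := D.tau0
  have hCr := D.hCr
  have hC := D.C1
  have he := D.eps0
  have c2 : ContinuousOn (fun z => T (N z)) U := T.continuous.comp_continuousOn hN
  have h1 := moll_sub D.ker D.opn D.cont c2 x τ (D.memU hx)
  have h2 : moll μ η (fun z => T (N z)) τ x = T (moll μ η N τ x) := by
    have i2 := int_moll D.ker D.opn hN x τ (D.memU hx)
    unfold moll
    rw [← T.integral_comp_comm i2]
    simp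
  have h3 : ‖moll μ η (fun z => φ (N z) - T (N z)) τ x - (φ x - T x)‖ ≤ ε * l * r := by
    refine moll_close D.ker D.opn (D.cont.sub c2) x τ (D.memU hx) _ fun v hv => ?_
    have h4 := hb _ (D.mps _ (D.memU hx v hv)) (D.near1 hx hv)
    rw [map_sub] at h4
    have e : φ (N (x + τ • v)) - T (N (x + τ • v)) - (φ x - T x) =
      φ (N (x + τ • v)) - φ x - (T (N (x + τ • v)) - T x) := by abel
    change ‖φ (N (x + τ • v)) - T (N (x + τ • v)) - (φ x - T x)‖ ≤ _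
    rw [e]
    exact h4
  rw [← h1, h2] at h3
  have h5 := hT (moll μ η N τ x - x)
  have h6 := D.f1 hx
  have h7 : H * l * ‖moll μ η N τ x - x‖ ≤ H * l * (κ * τ) := by gcongr
  have e : A μ η N τ φ x - φ x = (moll μ η (fun z => φ (N z)) τ x - T (moll μ η N τ x) -
      (φ x - T x)) + T (moll μ η N τ x - x) := by
    rw [map_sub]
    unfold A
    abel
  rw [e]
  have h8 := norm_add_le (moll μ η (fun z => φ (N z)) τ x - T (moll μ η N τ x) - (φ x - T x))
    (T (moll μ η N τ x - x))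
  have h9 : (κ * (H + 1)) * (l * τ) ≤ (ε / 256) * (l * τ) := by gcongr
  have h10 : ε * (l * τ) ≤ ε * (l * r) := by
    gcongr
    nlinarith
  have h11 : 0 ≤ κ * (l * τ) := by positivity
  have h12 : 0 ≤ ε * (l * τ) := by positivity
  nlinarith

/-- the values of `φ` on the ball -/
theorem vals (D : DatR μ K K₁ U N t₁ C η Λ K' K₁' U' N' ε H κ w o r τ φ) {x : E}
    {l : ℝ} (hl : 0 < l) {T : E →L[ℝ] F} (hT : ∀ v, ‖T v‖ ≤ H * l * ‖v‖)
    (hb : ∀ y ∈ K, ‖y - x‖ ≤ r → ‖φ y - φ x - T (y - x)‖ ≤ ε * l * r) {z : E} (hz : z ∈ K)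
    (hzx : ‖z - x‖ ≤ r) : ‖φ z - φ x‖ ≤ (H + 1) * (l * r) := by
  have q1 := hb z hz hzx
  have hH := D.H1
  have q3 : ‖T (z - x)‖ ≤ H * l * r := (hT _).trans (by gcongr)
  have n1 := norm_sub_norm_le (φ z - φ x) (T (z - x))
  have he := D.eps64
  have hr := D.r0
  have q4 : ε * (l * r) ≤ 1 * (l * r) := by
    gcongr
    linarith
  nlinarith

/-- the normal components of the increments are small -/
theorem nrml (D : DatR μ K K₁ U N t₁ C η Λ K' K₁' U' N' ε H κ w o r τ φ) {x z : E} (hx : x ∈ K₁)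
    (hz : z ∈ K) (hzx : ‖z - x‖ ≤ r) :
    ‖(ContinuousLinearMap.id ℝ F - fderiv ℝ N' (φ x)) (φ z - φ x)‖ ≤ κ * ‖φ z - φ x‖ := by
  have q1 := D.osc x hx _ hz hzx
  have hw := D.ww
  have ho := D.om
  have q2 := D.nu' (φ x) (D.maps1 hx) (φ z) (φ x) (by linarith)
    (by rw [sub_self, norm_zero]; exact hw)
  have q3 := q2.2.2
  rw [D.fix' _ (D.maps hz) q2.1, D.fix' _ (D.maps (D.sub hx)) q2.2.1] at q3
  exact q3

/-- (F4) -/
theorem f4 (D : DatR μ K K₁ U N t₁ C η Λ K' K₁' U' N' ε H κ w o r τ φ) {x : E} (hx : x ∈ K₁) {β : ℝ}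
    (hβ : ∀ z ∈ K, ‖z - x‖ ≤ r → ‖φ z - φ x‖ ≤ β) :
    ‖(ContinuousLinearMap.id ℝ F - fderiv ℝ N' (φ x)) (A μ η N τ φ x - φ x)‖ ≤ κ * β := by
  set Q : F →L[ℝ] F := ContinuousLinearMap.id ℝ F - fderiv ℝ N' (φ x) with hQ
  have c2 : ContinuousOn (fun z => Q (φ (N z))) U := Q.continuous.comp_continuousOn D.cont
  have h2 : moll μ η (fun z => Q (φ (N z))) τ x = Q (A μ η N τ φ x) := by
    have i2 := int_moll D.ker D.opn D.cont x τ (D.memU hx)
    unfold A moll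
    rw [← Q.integral_comp_comm i2]
    simp
  rw [map_sub, ← h2]
  refine moll_close D.ker D.opn c2 x τ (D.memU hx) _ fun v hv => ?_
  have hz := D.mps _ (D.memU hx v hv)
  have hzx := D.near1 hx hv
  rw [← map_sub]
  refine (D.nrml hx hz hzx).trans ?_
  have := D.kap0
  gcongr
  exact hβ _ hz hzx

/-- (F5) general form -/
theorem f5 (D : DatR μ K K₁ U N t₁ C η Λ K' K₁' U' N' ε H κ w o r τ φ) {x : E} (hx : x ∈ K₁) {β : ℝ}
    (hβ : ∀ z ∈ K, ‖z - x‖ ≤ r → ‖φ z - φ x‖ ≤ β) {s : ℝ} (hs0 : 0 ≤ s) (hs1 : s ≤ 1) :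
    ‖N' (φ x + s • (A μ η N τ φ x - φ x)) - φ x‖ ≤ 2 * ‖A μ η N τ φ x - φ x‖ + κ * β := by
  have h1 := D.f4 hx hβ
  have h2 := D.clA1 hx
  have hw := D.ww
  have ho := D.om
  have hsa : ‖s • (A μ η N τ φ x - φ x)‖ ≤ ‖A μ η N τ φ x - φ x‖ := by
    rw [norm_smul, Real.norm_eq_abs, abs_of_nonneg hs0]
    exact mul_le_of_le_one_left (norm_nonneg _) hs1
  have q0 := D.nu' (φ x) (D.maps1 hx) (φ x + s • (A μ η N τ φ x - φ x)) (φ x) (by
    rw [add_sub_cancel_left]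
    linarith) (by rw [sub_self, norm_zero]; exact hw)
  have q2 := q0.2.2
  rw [D.fix' _ (D.maps (D.sub hx)) q0.2.1, add_sub_cancel_left] at q2
  set a := A μ η N τ φ x - φ x with ha
  have e : N' (φ x + s • a) - φ x = (N' (φ x + s • a) - φ x - fderiv ℝ N' (φ x) (s • a)) +
    s • (a - (ContinuousLinearMap.id ℝ F - fderiv ℝ N' (φ x)) a) := by
    simp only [_root_.sub_apply, ContinuousLinearMap.id_apply, map_smul, sub_sub_cancel]
    abel
  rw [e]
  have h3 := norm_add_le (N' (φ x + s • a) - φ x - fderiv ℝ N' (φ x) (s • a))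
    (s • (a - (ContinuousLinearMap.id ℝ F - fderiv ℝ N' (φ x)) a))
  have h4 := norm_sub_le a ((ContinuousLinearMap.id ℝ F - fderiv ℝ N' (φ x)) a)
  have h4' : ‖s • (a - (ContinuousLinearMap.id ℝ F - fderiv ℝ N' (φ x)) a)‖ ≤
      ‖a - (ContinuousLinearMap.id ℝ F - fderiv ℝ N' (φ x)) a‖ := by
    rw [norm_smul, Real.norm_eq_abs, abs_of_nonneg hs0]
    exact mul_le_of_le_one_left (norm_nonneg _) hs1
  have h5 := D.kap1
  have h6 := D.eps64
  have h7 : κ * ‖s • a‖ ≤ 1 * ‖a‖ := by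
    gcongr
    linarith
  linarith

/-- `g` is uniformly close to `φ` -/
theorem close (D : DatR μ K K₁ U N t₁ C η Λ K' K₁' U' N' ε H κ w o r τ φ) {x : E} (hx : x ∈ K₁)
    {s : ℝ} (hs0 : 0 ≤ s) (hs1 : s ≤ 1) :
    ‖N' (φ x + s • (A μ η N τ φ x - φ x)) - φ x‖ ≤ 3 * o := by
  have h1 := D.f5 hx (β := o) (fun z hz hzx => D.osc x hx z hz hzx) hs0 hs1
  have h2 := D.clA1 hx
  have h5 := D.kap1
  have h6 := D.eps64
  have h8 := D.o0 hx
  have h7 : κ * o ≤ 1 * o := by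
    gcongr
    linarith
  linarith

/-- (F5) -/
theorem g_close (D : DatR μ K K₁ U N t₁ C η Λ K' K₁' U' N' ε H κ w o r τ φ) {x : E} (hx : x ∈ K₁)
    {l : ℝ} (hl : 0 < l) {T : E →L[ℝ] F} (hT : ∀ v, ‖T v‖ ≤ H * l * ‖v‖)
    (hb : ∀ y ∈ K, ‖y - x‖ ≤ r → ‖φ y - φ x - T (y - x)‖ ≤ ε * l * r)
    {s : ℝ} (hs0 : 0 ≤ s) (hs1 : s ≤ 1) :
    ‖N' (φ x + s • (A μ η N τ φ x - φ x)) - φ x‖ ≤ 5 * (ε * l * r) := by
  have h1 := D.f5 hx (β := (H + 1) * (l * r)) (fun z hz hzx => D.vals hl hT hb hz hzx) hs0 hs1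
  have h2 := D.f3 hx hl hT hb
  have h3 := D.kH
  have hr := D.r0
  have he := D.eps0
  have h4 : (κ * (H + 1)) * (l * r) ≤ ε / 256 * (l * r) := by gcongr
  have h5 : 0 ≤ ε * (l * r) := by positivity
  nlinarith

/-- (F8) the path lemma: far points have far images -/
theorem path (D : DatR μ K K₁ U N t₁ C η Λ K' K₁' U' N' ε H κ w o r τ φ) {ψ : F → E}
    (hψ : ContinuousOn (fun z => ψ (N' z)) U') (hψK : MapsTo ψ K' K) (h1 : ∀ x ∈ K, ψ (φ x) = x)
    (h2 : ∀ y ∈ K', φ (ψ y) = y) {x x' : E} (hx : x ∈ K₁) (hx' : x' ∈ K) (hfar : τ ≤ ‖x' - x‖)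
    (hδ : ‖φ x' - φ x‖ < w)
    {l : ℝ} (hl : 0 < l) {T : E →L[ℝ] F} (hT : ∀ v, ‖T v‖ ≤ H * l * ‖v‖)
    (hTl : ∀ v, l * ‖fderiv ℝ N x v‖ ≤ ‖T (fderiv ℝ N x v)‖)
    (hb : ∀ y ∈ K, ‖y - x‖ ≤ r → ‖φ y - φ x - T (y - x)‖ ≤ ε * l * r) :
    3 / 8 * (l * τ) ≤ ‖φ x' - φ x‖ := by
  have hw := D.ww
  have ht := D.tau0
  have hCr := D.hCr
  have hC := D.C1
  set q := φ x with hq
  set q' := φ x' with hq'
  set δ := ‖q' - q‖ with hδd
  have hδ0 : 0 ≤ δ := norm_nonneg _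
  have hqK : q ∈ K' := D.maps (D.sub hx)
  have hqK1 : q ∈ K₁' := D.maps1 hx
  have hqK' : q' ∈ K' := D.maps hx'
  have key : ∀ t ∈ Icc (0 : ℝ) 1, q + t • (q' - q) ∈ U' ∧ ‖N' (q + t • (q' - q)) - q‖ ≤ 2 * δ := by
    intro t ht
    have n1 : ‖t • (q' - q)‖ ≤ δ := by
      rw [norm_smul, Real.norm_eq_abs, abs_of_nonneg ht.1]
      calc t * ‖q' - q‖ ≤ 1 * ‖q' - q‖ := by
            gcongr
            exact ht.2
        _ = δ := one_mul _
    have a1 := D.nu' q hqK1 (q + t • (q' - q)) q (by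
      rw [add_sub_cancel_left]
      linarith) (by rw [sub_self, norm_zero]; exact hw)
    have a0 := D.nu' q hqK1 q' q hδ (by rw [sub_self, norm_zero]; exact hw)
    have a2 := a0.2.2
    rw [D.fix' _ hqK a0.2.1, D.fix' _ hqK' a0.1] at a2
    refine ⟨a1.1, ?_⟩
    have a3 := a1.2.2
    rw [D.fix' _ hqK a0.2.1, add_sub_cancel_left, map_smul] at a3
    have e : N' (q + t • (q' - q)) - q = (N' (q + t • (q' - q)) - q - t • fderiv ℝ N' q (q' - q)) +
      (t • (q' - q) - t • (q' - q - fderiv ℝ N' q (q' - q))) := by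
      rw [smul_sub t (q' - q)]
      abel
    rw [e]
    have b1 := norm_add_le (N' (q + t • (q' - q)) - q - t • fderiv ℝ N' q (q' - q))
      (t • (q' - q) - t • (q' - q - fderiv ℝ N' q (q' - q)))
    have b2 := norm_sub_le (t • (q' - q)) (t • (q' - q - fderiv ℝ N' q (q' - q)))
    have b3 : ‖t • (q' - q - fderiv ℝ N' q (q' - q))‖ ≤ κ * δ := by
      rw [norm_smul, Real.norm_eq_abs, abs_of_nonneg ht.1]
      calc t * ‖q' - q - fderiv ℝ N' q (q' - q)‖ ≤ 1 * ‖q' - q - fderiv ℝ N' q (q' - q)‖ := by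
            gcongr
            exact ht.2
        _ ≤ _ := by rw [one_mul]; exact a2
    have b4 : κ * ‖t • (q' - q)‖ ≤ κ * δ := by
      have := D.kap0
      gcongr
    have b5 : κ * δ ≤ 1 / 2 * δ := by
      have h5 := D.kap1
      have h6 := D.eps64
      gcongr
      linarith
    linarith
  -- the path
  have c2 : ContinuousOn (fun t : ℝ => ‖ψ (N' (q + t • (q' - q))) - x‖) (Icc 0 1) := by
    have c1 : ContinuousOn (fun t : ℝ => ψ (N' (q + t • (q' - q)))) (Icc 0 1) :=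
      hψ.comp (f := fun t : ℝ => q + t • (q' - q)) (by fun_prop) fun t ht => (key t ht).1
    exact (c1.sub continuousOn_const).norm
  have a00 := D.nu' q hqK1 q' q hδ (by rw [sub_self, norm_zero]; exact hw)
  have ivt := intermediate_value_Icc (zero_le_one' ℝ) c2
  have v0 : ‖ψ (N' (q + (0 : ℝ) • (q' - q))) - x‖ = 0 := by
    rw [zero_smul, add_zero, D.fix' _ hqK a00.2.1, h1 x (D.sub hx), sub_self, norm_zero]
  have v1 : ‖ψ (N' (q + (1 : ℝ) • (q' - q))) - x‖ = ‖x' - x‖ := by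
    rw [one_smul, add_sub_cancel, D.fix' _ hqK' a00.1, h1 x' hx']
  simp only [v0, v1] at ivt
  obtain ⟨t, ht1, ht2⟩ := ivt ⟨ht.le, hfar⟩
  simp only at ht2
  have k := key t ht1
  have hγ := D.mps' _ k.1
  set y := ψ (N' (q + t • (q' - q))) with hy
  have hyK : y ∈ K := hψK hγ
  have hφy : φ y = N' (q + t • (q' - q)) := h2 _ hγ
  have hyr : ‖y - x‖ ≤ r := by
    rw [ht2]
    nlinarith
  have d1 := D.chord hx hyK hyr hl hT hTl
  have d2 := hb y hyK hyr
  have d3 := k.2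
  rw [← hφy] at d3
  rw [ht2] at d1
  have d4 := norm_sub_norm_le (T (y - x)) (φ y - φ x)
  rw [norm_sub_rev (T (y - x))] at d4
  have d5 : ε * l * r ≤ 1 / 32 * (l * τ) := by
    have := D.epsC
    rw [D.hr]
    calc ε * l * ((C + 1) * τ) = (ε * (C + 1)) * (l * τ) := by ring
      _ ≤ _ := by gcongr
  have d6 : 0 ≤ l * τ := by positivity
  linarith

/-- the comparison with an affine map -/
theorem cmpR (D : DatR μ K K₁ U N t₁ C η Λ K' K₁' U' N' ε H κ w o r τ φ) {x x' : E} (hx : x ∈ K₁)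
    (hx' : x' ∈ K₁) (hxx : ‖x - x'‖ ≤ τ) {β : ℝ} (T : E →L[ℝ] F) (b : F)
    (hβ : ∀ z ∈ U, ‖N z - x‖ ≤ r → ‖φ (N z) - (T (N z) + b)‖ ≤ β) :
    ‖(A μ η N τ φ x - A μ η N τ φ x') - T (moll μ η N τ x - moll μ η N τ x')‖ ≤
      β * (Λ * (‖x - x'‖ / τ)) := by
  have hN : ContinuousOn N U := D.smooth.continuousOn
  have mx := D.memU hx
  have mx' := D.memU hx'
  set W : E → F := fun z => φ (N z) - (T (N z) + b) with hWdef
  have hW : ContinuousOn W U :=
    D.cont.sub ((T.continuous.comp_continuousOn hN).add continuousOn_const)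
  have e1 : ∀ a : E, (∀ y : E, ‖y‖ ≤ 1 → a + τ • y ∈ U) →
      moll μ η W τ a = A μ η N τ φ a - (T (moll μ η N τ a) + b) := by
    intro a ha
    have i1 := int_moll D.ker D.opn D.cont a τ ha
    have i2 := int_moll D.ker D.opn hN a τ ha
    have i3 : Integrable (fun y => η y • T (N (a + τ • y))) μ := by
      have := T.integrable_comp i2
      simpa using this
    have e2 : T (moll μ η N τ a) = ∫ y, η y • T (N (a + τ • y)) ∂μ := by
      unfold moll
      rw [← T.integral_comp_comm i2]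
      simp
    have e3 : b = ∫ y, η y • b ∂μ := by rw [integral_smul_const, D.ker.mass, one_smul]
    unfold A moll at e2 ⊢
    have i4 : Integrable (fun y => η y • b) μ := D.ker.integrable.smul_const _
    have i5 : Integrable (fun y => η y • T (N (a + τ • y)) + η y • b) μ := i3.add i4
    rw [e2]
    conv_rhs => rw [e3]
    rw [← integral_add i3 i4, ← integral_sub i1 i5]
    refine integral_congr_ae (Eventually.of_forall fun y => ?_)
    simp only [hWdef, smul_sub, smul_add]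
  have hyx : ‖x' - x‖ ≤ τ := by rwa [norm_sub_rev]
  have key := (moll_diff D.ker D.lam D.opn hW x x' (β := β) D.tau0 mx mx'
    (fun y hy => hβ _ (mx y hy) (D.near1 hx hy))
    (fun y hy => hβ _ (mx' y hy) (D.near2 hx' hyx hy))).1
  rw [e1 x mx, e1 x' mx'] at key
  have e4 : A μ η N τ φ x - (T (moll μ η N τ x) + b) - (A μ η N τ φ x' - (T (moll μ η N τ x') + b)) =
      (A μ η N τ φ x - A μ η N τ φ x') - T (moll μ η N τ x - moll μ η N τ x') := by
    rw [map_sub]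
    abel
  rwa [e4] at key

/-- (F6) near pairs -/
theorem imm (D : DatR μ K K₁ U N t₁ C η Λ K' K₁' U' N' ε H κ w o r τ φ) {x y : E} (hx : x ∈ K₁)
    (hy : y ∈ K₁) (hxy : ‖x - y‖ ≤ τ)
    {l : ℝ} (hl : 0 < l) {T : E →L[ℝ] F} (hT : ∀ v, ‖T v‖ ≤ H * l * ‖v‖)
    (hTl : ∀ v, l * ‖fderiv ℝ N x v‖ ≤ ‖T (fderiv ℝ N x v)‖)
    (hb : ∀ y ∈ K, ‖y - x‖ ≤ r → ‖φ y - φ x - T (y - x)‖ ≤ ε * l * r) :
    l / 4 * ‖x - y‖ ≤ ‖N' (A μ η N τ φ x) - N' (A μ η N τ φ y)‖ := by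
  have hC := D.C1
  have hΛ2 := D.lam2
  have hw := D.ww
  have hrw := D.hrw
  have ho := D.om
  have hτ := D.tau0
  have hr0 := D.r0
  have hCr := D.hCr
  have hH := D.H1
  have hκ0 := D.kap0
  have hk := D.kH
  have hk1 := D.kap1
  have he := D.eps64
  have hε0 := D.eps0
  have hd0 : 0 ≤ ‖x - y‖ := norm_nonneg _
  have hyx : ‖y - x‖ ≤ τ := by rwa [norm_sub_rev]
  have hyr : ‖y - x‖ ≤ r := by nlinarith
  set a := A μ η N τ φ x with hAd
  set b := A μ η N τ φ y with hBd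
  set wv := moll μ η N τ x - moll μ η N τ y with hwv
  -- comparison with the linear map
  have k1 : ‖(a - b) - T wv‖ ≤ l * ‖x - y‖ / 16 := by
    refine (D.cmpR hx hy hxy T (φ x - T x) (β := ε * l * r) (fun z hz hz2 => ?_)).trans ?_
    · have h4 := hb _ (D.mps _ hz) hz2
      rw [map_sub] at h4
      have e : φ (N z) - (T (N z) + (φ x - T x)) = φ (N z) - φ x - (T (N z) - T x) := by abel
      rw [e]
      exact h4
    · calc ε * l * r * (Λ * (‖x - y‖ / τ)) = (ε * ((C + 1) * Λ)) * (l * ‖x - y‖) := by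
            rw [D.hr]
            field_simp
        _ ≤ 1 / 16 * (l * ‖x - y‖) := by
            have := D.eps
            gcongr
        _ = _ := by ring
  have k2 : ‖wv - (x - y)‖ ≤ 2 * κ * ‖x - y‖ := D.f2 hx hy hxy
  have k3 : 7 / 8 * (l * ‖x - y‖) ≤ ‖T (x - y)‖ := by
    have := D.chord hx (D.sub hy) hyr hl hT hTl
    rw [norm_sub_rev y x, ← neg_sub x y, map_neg, norm_neg] at this
    exact this
  have k4 : ‖T (wv - (x - y))‖ ≤ 1 / 16 * (l * ‖x - y‖) := by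
    refine (hT _).trans ?_
    have h1 : H * l * ‖wv - (x - y)‖ ≤ H * l * (2 * κ * ‖x - y‖) := by gcongr
    have h2 : (κ * (H + 1)) * (l * ‖x - y‖) ≤ ε / 256 * (l * ‖x - y‖) := by gcongr
    have h3 : ε / 256 * (l * ‖x - y‖) ≤ 1 / 256 * (l * ‖x - y‖) :=
      mul_le_mul_of_nonneg_right (by linarith) (by positivity)
    have h4 : 0 ≤ κ * (l * ‖x - y‖) := by positivity
    nlinarith
  have k5 : ‖T wv‖ ≤ (H + 1) * (l * ‖x - y‖) := by
    have h1 : T wv = T (x - y) + T (wv - (x - y)) := by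
      rw [← map_add]
      congr 1
      abel
    rw [h1]
    have h2 := norm_add_le (T (x - y)) (T (wv - (x - y)))
    have h3 := hT (x - y)
    have h4 : 0 ≤ l * ‖x - y‖ := by positivity
    linarith
  have k5' : 13 / 16 * (l * ‖x - y‖) ≤ ‖T wv‖ := by
    have h1 : T (x - y) = T wv - T (wv - (x - y)) := by
      rw [← map_sub]
      congr 1
      abel
    have h2 := norm_sub_le (T wv) (T (wv - (x - y)))
    rw [← h1] at h2
    linarith
  have k6 : 12 / 16 * (l * ‖x - y‖) ≤ ‖a - b‖ := by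
    have q := norm_sub_norm_le (T wv) (a - b)
    rw [norm_sub_rev (T wv)] at q
    linarith
  have k7 : ‖a - b‖ ≤ 2 * (H + 1) * (l * ‖x - y‖) := by
    have q := norm_sub_norm_le (a - b) (T wv)
    have q2 : 0 ≤ l * ‖x - y‖ := by positivity
    nlinarith
  have k8 : ∀ z ∈ K, ‖z - x‖ ≤ r → ‖φ z - φ x‖ ≤ (H + 1) * (l * r) := fun z hz hzx =>
    D.vals hl hT hb hz hzx
  set p := φ x with hpd
  have hpK : p ∈ K₁' := D.maps1 hx
  set P : F →L[ℝ] F := fderiv ℝ N' p with hP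
  set Q : F →L[ℝ] F := ContinuousLinearMap.id ℝ F - P with hQ
  -- the normal component
  have k9 : ‖Q (a - b)‖ ≤ l * ‖x - y‖ / 16 := by
    set W : E → F := fun z => Q (φ (N z) - p) with hW
    have hWc : ContinuousOn W U := Q.continuous.comp_continuousOn (D.cont.sub continuousOn_const)
    have hWb : ∀ z ∈ U, ‖N z - x‖ ≤ r → ‖W z‖ ≤ κ * ((H + 1) * (l * r)) := by
      intro z hz hzx
      have hNz := D.mps z hz
      refine (D.nrml hx hNz hzx).trans ?_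
      have := k8 _ hNz hzx
      gcongr
    have e1 : ∀ c ∈ K₁, moll μ η W τ c = Q (A μ η N τ φ c) - Q p := by
      intro c hc
      have ma := D.memU hc
      have i1 := int_moll D.ker D.opn D.cont c τ ma
      have i2 : Integrable (fun v => η v • Q (φ (N (c + τ • v)))) μ := by
        have := Q.integrable_comp i1
        simpa using this
      have i3 : Integrable (fun v => η v • Q p) μ := D.ker.integrable.smul_const _
      have e2 : Q (A μ η N τ φ c) = ∫ v, η v • Q (φ (N (c + τ • v))) ∂μ := by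
        unfold A moll
        rw [← Q.integral_comp_comm i1]
        simp
      have e3 : Q p = ∫ v, η v • Q p ∂μ := by rw [integral_smul_const, D.ker.mass, one_smul]
      rw [e2]
      conv_rhs => rw [e3]
      rw [← integral_sub i2 i3]
      unfold moll
      refine integral_congr_ae (Eventually.of_forall fun v => ?_)
      simp only [hW, map_sub, smul_sub]
    have mx := D.memU hx
    have my := D.memU hy
    have key := (moll_diff D.ker D.lam D.opn hWc x y (β := κ * ((H + 1) * (l * r))) hτ mx my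
      (fun v hv => hWb _ (mx v hv) (D.near1 hx hv))
      (fun v hv => hWb _ (my v hv) (D.near2 hy hyx hv))).1
    rw [e1 x hx, e1 y hy, sub_sub_sub_cancel_right, ← map_sub] at key
    refine key.trans ?_
    calc κ * ((H + 1) * (l * r)) * (Λ * (‖x - y‖ / τ)) =
          (κ * ((H + 1) * ((C + 1) * Λ))) * (l * ‖x - y‖) := by
          rw [D.hr]
          field_simp
      _ ≤ (1 / 16) * (l * ‖x - y‖) := by
          have := D.kk
          gcongr
          linarith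
      _ = _ := by ring
  -- conclusion
  have m1 := D.clA1 hx
  have m2 := D.clA hx hy hyx
  have q := (D.nu' p hpK a b (by linarith) (by linarith)).2.2
  have q1 : κ * ‖a - b‖ ≤ l * ‖x - y‖ / 16 := by
    calc κ * ‖a - b‖ ≤ κ * (2 * (H + 1) * (l * ‖x - y‖)) := by gcongr
      _ = 2 * (κ * (H + 1)) * (l * ‖x - y‖) := by ring
      _ ≤ 2 * (1 / 32) * (l * ‖x - y‖) := by
          gcongr
          linarith
      _ = _ := by ring
  have e5 : a - b = Q (a - b) + P (a - b) := by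
    simp only [hQ, _root_.sub_apply, ContinuousLinearMap.id_apply]
    abel
  have n1 : ‖a - b‖ ≤ ‖Q (a - b)‖ + ‖P (a - b)‖ := by
    conv_lhs => rw [e5]
    exact norm_add_le _ _
  have n2 := norm_sub_norm_le (P (a - b)) (N' a - N' b)
  rw [norm_sub_rev (P (a - b))] at n2
  have : 0 ≤ l * ‖x - y‖ := by positivity
  linarith

end DatR

end Pool.Agent.L7h17.AH
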