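import Pool.Agent.L7h17.AH.Stm
import Pool.Agent.Helper186.LocDiffeo

/-!
# Project AH: injective smooth maps with lower bounds are diffeomorphisms (`S_FIN`)
-/

set_option autoImplicit false
set_option linter.unusedSectionVars false

open Set Filter Topology Metric
open scoped ContDiff Manifold

noncomputable section

namespace Pool.Agent.L7h17.AH

theorem low_der {X E F : Type} [NormedAddCommGroup X] [NormedSpace ℝ X]
    [NormedAddCommGroup E] [NormedSpace ℝ E] [NormedAddCommGroup F] [NormedSpace ℝ F]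
    {a : X → E} {b : X → F} {v₀ : X} {D : X →L[ℝ] E} {D' : X →L[ℝ] F} (ha : HasFDerivAt a D v₀)
    (hb : HasFDerivAt b D' v₀) {c : ℝ} (h : ∀ᶠ v in 𝓝 v₀, c * ‖a v - a v₀‖ ≤ ‖b v - b v₀‖)
    (u : X) : c * ‖D u‖ ≤ ‖D' u‖ := by
  have h1 := (ha.hasLineDerivAt u).tendsto_slope_zero
  have h2 := (hb.hasLineDerivAt u).tendsto_slope_zero
  have h3 : Tendsto (fun t : ℝ => v₀ + t • u) (𝓝[≠] 0) (𝓝 v₀) := by
    have : ContinuousAt (fun t : ℝ => v₀ + t • u) 0 := by fun_prop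
    have h4 := this.tendsto.mono_left (nhdsWithin_le_nhds (s := {0}ᶜ))
    simpa using h4
  have h4 := h3.eventually h
  refine le_of_tendsto_of_tendsto (h1.norm.const_mul c) h2.norm ?_
  filter_upwards [h4] with t ht
  rw [norm_smul, norm_smul]
  calc c * (‖t⁻¹‖ * ‖a (v₀ + t • u) - a v₀‖) = ‖t⁻¹‖ * (c * ‖a (v₀ + t • u) - a v₀‖) := by ring
    _ ≤ _ := by gcongr

variable {n : ℕ} {M N E F : Type} [TopologicalSpace M]
    [ChartedSpace (EuclideanSpace ℝ (Fin n)) M] [TopologicalSpace N]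
    [ChartedSpace (EuclideanSpace ℝ (Fin n)) N]
    [NormedAddCommGroup E] [NormedSpace ℝ E] [NormedAddCommGroup F] [NormedSpace ℝ F]

theorem in_chart {ι : M → E} {x : M} {D : EuclideanSpace ℝ (Fin n) →L[ℝ] E}
    (h : HasMFDerivAt (𝓡 n) 𝓘(ℝ, E) ι x D) :
    HasFDerivAt (ι ∘ (extChartAt (𝓡 n) x).symm) D (extChartAt (𝓡 n) x x) := by
  have h1 := h.2
  rw [(𝓡 n).range_eq_univ, hasFDerivWithinAt_univ] at h1
  exact h1

theorem low_mder {ι : M → E} {k : M → F} {x : M} {D : EuclideanSpace ℝ (Fin n) →L[ℝ] E}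
    {D' : EuclideanSpace ℝ (Fin n) →L[ℝ] F}
    (h : HasMFDerivAt (𝓡 n) 𝓘(ℝ, E) ι x D) (h' : HasMFDerivAt (𝓡 n) 𝓘(ℝ, F) k x D') {c : ℝ}
    (hc : ∀ᶠ y in 𝓝 x, c * ‖ι y - ι x‖ ≤ ‖k y - k x‖) (u : EuclideanSpace ℝ (Fin n)) :
    c * ‖D u‖ ≤ ‖D' u‖ := by
  refine low_der (in_chart h) (in_chart h') ?_ u
  have h1 : ContinuousAt (extChartAt (𝓡 n) x).symm (extChartAt (𝓡 n) x x) :=
    continuousAt_extChartAt_symm x
  have h2 : (extChartAt (𝓡 n) x).symm (extChartAt (𝓡 n) x x) = x :=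
    (extChartAt (𝓡 n) x).left_inv (mem_extChartAt_source x)
  rw [ContinuousAt, h2] at h1
  filter_upwards [h1.eventually hc] with v hv
  simpa [Function.comp, h2] using hv

theorem s_FIN : S_FIN := by
  intro n M N E F _ _ _ _ _ _ _ _ _ _ _ _ _ _ _ _ ι κ g hι hκ _ hg hgi hlow
  have himm : ∀ x, Function.Injective (mfderiv (𝓡 n) (𝓡 n) g x) := by
    intro x
    obtain ⟨c, hc, δ, hδ, hcδ⟩ := hlow x
    obtain ⟨D, hD⟩ : ∃ D : EuclideanSpace ℝ (Fin n) →L[ℝ] E, HasMFDerivAt (𝓡 n) 𝓘(ℝ, E) ι x D :=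
      ⟨mfderiv (𝓡 n) 𝓘(ℝ, E) ι x, (hι.smooth.mdifferentiableAt (by simp)).hasMFDerivAt⟩
    obtain ⟨G, hG⟩ : ∃ G : EuclideanSpace ℝ (Fin n) →L[ℝ] EuclideanSpace ℝ (Fin n),
        HasMFDerivAt (𝓡 n) (𝓡 n) g x G :=
      ⟨mfderiv (𝓡 n) (𝓡 n) g x, (hg.mdifferentiableAt (by simp)).hasMFDerivAt⟩
    obtain ⟨D', hD'⟩ : ∃ D : EuclideanSpace ℝ (Fin n) →L[ℝ] F, HasMFDerivAt (𝓡 n) 𝓘(ℝ, F) κ (g x) D :=
      ⟨mfderiv (𝓡 n) 𝓘(ℝ, F) κ (g x), (hκ.smooth.mdifferentiableAt (by simp)).hasMFDerivAt⟩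
    have hcomp : HasMFDerivAt (𝓡 n) 𝓘(ℝ, F) (fun y => κ (g y)) x (D'.comp G) :=
      HasMFDerivAt.comp x hD' hG
    have hDi : Function.Injective D := by
      have h1 := hι.imm x
      rw [hD.mfderiv] at h1
      exact h1
    have hev : ∀ᶠ y in 𝓝 x, c * ‖ι y - ι x‖ ≤ ‖κ (g y) - κ (g x)‖ := by
      have h1 : ∀ᶠ y in 𝓝 x, ‖ι y - ι x‖ < δ := by
        have := hι.smooth.continuous.continuousAt (x := x) |>.eventually (ball_mem_nhds _ hδ)
        filter_upwards [this] with y hy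
        rwa [dist_eq_norm] at hy
      filter_upwards [h1] with y hy
      have := hcδ y hy.le
      rwa [norm_sub_rev (ι x), norm_sub_rev (κ (g x))] at this
    have key : ∀ u v : EuclideanSpace ℝ (Fin n), G u = G v → u = v := by
      intro u v huv
      have h1 := low_mder hD hcomp hev (u - v)
      have h2 : ‖(D'.comp G) (u - v)‖ = 0 := by
        rw [ContinuousLinearMap.comp_apply, map_sub, huv, sub_self, map_zero, norm_zero]
      have h1' : c * ‖D (u - v)‖ ≤ 0 := h1.trans_eq h2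
      have h3 : D (u - v) = 0 := by
        by_contra h4
        have := norm_pos_iff.2 h4
        have : 0 < c * ‖D (u - v)‖ := by positivity
        linarith
      rw [map_sub, sub_eq_zero] at h3
      exact hDi h3
    rw [hG.mfderiv]
    exact fun u v huv => key u v huv
  choose S v hS hxS hv himg hvs using fun x => Pool.Agent.Helper186.local_inverse hg (himm x) rfl
  have hopen : IsOpenMap g := by
    intro O hO
    have : g '' O = ⋃ x : M, g '' (O ∩ S x) := by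
      rw [← image_iUnion, ← inter_iUnion]
      congr 1
      ext y
      constructor
      · exact fun hy => ⟨hy, mem_iUnion.2 ⟨y, hxS y⟩⟩
      · exact fun hy => hy.1
    rw [this]
    exact isOpen_iUnion fun x => himg x _ inter_subset_right (hO.inter (hS x))
  have hrange : range g = univ := by
    have h1 : IsClopen (range g) :=
      ⟨(isCompact_range hg.continuous).isClosed, hopen.isOpen_range⟩
    rcases isClopen_iff.1 h1 with h | h
    · exact absurd h (range_nonempty g).ne_empty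
    · exact h
  have hsurj : Function.Surjective g := range_eq_univ.1 hrange
  let e : M ≃ N := Equiv.ofBijective g ⟨hgi, hsurj⟩
  have he : ∀ x, e x = g x := fun x => rfl
  have hinv : ContMDiff (𝓡 n) (𝓡 n) ∞ e.symm := by
    intro y
    obtain ⟨x, rfl⟩ := hsurj y
    refine (hvs x x (hxS x)).congr_of_eventuallyEq ?_
    have h1 : g '' S x ∈ 𝓝 (g x) := (himg x _ subset_rfl (hS x)).mem_nhds ⟨x, hxS x, rfl⟩
    filter_upwards [h1] with z hz
    obtain ⟨ζ, hζ, rfl⟩ := hz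
    rw [hv x ζ hζ, ← he ζ, e.symm_apply_apply]
  exact ⟨⟨e, hg, hinv⟩, fun x => rfl⟩

end Pool.Agent.L7h17.AH
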