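import Pool.Agent.L7h17.AH.Stm
import Pool.Agent.Helper186.LocDiffeo

/-!
# Project AH: embedded compact manifolds are smooth retracts of neighbourhoods (`S_TUB`)
-/

set_option autoImplicit false
set_option linter.unusedSectionVars false

open Set Filter Topology Metric
open scoped ContDiff Manifold

noncomputable section

namespace Pool.Agent.L7h17.AH

variable {n : ℕ} {M E : Type} [TopologicalSpace M] [ChartedSpace (EuclideanSpace ℝ (Fin n)) M]
    [IsManifold (𝓡 n) ∞ M] [NormedAddCommGroup E] [NormedSpace ℝ E] [FiniteDimensional ℝ E]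

/-- a local retraction with values in a convex piece -/
structure Piece (ι : M → E) (x₀ : M) (δ : ℝ) (S : Set M) (B : Set (EuclideanSpace ℝ (Fin n)))
    (φ : M → EuclideanSpace ℝ (Fin n)) (φ' : EuclideanSpace ℝ (Fin n) → M) (ρ : E → M) : Prop where
  pos : 0 < δ
  opnS : IsOpen S
  conv : Convex ℝ B
  opnB : IsOpen B
  sm : ContMDiffOn (𝓡 n) 𝓘(ℝ, EuclideanSpace ℝ (Fin n)) ∞ φ S
  sm' : ContMDiffOn 𝓘(ℝ, EuclideanSpace ℝ (Fin n)) (𝓡 n) ∞ φ' B
  mp : MapsTo φ S B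
  li : ∀ x ∈ S, φ' (φ x) = x
  ret : ContMDiffOn 𝓘(ℝ, E) (𝓡 n) ∞ ρ (ball (ι x₀) (3 * δ))
  rS : ∀ z ∈ ball (ι x₀) (3 * δ), ρ z ∈ S
  fix : ∀ x, ι x ∈ ball (ι x₀) (3 * δ) → ρ (ι x) = x

/-- there is a retraction of a neighbourhood of `ι(A)` -/
def Good (n : ℕ) {M E : Type} [TopologicalSpace M] [ChartedSpace (EuclideanSpace ℝ (Fin n)) M]
    [NormedAddCommGroup E] [NormedSpace ℝ E] (ι : M → E) (A : Set M) : Prop :=
  ∃ (U : Set E) (ρ : E → M), IsOpen U ∧ ι '' A ⊆ U ∧ ContMDiffOn 𝓘(ℝ, E) (𝓡 n) ∞ ρ U ∧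
    ∀ x, ι x ∈ U → ρ (ι x) = x

theorem glue {ι : M → E} {A : Set M} (hA : Good n ι A) {x₀ : M} {δ : ℝ} {S : Set M}
    {B : Set (EuclideanSpace ℝ (Fin n))} {φ : M → EuclideanSpace ℝ (Fin n)}
    {φ' : EuclideanSpace ℝ (Fin n) → M} {ρB : E → M} (P : Piece ι x₀ δ S B φ φ' ρB) :
    Good n ι (A ∪ ι ⁻¹' ball (ι x₀) δ) := by
  classical
  obtain ⟨U, ρA, hU, hAU, hρA, hfA⟩ := hA
  have hδ := P.pos
  let χ : ContDiffBump (ι x₀) := ⟨δ, 2 * δ, hδ, by linarith⟩
  set D : Set E := ball (ι x₀) (3 * δ) with hD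
  have hDo : IsOpen D := isOpen_ball
  set V : Set E := (U ∩ ρA ⁻¹' S) ∩ D with hV
  have hVo : IsOpen V := (hρA.continuousOn.isOpen_inter_preimage hU P.opnS).inter hDo
  set W₁ : Set E := U \ closedBall (ι x₀) (2 * δ) with hW₁
  have hW₁o : IsOpen W₁ := hU.sdiff isClosed_closedBall
  set W₂ : Set E := ball (ι x₀) δ with hW₂
  have hW₂o : IsOpen W₂ := isOpen_ball
  have hW₂D : W₂ ⊆ D := ball_subset_ball (by linarith)
  set m : E → M := fun z => φ' ((1 - χ z) • φ (ρA z) + χ z • φ (ρB z)) with hm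
  set ρ : E → M := fun z => if z ∈ W₂ then ρB z else if z ∈ V then m z else ρA z with hρ
  -- the values
  have hχ1 : ∀ z ∈ W₂, χ z = 1 := fun z hz => χ.one_of_mem_closedBall (ball_subset_closedBall hz)
  have hχ0 : ∀ z ∈ W₁, χ z = 0 := fun z hz => by
    refine χ.zero_of_le_dist ?_
    have := hz.2
    rw [mem_closedBall, not_le] at this
    exact this.le
  have mB : ∀ z ∈ V, z ∈ W₂ → m z = ρB z := by
    intro z hz hz2
    simp only [hm]
    rw [hχ1 z hz2, sub_self, zero_smul, zero_add, one_smul, P.li _ (P.rS z hz.2)]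
  have mA : ∀ z ∈ V, z ∈ W₁ → m z = ρA z := by
    intro z hz hz2
    simp only [hm]
    rw [hχ0 z hz2, sub_zero, zero_smul, add_zero, one_smul, P.li _ hz.1.2]
  have e2 : ∀ z ∈ W₂, ρ z = ρB z := fun z hz => by simp only [hρ, if_pos hz]
  have eV : ∀ z ∈ V, ρ z = m z := fun z hz => by
    by_cases h : z ∈ W₂
    · rw [e2 z h, mB z hz h]
    · simp only [hρ, if_neg h, if_pos hz]
  have e1 : ∀ z ∈ W₁, ρ z = ρA z := fun z hz => by
    by_cases h : z ∈ V
    · rw [eV z h, mA z h hz]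
    · have h2 : z ∉ W₂ := fun h2 => hz.2 (ball_subset_closedBall (ball_subset_ball (by linarith) h2))
      simp only [hρ, if_neg h, if_neg h2]
  -- smoothness of the middle part
  have hmid : ContMDiffOn 𝓘(ℝ, E) (𝓡 n) ∞ m V := by
    have a1 : ContMDiffOn 𝓘(ℝ, E) 𝓘(ℝ, EuclideanSpace ℝ (Fin n)) ∞ (fun z => φ (ρA z)) V :=
      P.sm.comp (hρA.mono fun z hz => hz.1.1) fun z hz => hz.1.2
    have a2 : ContMDiffOn 𝓘(ℝ, E) 𝓘(ℝ, EuclideanSpace ℝ (Fin n)) ∞ (fun z => φ (ρB z)) V :=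
      P.sm.comp (P.ret.mono fun z hz => hz.2) fun z hz => P.rS z hz.2
    rw [contMDiffOn_iff_contDiffOn] at a1 a2
    have a3 : ContDiff ℝ ∞ χ := χ.contDiff
    have a4 : ContDiffOn ℝ ∞ (fun z => (1 - χ z) • φ (ρA z) + χ z • φ (ρB z)) V :=
      ((contDiff_const.sub a3).contDiffOn.smul a1).add (a3.contDiffOn.smul a2)
    refine P.sm'.comp (contMDiffOn_iff_contDiffOn.2 a4) fun z hz => ?_
    exact P.conv (P.mp hz.1.2) (P.mp (P.rS z hz.2)) (by linarith [χ.le_one (x := z)])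
      χ.nonneg (by ring)
  refine ⟨V ∪ W₁ ∪ W₂, ρ, (hVo.union hW₁o).union hW₂o, ?_, ?_, ?_⟩
  · rintro z ⟨x, hx | hx, rfl⟩
    · have hxU : ι x ∈ U := hAU ⟨x, hx, rfl⟩
      by_cases h : ι x ∈ closedBall (ι x₀) (2 * δ)
      · have hD' : ι x ∈ D := closedBall_subset_ball (by linarith) h
        refine Or.inl (Or.inl ⟨⟨hxU, ?_⟩, hD'⟩)
        have h1 := P.rS _ hD'
        rw [P.fix x hD'] at h1
        rw [mem_preimage, hfA x hxU]
        exact h1
      · exact Or.inl (Or.inr ⟨hxU, h⟩)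
    · exact Or.inr hx
  · rintro z ((hz | hz) | hz)
    · exact (((hmid z hz).contMDiffAt (hVo.mem_nhds hz)).congr_of_eventuallyEq
        (by filter_upwards [hVo.mem_nhds hz] with y hy using eV y hy)).contMDiffWithinAt
    · exact ((((hρA z hz.1).contMDiffAt (hU.mem_nhds hz.1))).congr_of_eventuallyEq
        (by filter_upwards [hW₁o.mem_nhds hz] with y hy using e1 y hy)).contMDiffWithinAt
    · exact ((((P.ret z (hW₂D hz)).contMDiffAt (hDo.mem_nhds (hW₂D hz)))).congr_of_eventuallyEq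
        (by filter_upwards [hW₂o.mem_nhds hz] with y hy using e2 y hy)).contMDiffWithinAt
  · rintro x ((hx | hx) | hx)
    · rw [eV _ hx]
      simp only [hm]
      rw [hfA x hx.1.1, P.fix x hx.2, ← add_smul, sub_add_cancel, one_smul]
      have h1 := P.rS _ hx.2
      rw [P.fix x hx.2] at h1
      exact P.li x h1
    · rw [e1 _ hx, hfA x hx.1]
    · rw [e2 _ hx, P.fix x (hW₂D hx)]

/-- a compact injective immersed manifold is embedded -/
theorem SEmb.isEmb [CompactSpace M] {ι : M → E} (h : SEmb (n := n) ι) : IsClosedEmbedding ι :=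
  h.smooth.continuous.isClosedEmbedding h.inj

/-- linear left inverse -/
theorem exists_left {E4 : Type} [NormedAddCommGroup E4] [NormedSpace ℝ E4] [FiniteDimensional ℝ E4]
    (D : E4 →L[ℝ] E) (hD : Function.Injective D) : ∃ L : E →L[ℝ] E4, ∀ v, L (D v) = v := by
  obtain ⟨g, hg⟩ := LinearMap.exists_leftInverse_of_injective (D : E4 →ₗ[ℝ] E)
    (LinearMap.ker_eq_bot.2 hD)
  exact ⟨LinearMap.toContinuousLinearMap g, fun v => congrArg (fun f : E4 →ₗ[ℝ] E4 => f v) hg⟩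

theorem exists_piece {ι : M → E} (hι : SEmb (n := n) ι) (hemb : IsInducing ι) (x₀ : M) :
    ∃ (δ : ℝ) (S : Set M) (B : Set (EuclideanSpace ℝ (Fin n))) (φ : M → EuclideanSpace ℝ (Fin n))
      (φ' : EuclideanSpace ℝ (Fin n) → M) (ρ : E → M), Piece ι x₀ δ S B φ φ' ρ := by
  -- the chart
  set φ := extChartAt (𝓡 n) x₀ with hφ
  have hto : IsOpen φ.target := isOpen_extChartAt_target x₀
  have hso : IsOpen φ.source := isOpen_extChartAt_source x₀
  obtain ⟨e, he, hB⟩ := Metric.isOpen_iff.1 hto (φ x₀) (mem_extChartAt_target x₀)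
  set B := ball (φ x₀) e with hBd
  set S := φ.source ∩ φ ⁻¹' B with hS
  have hSo : IsOpen S := (continuousOn_extChartAt x₀).isOpen_inter_preimage hso isOpen_ball
  have hx₀S : x₀ ∈ S := ⟨mem_extChartAt_source x₀, mem_ball_self he⟩
  -- the linear left inverse
  obtain ⟨D, hD⟩ : ∃ D : EuclideanSpace ℝ (Fin n) →L[ℝ] E, HasMFDerivAt (𝓡 n) 𝓘(ℝ, E) ι x₀ D :=
    ⟨mfderiv (𝓡 n) 𝓘(ℝ, E) ι x₀, (hι.smooth.mdifferentiableAt (by simp)).hasMFDerivAt⟩
  have hDi : Function.Injective D := by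
    have h1 := hι.imm x₀
    rw [hD.mfderiv] at h1
    exact h1
  obtain ⟨L, hL⟩ := exists_left D hDi
  set w : M → EuclideanSpace ℝ (Fin n) := fun x => L (ι x) with hw
  have hwS : ContMDiff (𝓡 n) 𝓘(ℝ, EuclideanSpace ℝ (Fin n)) ∞ w :=
    L.contDiff.contMDiff.comp hι.smooth
  have hder : HasMFDerivAt (𝓡 n) 𝓘(ℝ, EuclideanSpace ℝ (Fin n)) w x₀ (L.comp D) :=
    HasMFDerivAt.comp x₀ (L.hasFDerivAt (x := ι x₀)).hasMFDerivAt hD
  obtain ⟨S₀, v, hS₀, hxS₀, hv, himg, hvs⟩ := Pool.Agent.Helper186.local_inverse hwS (ξ := x₀) (by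
    rw [hder.mfderiv]
    intro a b hab
    have : L (D a) = L (D b) := hab
    rwa [hL, hL] at this) rfl
  -- the local retraction
  set ρ : E → M := fun z => v (L z) with hρ
  set O : Set E := L ⁻¹' (w '' S₀) with hO
  have hOo : IsOpen O := (himg S₀ subset_rfl hS₀).preimage L.continuous
  have hρO : ContMDiffOn 𝓘(ℝ, E) (𝓡 n) ∞ ρ O := by
    intro z hz
    obtain ⟨ζ, hζ, hζ2⟩ := hz
    have h1 := hvs ζ hζ
    rw [hζ2] at h1
    exact (h1.comp z (L.contDiff.contMDiff.contMDiffAt)).contMDiffWithinAt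
  have hx₀O : ι x₀ ∈ O := ⟨x₀, hxS₀, rfl⟩
  have hρ0 : ρ (ι x₀) = x₀ := hv x₀ hxS₀
  have hO2 : IsOpen (O ∩ ρ ⁻¹' S) := hρO.continuousOn.isOpen_inter_preimage hOo hSo
  -- small balls

  obtain ⟨Q, hQ, hQS⟩ := hemb.isOpen_iff.1 hS₀
  have hx₀Q : ι x₀ ∈ Q := by
    have : x₀ ∈ ι ⁻¹' Q := by rw [hQS]; exact hxS₀
    exact this
  obtain ⟨s, hs, hsb⟩ := Metric.isOpen_iff.1 (hO2.inter hQ) (ι x₀)
    ⟨⟨hx₀O, by rw [mem_preimage, hρ0]; exact hx₀S⟩, hx₀Q⟩
  have hs3 : 3 * (s / 3) = s := by ring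
  refine ⟨s / 3, S, B, φ, φ.symm, ρ, by positivity, hSo, convex_ball _ _, isOpen_ball, ?_, ?_,
    fun x hx => hx.2, fun x hx => φ.left_inv hx.1, ?_, ?_, ?_⟩
  · exact (contMDiffOn_extChartAt (I := 𝓡 n) (x := x₀)).mono fun x hx => by
      have := hx.1
      rwa [hφ, extChartAt_source] at this
  · exact (contMDiffOn_extChartAt_symm x₀).mono hB
  · rw [hs3]
    exact hρO.mono fun z hz => (hsb hz).1.1
  · rw [hs3]
    exact fun z hz => (hsb hz).1.2
  · rw [hs3]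
    intro x hx
    have h1 : x ∈ ι ⁻¹' Q := (hsb hx).2
    rw [hQS] at h1
    exact hv x h1

/-- an embedded compact subset has a neighbourhood with a retraction -/
theorem good_compact [Nonempty M] {ι : M → E} (hι : SEmb (n := n) ι) (hemb : IsInducing ι)
    {A : Set M} (hA : IsCompact A) : Good n ι A := by
  classical
  choose δ S B φ φ' ρ hP using fun x₀ : M => exists_piece hι hemb x₀
  obtain ⟨t, -, ht⟩ := hA.elim_nhds_subcover
    (fun x => ι ⁻¹' ball (ι x) (δ x)) fun x _ =>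
      (isOpen_ball.preimage hι.smooth.continuous).mem_nhds (mem_ball_self (hP x).pos)
  have key : ∀ s : Finset M, Good n ι (⋃ x ∈ s, ι ⁻¹' ball (ι x) (δ x)) := by
    intro s
    induction s using Finset.induction_on with
    | empty =>
      refine ⟨∅, fun _ => Classical.arbitrary M, isOpen_empty, ?_, ?_, ?_⟩
      · simp
      · intro z hz
        exact absurd hz (notMem_empty z)
      · intro x hx
        exact absurd hx (notMem_empty _)
    | insert a s _ ih =>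
      rw [Finset.set_biUnion_insert, union_comm]
      exact glue ih (hP a)
  obtain ⟨U, ρ', hU, h1, h2, h3⟩ := key t
  exact ⟨U, ρ', hU, (image_mono ht).trans h1, h2, h3⟩

theorem s_TUB : S_TUB := by
  intro n M E _ _ _ _ _ _ _ _ ι hι _
  obtain ⟨U, ρ', hU, h1, h2, h3⟩ := good_compact hι hι.isEmb.isInducing (isCompact_univ (X := M))
  have h4 : range ι ⊆ U := by rwa [image_univ] at h1
  exact ⟨U, ρ', hU, h4, h2, fun x => h3 x (h4 ⟨x, rfl⟩)⟩

end Pool.Agent.L7h17.AH
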