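import Pool.Agent.L7h17.AH.Core3
import Pool.Agent.L7h17.AH.Tub
import Pool.Agent.L7h17.AH.Fin

/-!
# Project AH: nearly affine homeomorphisms of closed manifolds
-/

set_option autoImplicit false
set_option linter.unusedSectionVars false

open Set Filter Topology Metric MeasureTheory
open scoped ContDiff Manifold

noncomputable section

namespace Pool.Agent.L7h17.AH

open Pool.Agent.L7h32.AA Pool.Agent.L7h32.PI

/-- the derivative of `ι` at `x` as a linear map from `ℝⁿ` (the tangent space in the preferred chart)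
to `E` -/
def der {n : ℕ} {M E : Type} [TopologicalSpace M] [ChartedSpace (EuclideanSpace ℝ (Fin n)) M]
    [NormedAddCommGroup E] [NormedSpace ℝ E] (ι : M → E) (x : M) :
    EuclideanSpace ℝ (Fin n) →L[ℝ] E := mfderiv (𝓡 n) 𝓘(ℝ, E) ι x

/-- `f : M → N` is `ε`-nearly affine at the scale `r` with distortion at most `H` (with respect to the
embeddings `ι`, `κ`) -/
def NAH {n : ℕ} {M N E F : Type} [TopologicalSpace M] [ChartedSpace (EuclideanSpace ℝ (Fin n)) M]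
    [NormedAddCommGroup E] [NormedSpace ℝ E] [NormedAddCommGroup F] [NormedSpace ℝ F]
    (ι : M → E) (κ : N → F) (ε H r : ℝ) (f : M → N) : Prop :=
  ∀ x : M, ∃ (l : ℝ) (T : E →L[ℝ] F), 0 < l ∧ (∀ v : E, ‖T v‖ ≤ H * l * ‖v‖) ∧
    (∀ u : EuclideanSpace ℝ (Fin n), l * ‖der ι x u‖ ≤ ‖T (der ι x u)‖) ∧
    ∀ y : M, ‖ι y - ι x‖ ≤ r → ‖κ (f y) - κ (f x) - T (ι y - ι x)‖ ≤ ε * l * r

/-- even kernels -/
theorem exists_even {E : Type} [NormedAddCommGroup E] [NormedSpace ℝ E] [FiniteDimensional ℝ E]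
    [MeasurableSpace E] [BorelSpace E] (μ : Measure E) [μ.IsAddHaarMeasure] :
    ∃ η : E → ℝ, Ker μ η ∧ ∀ v, η (-v) = η v := by
  let b : ContDiffBump (0 : E) := ⟨1 / 2, 1, by norm_num, by norm_num⟩
  refine ⟨b.normed μ, ⟨b.contDiff_normed, b.nonneg_normed, fun y hy => ?_, b.integral_normed⟩,
    b.normed_neg⟩
  have h1 := b.support_normed_eq (μ := μ)
  by_contra h
  have h2 : y ∈ Function.support (b.normed μ) := h
  rw [h1, mem_ball_zero_iff] at h2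
  have : b.rOut = 1 := rfl
  linarith

/-- the retraction `ι ∘ ρ` -/
theorem ret_of {n : ℕ} {M E : Type} [TopologicalSpace M] [ChartedSpace (EuclideanSpace ℝ (Fin n)) M]
    [IsManifold (𝓡 n) ∞ M] [CompactSpace M]
    [NormedAddCommGroup E] [NormedSpace ℝ E] {ι : M → E} (hι : SEmb (n := n) ι) {U : Set E}
    {ρ : E → M} (hU : IsOpen U) (hs : range ι ⊆ U) (hρ : ContMDiffOn 𝓘(ℝ, E) (𝓡 n) ∞ ρ U)
    (hf : ∀ x, ρ (ι x) = x) : Ret (range ι) U (fun z => ι (ρ z)) where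
  cpt := isCompact_range hι.smooth.continuous
  opn := hU
  sub := hs
  smooth := contMDiffOn_iff_contDiffOn.1 (hι.smooth.comp_contMDiffOn hρ)
  maps := fun x _ => mem_range_self _
  fix := by
    rintro _ ⟨x, rfl⟩
    rw [hf]

theorem pi_two {E : Type} [NormedAddCommGroup E] [NormedSpace ℝ E] [FiniteDimensional ℝ E]
    {K U : Set E} {N : E → E} (hR : Ret K U N) (h1 : ∀ p ∈ K, ‖fderiv ℝ N p‖ ≤ 1) :
    ∃ (t₁ : ℝ) (V : Set E), Pi0 K U N t₁ 2 V := by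
  obtain ⟨t₁, C, V, a1, a2, a3, a4, a5, a6, a7⟩ := Pool.Agent.L7h73.AA.s_PI E K U N hR
  obtain ⟨w, hw, hN⟩ := (Pool.Agent.L7h69.PI.s_NU E K U N hR).1 1 one_pos
  refine ⟨min t₁ w, V, lt_min a1 hw, by norm_num, a3, a4,
    fun x hx z hz => a5 x hx z (hz.trans_le (min_le_left _ _)), fun x hx z hz => ?_,
    fun x hx y hy z hz => a7 x hx y hy z (hz.trans_le (min_le_left _ _))⟩
  have hz2 : ‖z‖ < w := hz.trans_le (min_le_right _ _)
  have b1 := (hN x hx (x + z) x (by rwa [add_sub_cancel_left]) (by rwa [sub_self, norm_zero])).2.2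
  rw [hR.fix x hx, add_sub_cancel_left] at b1
  have b2 : ‖fderiv ℝ N x z‖ ≤ ‖z‖ := by
    have := (fderiv ℝ N x).le_of_opNorm_le (h1 x hx) z
    rwa [one_mul] at this
  have b3 := norm_sub_norm_le (N (x + z) - x) (fderiv ℝ N x z)
  linarith

/-- the main theorem for closed manifolds -/
theorem general (hORT : S_ORT) (n a : ℕ) : ∃ ε : ℝ, 0 < ε ∧ ∀ (H : ℝ) (M N F : Type)
    [TopologicalSpace M] [ChartedSpace (EuclideanSpace ℝ (Fin n)) M]
    [IsManifold (𝓡 n) ∞ M] [CompactSpace M] [T2Space M]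
    [TopologicalSpace N] [ChartedSpace (EuclideanSpace ℝ (Fin n)) N]
    [IsManifold (𝓡 n) ∞ N] [CompactSpace N] [PreconnectedSpace N] [T2Space N]
    [NormedAddCommGroup F] [NormedSpace ℝ F] [FiniteDimensional ℝ F]
    (ι : M → EuclideanSpace ℝ (Fin a)) (κ : N → F) (f : M ≃ₜ N),
    Nonempty M → SEmb (n := n) ι → SEmb (n := n) κ →
    (∀ r₀ : ℝ, 0 < r₀ → ∃ r : ℝ, 0 < r ∧ r < r₀ ∧ NAH (n := n) ι κ ε H r f) →
    ∀ δ : ℝ, 0 < δ → ∃ Φ : Diffeomorph (𝓡 n) (𝓡 n) M N ∞, ∀ x, ‖κ (Φ x) - κ (f x)‖ ≤ δ := by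
  obtain ⟨η, hη, heven⟩ := exists_even (volume : Measure (EuclideanSpace ℝ (Fin a)))
  obtain ⟨Λ, hΛ2, hΛ⟩ := exists_lam hη
  have hε : 0 < 1 / (48 * Λ) := by positivity
  refine ⟨1 / (48 * Λ), hε, ?_⟩
  intro H M N F _ _ _ _ _ _ _ _ _ _ _ _ _ _ ι κ f hne hι hκ hf δ hδ
  have : Nonempty N := hne.map f
  obtain ⟨U, ρ₀, hU, hs, hρ₀, hfix₀⟩ := s_TUB n M _ ι hι hne
  obtain ⟨U', ρ', hU', hs', hρ', hfix'⟩ := s_TUB n N F κ hκ inferInstance
  have hR₀ := ret_of hι hU hs hρ₀ hfix₀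
  have hR' := ret_of hκ hU' hs' hρ' hfix'
  obtain ⟨W, q, hW, hKW, hq, hqU, hqfix, hq1⟩ := hORT _ _ _ _ hR₀
  set ρ : EuclideanSpace ℝ (Fin a) → M := fun z => ρ₀ (q z) with hρd
  have hρ : ContMDiffOn 𝓘(ℝ, EuclideanSpace ℝ (Fin a)) (𝓡 n) ∞ ρ W :=
    hρ₀.comp (contMDiffOn_iff_contDiffOn.2 hq) hqU
  have hfix : ∀ x, ρ (ι x) = x := fun x => by
    simp only [hρd]
    rw [hqfix _ (mem_range_self x), hfix₀]
  have hR := ret_of hι hW hKW hρ hfix
  obtain ⟨t₁, V, hp⟩ := pi_two hR hq1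
  set φ : EuclideanSpace ℝ (Fin a) → F := fun z => κ (f (ρ z)) with hφ
  set ψ : F → EuclideanSpace ℝ (Fin a) := fun z => ι (f.symm (ρ' z)) with hψ
  have hφc : ContinuousOn φ (range ι) :=
    (hκ.smooth.continuous.comp f.continuous).comp_continuousOn (hρ.continuousOn.mono hKW)
  have hψc : ContinuousOn ψ (range κ) :=
    (hι.smooth.continuous.comp f.symm.continuous).comp_continuousOn (hρ'.continuousOn.mono hs')
  have hφK : MapsTo φ (range ι) (range κ) := fun z _ => mem_range_self _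
  have hψK : MapsTo ψ (range κ) (range ι) := fun z _ => mem_range_self _
  have h1 : ∀ x ∈ range ι, ψ (φ x) = x := by
    rintro _ ⟨x, rfl⟩
    simp only [hψ, hφ]
    rw [hfix, hfix', f.symm_apply_apply]
  have h2 : ∀ y ∈ range κ, φ (ψ y) = y := by
    rintro _ ⟨y, rfl⟩
    simp only [hψ, hφ]
    rw [hfix', hfix, f.apply_symm_apply]
  -- the derivative of the retraction has values in the tangent space
  have hder : ∀ (x : M) (v : EuclideanSpace ℝ (Fin a)), ∃ u : EuclideanSpace ℝ (Fin n),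
      fderiv ℝ (fun z => ι (ρ z)) (ι x) v = der ι x u := by
    intro x v
    obtain ⟨G, hG⟩ : ∃ G : EuclideanSpace ℝ (Fin a) →L[ℝ] EuclideanSpace ℝ (Fin n),
        HasMFDerivAt 𝓘(ℝ, EuclideanSpace ℝ (Fin a)) (𝓡 n) ρ (ι x) G :=
      ⟨mfderiv 𝓘(ℝ, EuclideanSpace ℝ (Fin a)) (𝓡 n) ρ (ι x),
        (((hρ _ (hKW (mem_range_self x))).contMDiffAt
          (hW.mem_nhds (hKW (mem_range_self x)))).mdifferentiableAt (by simp)).hasMFDerivAt⟩
    have hD : HasMFDerivAt (𝓡 n) 𝓘(ℝ, EuclideanSpace ℝ (Fin a)) ι (ρ (ι x)) (der (n := n) ι x) := by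
      rw [hfix]
      exact (hι.smooth.mdifferentiableAt (by simp)).hasMFDerivAt
    have h3 : HasMFDerivAt 𝓘(ℝ, EuclideanSpace ℝ (Fin a)) 𝓘(ℝ, EuclideanSpace ℝ (Fin a))
        (fun z => ι (ρ z)) (ι x) ((der (n := n) ι x).comp G) := HasMFDerivAt.comp (ι x) hD hG
    have h4 : HasFDerivAt (fun z => ι (ρ z)) ((der (n := n) ι x).comp G) (ι x) :=
      hasMFDerivAt_iff_hasFDerivAt.1 h3
    rw [h4.fderiv]
    exact ⟨G v, rfl⟩
  have hNAT : ∀ r₀ : ℝ, 0 < r₀ → ∃ r : ℝ, 0 < r ∧ r < r₀ ∧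
      NAT (range ι) (fun z => ι (ρ z)) (1 / (48 * Λ)) (max H 1) r φ := by
    intro r₀ hr₀
    obtain ⟨r, hr, hrr, hN⟩ := hf r₀ hr₀
    refine ⟨r, hr, hrr, ?_⟩
    rintro _ ⟨x, rfl⟩
    obtain ⟨l, T, hl, hT, hTl, hb⟩ := hN x
    refine ⟨l, T, hl, fun v => (hT v).trans ?_, fun v => ?_, ?_⟩
    · gcongr
      exact le_max_left _ _
    · obtain ⟨u, hu⟩ := hder x v
      rw [hu]
      exact hTl u
    · rintro _ ⟨y, rfl⟩ hy
      simp only [hφ]
      rw [hfix, hfix]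
      exact hb y hy
  obtain ⟨A, hA, hAU, hclose, hinj, hlow⟩ := core hR hp hη heven hΛ2 hΛ hε (by
    have : Λ ≠ 0 := by positivity
    field_simp
    norm_num) (le_max_right H 1) hR' hφc hφK hψc hψK h1 h2 hNAT hδ
  set g : M → N := fun x => ρ' (A (ι x)) with hg
  have hgs : ContMDiff (𝓡 n) (𝓡 n) ∞ g := by
    intro x
    have hx : ι x ∈ range ι := mem_range_self x
    have b1 : ContMDiffAt 𝓘(ℝ, F) (𝓡 n) ∞ ρ' (A (ι x)) :=
      (hρ' _ (hAU _ hx)).contMDiffAt (hU'.mem_nhds (hAU _ hx))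
    have b2 : ContMDiffAt 𝓘(ℝ, EuclideanSpace ℝ (Fin a)) 𝓘(ℝ, F) ∞ A (ι x) :=
      ((hA _ (hp.sub hx)).contDiffAt (hp.opn.mem_nhds (hp.sub hx))).contMDiffAt
    exact (b1.comp (ι x) b2).comp x (hι.smooth x)
  obtain ⟨Φ, hΦ⟩ := s_FIN n M N _ F ι κ g hι hκ hne hgs (by
    intro x y hxy
    have := hinj (mem_range_self x) (mem_range_self y) (congrArg κ hxy)
    exact hι.inj this) (by
    intro x
    obtain ⟨c, hc, s, hs, h3⟩ := hlow _ (mem_range_self x)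
    exact ⟨c, hc, s, hs, fun y hy => h3 _ (mem_range_self y) hy⟩)
  refine ⟨Φ, fun x => ?_⟩
  rw [hΦ]
  have := hclose _ (mem_range_self x)
  simp only [hφ] at this
  rwa [hfix] at this

end Pool.Agent.L7h17.AH
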