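import Pool.Agent.L7h32.AA.Est
import Pool.Agent.L7h32.PI.Stm

/-!
# Project AH: almost affine homeomorphisms between smooth structures (S¹ × S³), statements

THEOREM (MP_6db3ee_gt). For every `a` there is `ε > 0` such that: if `M`, `N` are smooth manifolds
homeomorphic to `S¹ × S³` (or both to the twisted product), `ι : M → ℝᵃ`, `κ : N → ℝᵇ` smooth embeddings,
`f : M → N` a homeomorphism which for some `H` and arbitrarily small `r` is on every ball of radius
`r` `ε`-nearly affine with distortion at most `H`, then `f` is a uniform limit of diffeomorphisms.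

PROOF. Extrinsic: `K = ι(M)`, `K' = κ(N)` with smooth retractions (S_TUB), `‖DN‖ ≤ 1` (S_ORT);
`g = N' ∘ moll (φ ∘ N) τ`. Near pairs: comparison with the affine map. Far pairs: the inverse of `f` and
the intermediate value theorem (S_FAR, helper17). S_FIN turns the result into a diffeomorphism.
-/

set_option autoImplicit false

open Set Filter Topology Metric MeasureTheory
open scoped ContDiff Manifold

noncomputable section

namespace Pool.Agent.L7h17.AH

open Pool.Agent.L7h32.AA Pool.Agent.L7h32.PI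

/-- `ι` is an injective smooth immersion of the `n`-manifold `M` into the normed space `E` -/
structure SEmb {n : ℕ} {M E : Type} [TopologicalSpace M] [ChartedSpace (EuclideanSpace ℝ (Fin n)) M]
    [NormedAddCommGroup E] [NormedSpace ℝ E] (ι : M → E) : Prop where
  smooth : ContMDiff (𝓡 n) 𝓘(ℝ, E) ∞ ι
  inj : Function.Injective ι
  imm : ∀ x, Function.Injective (mfderiv (𝓡 n) 𝓘(ℝ, E) ι x)

/-- S_TUB: an embedded compact manifold is a smooth retract of a neighbourhood.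
Proof. (1) Local: for `x₀ ∈ M` with `φ = extChartAt x₀`, `D = d(ι ∘ φ⁻¹)(φ x₀)` injective, `L` a linear left
inverse of `D`; `v ↦ L(ι(φ⁻¹ v))` has derivative `1` at `φ x₀`, local inverse `k`; `ρ(z) = φ⁻¹(k(L z))` is smooth
near `ι x₀`, with values in `S_{x₀} = φ⁻¹(ball)`, `ρ(ι x) = x` for `x` near `x₀`; `ι` is an embedding (compact),
so there is `δ` with `ρ` good on `ball (ι x₀) (3 δ)` (`ρ (ι x) = x` for ALL `x` with `ι x` in that ball).
(2) Finitely many balls `ball (ι xᵢ) δᵢ` cover `ι(M)`; induction over `Finset`: claim `P(A)` for `A ⊆ M`: there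
are `U_A` open, `ι(A) ⊆ U_A`, `ρ_A` smooth on `U_A`, `ρ_A (ι x) = x` whenever `ι x ∈ U_A`.
`P(A) → P(A ∪ ι⁻¹ ball(ι xᵢ) δᵢ)`: `χ` = ContDiffBump at `ι xᵢ` (`rIn = δᵢ`, `rOut = 2 δᵢ`),
`V = {z ∈ U_A ∩ ball (3 δᵢ) | ρ_A z ∈ S}`, `W₁ = U_A \ closedBall (2 δᵢ)`, `W₂ = ball δᵢ`, new `ρ` = `ρ_B` on `W₂`,
`ρ_A` on `W₁`, `φ⁻¹((1 - χ) φ(ρ_A z) + χ φ(ρ_B z))` on `V` (agree on the overlaps), `W = V ∪ W₁ ∪ W₂`. -/
def S_TUB : Prop :=
  ∀ (n : ℕ) (M E : Type) [TopologicalSpace M] [ChartedSpace (EuclideanSpace ℝ (Fin n)) M]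
    [IsManifold (𝓡 n) ∞ M] [CompactSpace M] [T2Space M]
    [NormedAddCommGroup E] [NormedSpace ℝ E] [FiniteDimensional ℝ E] (ι : M → E),
    SEmb (n := n) ι → Nonempty M →
    ∃ (U : Set E) (ρ : E → M), IsOpen U ∧ range ι ⊆ U ∧ ContMDiffOn 𝓘(ℝ, E) (𝓡 n) ∞ ρ U ∧
      ∀ x, ρ (ι x) = x

/-- S_ORT: the retraction can be corrected so that its derivatives on `K` are orthogonal projections.
Proof. `P_p = fderiv N p` (`p ∈ K`) is idempotent (`Pool.Agent.L7h69.PI.idem`);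
`Π_p = P_p (P_p + P_p† - 1)⁻¹` is the orthogonal projection to its range
(`(P + P† - 1)² = 1 + (P - P†)† (P - P†)`), smooth in `p`;
`q z = N z + Π_{N z} (z - N z)`: `Dq(p) v = P v + Π (v - P v) = Π v`, `D(N ∘ q)(p) v = P (Π v) = Π v`. -/
def S_ORT : Prop :=
  ∀ (E : Type) [NormedAddCommGroup E] [InnerProductSpace ℝ E] [FiniteDimensional ℝ E]
    (K U : Set E) (N : E → E), Ret K U N →
    ∃ (W : Set E) (q : E → E), IsOpen W ∧ K ⊆ W ∧ ContDiffOn ℝ ∞ q W ∧ (∀ z ∈ W, q z ∈ U) ∧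
      (∀ x ∈ K, q x = x) ∧ ∀ p ∈ K, ‖fderiv ℝ (fun z => N (q z)) p‖ ≤ 1

/-- S_FIN: an injective smooth map `g : M → N` of closed `n`-manifolds, `N` connected, with a lower bound
at all points is a diffeomorphism. Proof. `mfderiv g x` is injective: if `u` is in the kernel and
`γ t = φ⁻¹(φ x + t u)` then `c ‖ι (γ t) - ι x‖ ≤ ‖κ (g (γ t)) - κ (g x)‖ = o(t)`, so `dι u = 0`, `u = 0`. So `g` is
a local diffeomorphism (`Pool.Agent.Helper186.local_inverse`), open, its image is open and compact, so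
everything. (`IsLocalDiffeomorph.diffeomorphOfBijective`.) -/
def S_FIN : Prop :=
  ∀ (n : ℕ) (M N E F : Type) [TopologicalSpace M] [ChartedSpace (EuclideanSpace ℝ (Fin n)) M]
    [IsManifold (𝓡 n) ∞ M] [CompactSpace M] [T2Space M]
    [TopologicalSpace N] [ChartedSpace (EuclideanSpace ℝ (Fin n)) N]
    [IsManifold (𝓡 n) ∞ N] [PreconnectedSpace N] [T2Space N]
    [NormedAddCommGroup E] [NormedSpace ℝ E] [FiniteDimensional ℝ E]
    [NormedAddCommGroup F] [NormedSpace ℝ F] [FiniteDimensional ℝ F] (ι : M → E) (κ : N → F)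
    (g : M → N), SEmb (n := n) ι → SEmb (n := n) κ → Nonempty M →
    ContMDiff (𝓡 n) (𝓡 n) ∞ g → Function.Injective g →
    (∀ x : M, ∃ c : ℝ, 0 < c ∧ ∃ δ : ℝ, 0 < δ ∧ ∀ y : M, ‖ι y - ι x‖ ≤ δ →
      c * ‖ι x - ι y‖ ≤ ‖κ (g x) - κ (g y)‖) →
    ∃ Φ : Diffeomorph (𝓡 n) (𝓡 n) M N ∞, ∀ x, Φ x = g x

/-- `ℝ⁴` -/
abbrev R4 : Type := EuclideanSpace ℝ (Fin 4)

/-- the product `S¹ × S³` -/
abbrev Prod13 : Type := Circle × Metric.sphere (0 : R4) 1

/-- the twisted product: the unit sphere bundle of the sum of the Moebius line bundle over the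
circle (the line over `p` consists of the `z` with `z ^ 2 = |z| ^ 2 p`) and a trivial bundle of
rank three -/
abbrev Twisted13 : Type := {p : ℂ × ℂ × EuclideanSpace ℝ (Fin 3) //
  ‖p.1‖ = 1 ∧ p.2.1 ^ 2 = ((‖p.2.1‖ ^ 2 : ℝ) : ℂ) * p.1 ∧ ‖p.2.1‖ ^ 2 + ‖p.2.2‖ ^ 2 = 1}

/-- S_TOP: the two model spaces are compact and connected. (`Twisted13` is the image of
`ℝ × {(w, u) : ℝ × E³ | w² + |u|² = 1}` under `(θ, (w, u)) ↦ (e^{iθ}, w e^{iθ/2}, u)`.) -/
def S_TOP : Prop :=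
  CompactSpace Prod13 ∧ ConnectedSpace Prod13 ∧ CompactSpace Twisted13 ∧ ConnectedSpace Twisted13

end Pool.Agent.L7h17.AH
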