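import Pool.Agent.L7h17.AH.CoreR
import Pool.Agent.L7h75.AH.Ort

/-!
# Project AH: auxiliary facts for the relative version
-/

set_option autoImplicit false
set_option linter.unusedSectionVars false

open Set Filter Topology Metric MeasureTheory
open scoped ContDiff

noncomputable section

namespace Pool.Agent.L7h17.AH

open Pool.Agent.L7h32.AA Pool.Agent.L7h32.PI

/-- smooth maps are uniformly strictly differentiable on compact sets -/
theorem nuC {E F : Type} [NormedAddCommGroup E] [NormedSpace ℝ E] [NormedAddCommGroup F]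
    [NormedSpace ℝ F] {K U : Set E} {Φ : E → F} (hK : IsCompact K) (hU : IsOpen U) (hKU : K ⊆ U)
    (hΦ : ContDiffOn ℝ ∞ Φ U) {κ : ℝ} (hκ : 0 < κ) :
    ∃ w : ℝ, 0 < w ∧ ∀ p ∈ K, ∀ z z' : E, ‖z - p‖ < w → ‖z' - p‖ < w →
      z ∈ U ∧ z' ∈ U ∧ ‖(Φ z - Φ z') - fderiv ℝ Φ p (z - z')‖ ≤ κ * ‖z - z'‖ := by
  have key : ∀ p : K, ∃ r : ℝ, 0 < r ∧ (∀ z z' : E, z ∈ ball p.1 r → z' ∈ ball p.1 r →
      z ∈ U ∧ ‖(Φ z - Φ z') - fderiv ℝ Φ p.1 (z - z')‖ ≤ κ / 2 * ‖z - z'‖) ∧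
      ∀ q ∈ ball p.1 r, ‖fderiv ℝ Φ p.1 - fderiv ℝ Φ q‖ ≤ κ / 2 := by
    rintro ⟨p, hp⟩
    have h0 : HasStrictFDerivAt Φ (fderiv ℝ Φ p) p :=
      (hΦ.contDiffAt (hU.mem_nhds (hKU hp))).hasStrictFDerivAt (by simp)
    have h1 := h0.isLittleO.def (half_pos hκ)
    have h2 : ∀ᶠ z in 𝓝 p, z ∈ U := hU.mem_nhds (hKU hp)
    have h3 : ContinuousAt (fderiv ℝ Φ) p :=
      ((hΦ.continuousOn_fderiv_of_isOpen hU (by simp)).continuousAt (hU.mem_nhds (hKU hp)))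
    have h4 : ∀ᶠ q in 𝓝 p, ‖fderiv ℝ Φ p - fderiv ℝ Φ q‖ < κ / 2 := by
      have := h3.eventually (Metric.ball_mem_nhds _ (half_pos hκ))
      filter_upwards [this] with q hq
      rwa [dist_comm, dist_eq_norm] at hq
    obtain ⟨r1, hr1, h5⟩ := Metric.eventually_nhds_iff_ball.1 h1
    obtain ⟨r2, hr2, h6⟩ := Metric.eventually_nhds_iff_ball.1 (h2.and h4)
    refine ⟨min r1 r2, lt_min hr1 hr2, fun z z' hz hz' => ?_, fun q hq => ?_⟩
    · have k1 : z ∈ ball p r2 := ball_subset_ball (min_le_right _ _) hz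
      refine ⟨(h6 z k1).1, ?_⟩
      have k2 : (z, z') ∈ ball (p, p) r1 := by
        rw [← ball_prod_same]
        exact ⟨ball_subset_ball (min_le_left _ _) hz, ball_subset_ball (min_le_left _ _) hz'⟩
      exact h5 _ k2
    · exact (h6 q (ball_subset_ball (min_le_right _ _) hq)).2.le
  choose r hr h1 h2 using key
  obtain ⟨w, hw, h3⟩ := lebesgue_number_lemma_of_metric (s := K) (c := fun p : K => ball p.1 (r p))
    hK (fun p => isOpen_ball) (fun p hp => mem_iUnion.2 ⟨⟨p, hp⟩, mem_ball_self (hr _)⟩)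
  refine ⟨w, hw, fun q hq z z' hz hz' => ?_⟩
  obtain ⟨p, hp⟩ := h3 q hq
  have kz : z ∈ ball p.1 (r p) := hp (by rwa [mem_ball, dist_eq_norm])
  have kz' : z' ∈ ball p.1 (r p) := hp (by rwa [mem_ball, dist_eq_norm])
  have kq : q ∈ ball p.1 (r p) := hp (mem_ball_self hw)
  refine ⟨(h1 p z z' kz kz').1, (h1 p z' z kz' kz).1, ?_⟩
  have e1 := (h1 p z z' kz kz').2
  have e2 := h2 p q kq
  have e3 : (Φ z - Φ z') - fderiv ℝ Φ q (z - z') =
      ((Φ z - Φ z') - fderiv ℝ Φ p.1 (z - z')) + (fderiv ℝ Φ p.1 - fderiv ℝ Φ q) (z - z') := by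
    rw [sub_apply]
    abel
  rw [e3]
  have e4 := (fderiv ℝ Φ p.1 - fderiv ℝ Φ q).le_opNorm (z - z')
  have e5 := mul_le_mul_of_nonneg_right e2 (norm_nonneg (z - z'))
  calc _ ≤ _ + _ := norm_add_le _ _
    _ ≤ κ / 2 * ‖z - z'‖ + κ / 2 * ‖z - z'‖ := add_le_add e1 (e4.trans e5)
    _ = κ * ‖z - z'‖ := by ring

/-- a bound for the derivative on a compact set -/
theorem bdC {E F : Type} [NormedAddCommGroup E] [NormedSpace ℝ E] [NormedAddCommGroup F]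
    [NormedSpace ℝ F] {K U : Set E} {Φ : E → F} (hK : IsCompact K) (hU : IsOpen U) (hKU : K ⊆ U)
    (hΦ : ContDiffOn ℝ ∞ Φ U) : ∃ B : ℝ, 0 < B ∧ ∀ p ∈ K, ‖fderiv ℝ Φ p‖ ≤ B := by
  obtain ⟨B, hB⟩ := hK.exists_bound_of_continuousOn
    ((hΦ.continuousOn_fderiv_of_isOpen hU (by simp)).mono hKU)
  exact ⟨max B 1, by positivity, fun p hp => (hB p hp).trans (le_max_left _ _)⟩

/-- smooth maps are uniformly Lipschitz near compact sets -/
theorem lipC {E F : Type} [NormedAddCommGroup E] [NormedSpace ℝ E] [NormedAddCommGroup F]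
    [NormedSpace ℝ F] {K U : Set E} {Φ : E → F} (hK : IsCompact K) (hU : IsOpen U) (hKU : K ⊆ U)
    (hΦ : ContDiffOn ℝ ∞ Φ U) :
    ∃ L w : ℝ, 0 < L ∧ 0 < w ∧ ∀ p ∈ K, ∀ z z' : E, ‖z - p‖ < w → ‖z' - p‖ < w →
      ‖Φ z - Φ z'‖ ≤ L * ‖z - z'‖ := by
  obtain ⟨B, hB, h1⟩ := bdC hK hU hKU hΦ
  obtain ⟨w, hw, h2⟩ := nuC hK hU hKU hΦ one_pos
  refine ⟨B + 1, w, by positivity, hw, fun p hp z z' hz hz' => ?_⟩
  have h3 := (h2 p hp z z' hz hz').2.2
  have h4 := (fderiv ℝ Φ p).le_of_opNorm_le (h1 p hp) (z - z')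
  have h5 := norm_sub_norm_le (Φ z - Φ z') (fderiv ℝ Φ p (z - z'))
  linarith

/-- continuous functions are uniformly continuous near compact sets -/
theorem ucC {E F : Type} [NormedAddCommGroup E] [NormedAddCommGroup F]
    {K U : Set E} {Φ : E → F} (hK : IsCompact K) (hU : IsOpen U) (hKU : K ⊆ U)
    (hΦ : ContinuousOn Φ U) {o : ℝ} (ho : 0 < o) :
    ∃ w : ℝ, 0 < w ∧ ∀ p ∈ K, ∀ z : E, ‖z - p‖ < w → z ∈ U ∧ ‖Φ z - Φ p‖ < o := by
  have key : ∀ p : K, ∃ r : ℝ, 0 < r ∧ ∀ z ∈ ball p.1 r, z ∈ U ∧ ‖Φ z - Φ p.1‖ < o / 2 := by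
    rintro ⟨p, hp⟩
    have h2 : ∀ᶠ z in 𝓝 p, z ∈ U := hU.mem_nhds (hKU hp)
    have h3 : ContinuousAt Φ p := hΦ.continuousAt (hU.mem_nhds (hKU hp))
    have h4 : ∀ᶠ z in 𝓝 p, ‖Φ z - Φ p‖ < o / 2 := by
      have := h3.eventually (Metric.ball_mem_nhds _ (half_pos ho))
      filter_upwards [this] with q hq
      rwa [dist_eq_norm] at hq
    obtain ⟨r, hr, h⟩ := Metric.eventually_nhds_iff_ball.1 (h2.and h4)
    exact ⟨r, hr, h⟩
  choose r hr h1 using key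
  obtain ⟨w, hw, h3⟩ := lebesgue_number_lemma_of_metric (s := K) (c := fun p : K => ball p.1 (r p))
    hK (fun p => isOpen_ball) (fun p hp => mem_iUnion.2 ⟨⟨p, hp⟩, mem_ball_self (hr _)⟩)
  refine ⟨w, hw, fun q hq z hz => ?_⟩
  obtain ⟨p, hp⟩ := h3 q hq
  have kz := h1 p z (hp (by rwa [mem_ball, dist_eq_norm]))
  have kq := h1 p q (hp (mem_ball_self hw))
  refine ⟨kz.1, ?_⟩
  have e : Φ z - Φ q = (Φ z - Φ p.1) - (Φ q - Φ p.1) := by abel
  rw [e]
  have := norm_sub_le (Φ z - Φ p.1) (Φ q - Φ p.1)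
  linarith [kz.2, kq.2]

/-- a local retraction: `N : U → K` is smooth and fixes the points of `K ∩ U` -/
structure RR {E : Type} [NormedAddCommGroup E] [NormedSpace ℝ E] (K U : Set E) (N : E → E) :
    Prop where
  opn : IsOpen U
  smooth : ContDiffOn ℝ ∞ N U
  mps : ∀ x ∈ U, N x ∈ K
  fix : ∀ x ∈ K, x ∈ U → N x = x

section ort

open Pool.Agent.L7h75.AH

variable {E : Type} [NormedAddCommGroup E] [InnerProductSpace ℝ E] [FiniteDimensional ℝ E]
  {K U : Set E} {N : E → E}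

theorem idemR (hR : RR K U N) {p : E} (hp : p ∈ K) (hpU : p ∈ U) :
    fderiv ℝ N p * fderiv ℝ N p = fderiv ℝ N p := by
  have h0 : DifferentiableAt ℝ N p :=
    (hR.smooth.contDiffAt (hR.opn.mem_nhds hpU)).differentiableAt (by simp)
  have h1 : HasFDerivAt N (fderiv ℝ N p) p := h0.hasFDerivAt
  have h1' : HasFDerivAt N (fderiv ℝ N p) (N p) := by rw [hR.fix p hp hpU]; exact h1
  have h2 : HasFDerivAt (fun z => N (N z)) ((fderiv ℝ N p).comp (fderiv ℝ N p)) p := h1'.comp p h1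
  have h3 : (fun z => N (N z)) =ᶠ[𝓝 p] N := by
    have h4 : ∀ᶠ z in 𝓝 p, N z ∈ U := by
      have : N p ∈ U := by rwa [hR.fix p hp hpU]
      exact h0.continuousAt.eventually (hR.opn.mem_nhds this)
    filter_upwards [hR.opn.mem_nhds hpU, h4] with z hz hz2
    exact hR.fix _ (hR.mps z hz) hz2
  have h4 := (h1.congr_of_eventuallyEq h3).unique h2
  exact h4.symm

/-- the orthogonal correction of a local retraction -/
theorem ortR (hR : RR K U N) : ∃ (W : Set E) (q : E → E), IsOpen W ∧ K ∩ U ⊆ W ∧ W ⊆ U ∧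
    ContDiffOn ℝ ∞ q W ∧ (∀ z ∈ W, q z ∈ U) ∧ (∀ x ∈ K, x ∈ U → q x = x) ∧
    ∀ p ∈ K, p ∈ U → ‖fderiv ℝ (fun z => N (q z)) p‖ ≤ 1 := by
  set U₂ : Set E := U ∩ N ⁻¹' U with hU₂
  have hU₂o : IsOpen U₂ := hR.smooth.continuousOn.isOpen_inter_preimage hR.opn hR.opn
  have hKU₂ : ∀ x ∈ K, x ∈ U → x ∈ U₂ := fun x hx hxU => ⟨hxU, by
    rw [mem_preimage, hR.fix x hx hxU]
    exact hxU⟩
  set Pi : E → (E →L[ℝ] E) := fun z => piOp (fderiv ℝ N (N z)) with hPi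
  set q : E → E := fun z => N z + Pi z (z - N z) with hq
  have hfd : ContDiffOn ℝ ∞ (fderiv ℝ N) U := hR.smooth.fderiv_of_isOpen hR.opn (by simp)
  have hNat : ∀ z ∈ U, ContDiffAt ℝ ∞ N z := fun z hz =>
    hR.smooth.contDiffAt (hR.opn.mem_nhds hz)
  have hPiat : ∀ z ∈ U₂, ContDiffAt ℝ ∞ Pi z := by
    intro z hz
    have h1 : ContDiffAt ℝ ∞ (fderiv ℝ N) (N z) := hfd.contDiffAt (hR.opn.mem_nhds hz.2)
    have h2 : ContDiffAt ℝ ∞ (fun z => fderiv ℝ N (N z)) z := h1.comp z (hNat z hz.1)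
    exact (piOp_contDiffAt _ (idemR hR (hR.mps z hz.1) hz.2)).comp z h2
  have hqat : ∀ z ∈ U₂, ContDiffAt ℝ ∞ q z := by
    intro z hz
    exact (hNat z hz.1).add ((hPiat z hz).clm_apply (contDiffAt_id.sub (hNat z hz.1)))
  have hqon : ContDiffOn ℝ ∞ q U₂ := fun z hz => (hqat z hz).contDiffWithinAt
  have hqfix : ∀ x ∈ K, x ∈ U → q x = x := by
    intro x hx hxU
    simp only [hq, hR.fix x hx hxU, sub_self, map_zero, add_zero]
  refine ⟨U₂ ∩ q ⁻¹' U, q, hqon.continuousOn.isOpen_inter_preimage hU₂o hR.opn, ?_,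
    fun z hz => hz.1.1, hqon.mono inter_subset_left, fun z hz => hz.2, hqfix, ?_⟩
  · intro x hx
    refine ⟨hKU₂ x hx.1 hx.2, ?_⟩
    change q x ∈ U
    rw [hqfix x hx.1 hx.2]
    exact hx.2
  · intro p hp hpU
    have hNp : N p = p := hR.fix p hp hpU
    set P := fderiv ℝ N p with hP
    have hN : HasFDerivAt N P p := ((hNat p hpU).differentiableAt (by simp)).hasFDerivAt
    obtain ⟨L, hL⟩ : ∃ L, HasFDerivAt Pi L p :=
      ⟨_, ((hPiat p (hKU₂ p hp hpU)).differentiableAt (by simp)).hasFDerivAt⟩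
    have hu : HasFDerivAt (fun z => z - N z) (ContinuousLinearMap.id ℝ E - P) p :=
      (hasFDerivAt_id p).sub hN
    have hq1 : HasFDerivAt q (P + ((Pi p).comp (ContinuousLinearMap.id ℝ E - P) +
        L.flip (p - N p))) p := hN.add (hL.clm_apply hu)
    have hq2 : P + ((Pi p).comp (ContinuousLinearMap.id ℝ E - P) + L.flip (p - N p)) =
        piOp P := by
      rw [hNp, sub_self, map_zero, add_zero]
      have hPip : Pi p = piOp P := by simp only [hPi, hNp, hP]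
      rw [hPip]
      have h1 : (piOp P).comp (ContinuousLinearMap.id ℝ E - P) = piOp P - piOp P * P := by
        ext v
        simp
      rw [h1, (pi_facts P (idemR hR hp hpU)).2.1]
      abel
    rw [hq2] at hq1
    have hN' : HasFDerivAt N P (q p) := by rw [hqfix p hp hpU]; exact hN
    have hNq : HasFDerivAt (fun z => N (q z)) (P.comp (piOp P)) p := hN'.comp p hq1
    rw [hNq.fderiv]
    have h2 : P.comp (piOp P) = piOp P := (pi_facts P (idemR hR hp hpU)).1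
    rw [h2]
    exact (pi_facts P (idemR hR hp hpU)).2.2

end ort

end Pool.Agent.L7h17.AH
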