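import Pool.Agent.L7h17.AH.RelA

/-!
# Project AH: the transition region and far pairs
-/

set_option autoImplicit false
set_option linter.unusedSectionVars false

open Set Filter Topology Metric MeasureTheory
open scoped ContDiff

noncomputable section

namespace Pool.Agent.L7h17.AH

open Pool.Agent.L7h32.AA Pool.Agent.L7h32.PI

variable {E F : Type} [NormedAddCommGroup E] [NormedSpace ℝ E] [FiniteDimensional ℝ E]
  [MeasurableSpace E] [BorelSpace E] {μ : Measure E} [μ.IsAddHaarMeasure]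
  [NormedAddCommGroup F] [NormedSpace ℝ F] [FiniteDimensional ℝ F]

variable {K K₁ U : Set E} {N : E → E} {t₁ C : ℝ} {η : E → ℝ} {Λ : ℝ}
    {K' K₁' U' : Set F} {N' : F → F} {ε H κ w o r τ : ℝ} {φ : E → F}

namespace DatR

/-- the interpolation -/
def B (μ : Measure E) (η : E → ℝ) (N : E → E) (τ : ℝ) (φ : E → F) (χ : E → ℝ) (x : E) : F :=
  φ x + χ x • (A μ η N τ φ x - φ x)

theorem tau_r (D : DatR μ K K₁ U N t₁ C η Λ K' K₁' U' N' ε H κ w o r τ φ) : τ ≤ r := by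
  have h1 := D.hCr
  have h2 := D.C1
  have h3 := D.tau0
  nlinarith

theorem B_near (D : DatR μ K K₁ U N t₁ C η Λ K' K₁' U' N' ε H κ w o r τ φ) {χ : E → ℝ} {x y : E}
    (hx : x ∈ K₁) (hy : y ∈ K₁) (hxy : ‖x - y‖ ≤ τ) (h0 : 0 ≤ χ y) (h1 : χ y ≤ 1) :
    ‖B μ η N τ φ χ y - φ x‖ ≤ 2 * o := by
  have a1 := D.clA1 hy
  have a2 := D.osc x hx y (D.sub hy) (by
    rw [norm_sub_rev]
    exact hxy.trans D.tau_r)
  have e : B μ η N τ φ χ y - φ x = χ y • (A μ η N τ φ y - φ y) + (φ y - φ x) := by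
    unfold B
    abel
  rw [e]
  have a3 := norm_add_le (χ y • (A μ η N τ φ y - φ y)) (φ y - φ x)
  have a4 : ‖χ y • (A μ η N τ φ y - φ y)‖ ≤ ‖A μ η N τ φ y - φ y‖ := by
    rw [norm_smul, Real.norm_eq_abs, abs_of_nonneg h0]
    exact mul_le_of_le_one_left (norm_nonneg _) h1
  linarith

theorem B_mem (D : DatR μ K K₁ U N t₁ C η Λ K' K₁' U' N' ε H κ w o r τ φ) {χ : E → ℝ} {x : E}
    (hx : x ∈ K₁) (h0 : 0 ≤ χ x) (h1 : χ x ≤ 1) : B μ η N τ φ χ x ∈ U' := by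
  have a1 := D.B_near hx hx (by rw [sub_self, norm_zero]; exact D.tau0.le) h0 h1
  have hw := D.ww
  have ho := D.om
  exact (D.nu' (φ x) (D.maps1 hx) _ _ (by linarith) (by linarith)).1

/-- near pairs in the transition region -/
theorem trans (D : DatR μ K K₁ U N t₁ C η Λ K' K₁' U' N' ε H κ w o r τ φ) {χ : E → ℝ} {x y : E}
    (hx : x ∈ K₁) (hy : y ∈ K₁) (hxy : ‖x - y‖ ≤ τ) (h0 : ∀ z, 0 ≤ χ z) (h1 : ∀ z, χ z ≤ 1)
    {Lχ c₀ L₀ δ₁ CP : ℝ} (hL : |χ x - χ y| ≤ Lχ * ‖x - y‖)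
    (hc : c₀ * ‖x - y‖ ≤ ‖φ x - φ y‖) (hL₀ : ‖φ x - φ y‖ ≤ L₀ * ‖x - y‖)
    (hδ : ‖A μ η N τ φ y - φ y‖ ≤ δ₁)
    (hδ' : ‖(A μ η N τ φ x - φ x) - (A μ η N τ φ y - φ y)‖ ≤ δ₁ * ‖x - y‖)
    (hCP : ‖fderiv ℝ N' (φ x)‖ ≤ CP) (hCP0 : 0 ≤ CP) (hLχ0 : 0 ≤ Lχ) (hδ0 : 0 ≤ δ₁)
    (hk : κ * (2 * L₀ + 1) ≤ c₀ / 4) (hd : δ₁ * ((1 + Lχ) * (CP + 1)) ≤ c₀ / 4) :
    c₀ / 2 * ‖x - y‖ ≤ ‖N' (B μ η N τ φ χ x) - N' (B μ η N τ φ χ y)‖ := by
  have hw := D.ww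
  have ho := D.om
  have ho0 := D.o0 hx
  have hk0 := D.kap0
  have hk1 : κ ≤ 1 := by
    have h5 := D.kap1
    have h6 := D.eps64
    linarith
  have hd0 : 0 ≤ ‖x - y‖ := norm_nonneg _
  set P := fderiv ℝ N' (φ x) with hP
  set b := B μ η N τ φ χ x with hb
  set b' := B μ η N τ φ χ y with hb'
  have n1 : ‖b - φ x‖ < w := by
    have := D.B_near (χ := χ) hx hx (by rw [sub_self, norm_zero]; exact D.tau0.le) (h0 x) (h1 x)
    linarith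
  have n2 : ‖b' - φ x‖ < w := by
    have := D.B_near (χ := χ) hx hy hxy (h0 y) (h1 y)
    linarith
  have n3 : ‖φ y - φ x‖ < w := by
    have := D.osc x hx y (D.sub hy) (by
      rw [norm_sub_rev]
      exact hxy.trans D.tau_r)
    linarith
  have q1 := (D.nu' (φ x) (D.maps1 hx) b b' n1 n2).2.2
  have q0 := D.nu' (φ x) (D.maps1 hx) (φ x) (φ y) (by rw [sub_self, norm_zero]; exact hw) n3
  have q2 := q0.2.2
  rw [D.fix' _ (D.maps (D.sub hx)) q0.1, D.fix' _ (D.maps (D.sub hy)) q0.2.1] at q2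
  set e := (b - b') - (φ x - φ y) with he
  have e1 : e = χ x • ((A μ η N τ φ x - φ x) - (A μ η N τ φ y - φ y)) +
      (χ x - χ y) • (A μ η N τ φ y - φ y) := by
    rw [he, hb, hb']
    unfold B
    module
  have e2 : ‖e‖ ≤ δ₁ * (1 + Lχ) * ‖x - y‖ := by
    rw [e1]
    have a1 := norm_add_le (χ x • ((A μ η N τ φ x - φ x) - (A μ η N τ φ y - φ y)))
      ((χ x - χ y) • (A μ η N τ φ y - φ y))
    have a2 : ‖χ x • ((A μ η N τ φ x - φ x) - (A μ η N τ φ y - φ y))‖ ≤ δ₁ * ‖x - y‖ := by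
      rw [norm_smul, Real.norm_eq_abs, abs_of_nonneg (h0 x)]
      exact (mul_le_of_le_one_left (norm_nonneg _) (h1 x)).trans hδ'
    have a3 : ‖(χ x - χ y) • (A μ η N τ φ y - φ y)‖ ≤ (Lχ * ‖x - y‖) * δ₁ := by
      rw [norm_smul, Real.norm_eq_abs]
      gcongr
    nlinarith
  have e3 : ‖P e‖ ≤ CP * ‖e‖ := P.le_of_opNorm_le hCP e
  have e40 : b - b' = (φ x - φ y) + e := by
    rw [he]
    abel
  have e4 : P (b - b') = P (φ x - φ y) + P e := by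
    rw [e40, map_add]
  have e5 : ‖b - b'‖ ≤ ‖φ x - φ y‖ + ‖e‖ := by
    have : b - b' = (φ x - φ y) + e := by rw [he]; abel
    rw [this]
    exact norm_add_le _ _
  have r1 : ‖φ x - φ y‖ ≤ ‖P (φ x - φ y)‖ + κ * ‖φ x - φ y‖ := by
    have := norm_sub_norm_le (φ x - φ y) (P (φ x - φ y))
    linarith
  have r2 : ‖P (φ x - φ y)‖ ≤ ‖P (b - b')‖ + ‖P e‖ := by
    have : P (φ x - φ y) = P (b - b') - P e := by rw [e4]; abel
    rw [this]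
    exact norm_sub_le _ _
  have r3 : ‖P (b - b')‖ ≤ ‖N' b - N' b'‖ + κ * ‖b - b'‖ := by
    have := norm_sub_norm_le (P (b - b')) (N' b - N' b')
    rw [norm_sub_rev (P (b - b'))] at this
    linarith
  have r4 : κ * ‖b - b'‖ ≤ κ * (‖φ x - φ y‖ + ‖e‖) := by gcongr
  have r5 : κ * ‖φ x - φ y‖ ≤ κ * (L₀ * ‖x - y‖) := by gcongr
  have r6 : κ * ‖e‖ ≤ 1 * ‖e‖ := by gcongr
  have r7 : (CP + 1) * ‖e‖ ≤ (CP + 1) * (δ₁ * (1 + Lχ) * ‖x - y‖) := by gcongr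
  have r8 : (δ₁ * ((1 + Lχ) * (CP + 1))) * ‖x - y‖ ≤ c₀ / 4 * ‖x - y‖ := by gcongr
  have r9 : κ * (2 * L₀ + 1) * ‖x - y‖ ≤ c₀ / 4 * ‖x - y‖ := by gcongr
  have r10 : 0 ≤ κ * ‖x - y‖ := by positivity
  nlinarith

/-- far pairs -/
theorem far (D : DatR μ K K₁ U N t₁ C η Λ K' K₁' U' N' ε H κ w o r τ φ) {ψ : F → E}
    (hψ : ContinuousOn (fun z => ψ (N' z)) U') (hψK : MapsTo ψ K' K) (h1 : ∀ x ∈ K, ψ (φ x) = x)
    (h2 : ∀ y ∈ K', φ (ψ y) = y) {x x' : E} (hx : x ∈ K₁) (hx' : x' ∈ K) (hfar : τ ≤ ‖x' - x‖)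
    {l : ℝ} (hl : 0 < l) {T : E →L[ℝ] F} (hT : ∀ v, ‖T v‖ ≤ H * l * ‖v‖)
    (hTl : ∀ v, l * ‖fderiv ℝ N x v‖ ≤ ‖T (fderiv ℝ N x v)‖)
    (hb : ∀ y ∈ K, ‖y - x‖ ≤ r → ‖φ y - φ x - T (y - x)‖ ≤ ε * l * r) {z : F}
    (hz : ‖z - φ x‖ ≤ 5 * (ε * l * r)) (hz' : ‖z - φ x'‖ ≤ 5 * (ε * l * r))
    (ho : ‖z - φ x‖ ≤ 3 * o) (ho' : ‖z - φ x'‖ ≤ 3 * o) : False := by
  have hw := D.ww
  have hτ := D.tau0
  have hom := D.om
  have e : φ x' - φ x = (z - φ x) - (z - φ x') := by abel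
  have hδ : ‖φ x' - φ x‖ < w := by
    rw [e]
    have := norm_sub_le (z - φ x) (z - φ x')
    linarith
  have b1 := D.path hψ hψK h1 h2 hx hx' hfar hδ hl hT hTl hb
  have b4 : ‖φ x' - φ x‖ ≤ 10 * (ε * l * r) := by
    rw [e]
    have := norm_sub_le (z - φ x) (z - φ x')
    linarith
  have d5 : ε * l * r ≤ 1 / 32 * (l * τ) := by
    have := D.epsC
    rw [D.hr]
    calc ε * l * ((C + 1) * τ) = (ε * (C + 1)) * (l * τ) := by ring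
      _ ≤ _ := by gcongr
  have d6 : 0 < l * τ := by positivity
  linarith

end DatR

end Pool.Agent.L7h17.AH
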