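import Pool.Agent.L7h17.AH.Stm

/-!
# Project AH, relative version: nearly affine homeomorphisms of smooth 4-balls (statements)

THEOREM (MP_126a0d_gt). For every `a` there is `ε > 0` such that: if `f : M → N` is a homeomorphism of
smooth 4-balls (with boundary), a local diffeomorphism at the boundary points, which for some
`H` and arbitrarily small `r` is `ε`-nearly affine at the scale `r` (distortion at most `H`) near the points
at which it is not a local diffeomorphism, then `f` is a limit of diffeomorphisms `M → N`.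

`S_REL` (helper17): open manifolds, relative to the complement of a compact set. `S_BALL` follows from
it by `Pool.Agent.R865.TB.glueO` exactly as `Pool.Agent.R865.TB.coneMonotoneO` and
`Pool.Agent.Results.MP_126a0d_gt.GeneratedClass.result`.
-/

set_option autoImplicit false

open Set Filter Topology Metric MeasureTheory
open scoped ContDiff Manifold

noncomputable section

namespace Pool.Agent.L7h17.AH

section

variable {n : ℕ} {H : Type} [TopologicalSpace H]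
  (I : ModelWithCorners ℝ (EuclideanSpace ℝ (Fin n)) H) {M N E F : Type} [TopologicalSpace M]
  [ChartedSpace H M] [NormedAddCommGroup E] [NormedSpace ℝ E] [NormedAddCommGroup F]
  [NormedSpace ℝ F]

/-- the derivative of `ι` at `x` as a linear map from `ℝⁿ` (the tangent space in the preferred chart) to
`E` -/
def derI (ι : M → E) (x : M) : EuclideanSpace ℝ (Fin n) →L[ℝ] E := mfderiv I 𝓘(ℝ, E) ι x

/-- `ι` is an injective smooth immersion -/
structure SEmbI (ι : M → E) : Prop where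
  smooth : ContMDiff I 𝓘(ℝ, E) ∞ ι
  inj : Function.Injective ι
  imm : ∀ x, Function.Injective (mfderiv I 𝓘(ℝ, E) ι x)

/-- `f : M → N` is `ε`-nearly affine at the scale `r` with distortion at most `D` at the point `x` (with
respect to the embeddings `ι`, `κ`) -/
def NAt (ι : M → E) (κ : N → F) (ε D r : ℝ) (f : M → N) (x : M) : Prop :=
  ∃ (l : ℝ) (T : E →L[ℝ] F), 0 < l ∧ (∀ v : E, ‖T v‖ ≤ D * l * ‖v‖) ∧
    (∀ u : EuclideanSpace ℝ (Fin n), l * ‖derI I ι x u‖ ≤ ‖T (derI I ι x u)‖) ∧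
    ∀ y : M, ‖ι y - ι x‖ ≤ r → ‖κ (f y) - κ (f x) - T (ι y - ι x)‖ ≤ ε * l * r

end

/-- S_REL: the relative theorem for open manifolds (in work: helper17) -/
def S_REL : Prop :=
  ∀ (n a : ℕ), ∃ ε : ℝ, 0 < ε ∧ ∀ (D : ℝ) (X Y F : Type)
    [TopologicalSpace X] [ChartedSpace (EuclideanSpace ℝ (Fin n)) X] [IsManifold (𝓡 n) ∞ X]
    [T2Space X] [TopologicalSpace Y] [ChartedSpace (EuclideanSpace ℝ (Fin n)) Y]
    [IsManifold (𝓡 n) ∞ Y] [T2Space Y] [PreconnectedSpace Y]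
    [NormedAddCommGroup F] [NormedSpace ℝ F] [FiniteDimensional ℝ F]
    (ι : X → EuclideanSpace ℝ (Fin a)) (κ : Y → F) (f : X ≃ₜ Y) (C W : Set X) (O : Set (X × Y)),
    SEmbI (𝓡 n) ι → SEmbI (𝓡 n) κ → IsInducing ι → IsInducing κ → IsCompact C → IsOpen W → C ⊆ W →
    (∀ x, x ∉ C → IsLocalDiffeomorphAt (𝓡 n) (𝓡 n) ∞ f x) →
    (∀ r₀ : ℝ, 0 < r₀ → ∃ r : ℝ, 0 < r ∧ r < r₀ ∧ ∀ x ∈ W, NAt (𝓡 n) ι κ ε D r f x) →
    IsOpen O → (∀ x, (x, f x) ∈ O) →
    ∃ (G : X → Y) (C' : Set X), IsCompact C' ∧ Function.Bijective G ∧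
      (∀ x, IsLocalDiffeomorphAt (𝓡 n) (𝓡 n) ∞ G x) ∧ (∀ x, x ∉ C' → G x = f x) ∧
      ∀ x, (x, G x) ∈ O

/-- S_BALL: the theorem for smooth 4-balls. Proof from `S_REL`: restriction to the interiors as in
`Pool.Agent.R865.TB.coneMonotoneO`, `Pool.Agent.Results.MP_126a0d_gt.GeneratedClass` (invariance of the
interior: `Pool.Agent.Y833.SH.int_iff`; the interior of `N` is homeomorphic to the open ball by the
same lemma, so connected). -/
def S_BALL : Prop :=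
  ∀ (a : ℕ), ∃ ε : ℝ, 0 < ε ∧ ∀ (D : ℝ) (M N F : Type)
    [TopologicalSpace M] [ChartedSpace (EuclideanHalfSpace 4) M] [IsManifold (𝓡∂ 4) ∞ M]
    [TopologicalSpace N] [ChartedSpace (EuclideanHalfSpace 4) N] [IsManifold (𝓡∂ 4) ∞ N]
    [NormedAddCommGroup F] [NormedSpace ℝ F] [FiniteDimensional ℝ F]
    (ι : M → EuclideanSpace ℝ (Fin a)) (κ : N → F) (f : M ≃ₜ N) (W : Set M) (O : Set (M × N)),
    Nonempty (M ≃ₜ closedBall (0 : EuclideanSpace ℝ (Fin 4)) 1) →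
    SEmbI (𝓡∂ 4) ι → SEmbI (𝓡∂ 4) κ → IsOpen W →
    (∀ x, x ∉ (𝓡∂ 4).interior M → IsLocalDiffeomorphAt (𝓡∂ 4) (𝓡∂ 4) ∞ f x) →
    (∀ x, ¬ IsLocalDiffeomorphAt (𝓡∂ 4) (𝓡∂ 4) ∞ f x → x ∈ W) →
    (∀ r₀ : ℝ, 0 < r₀ → ∃ r : ℝ, 0 < r ∧ r < r₀ ∧ ∀ x ∈ W, NAt (𝓡∂ 4) ι κ ε D r f x) →
    IsOpen O → (∀ x, (x, f x) ∈ O) →
    ∃ Φ : Diffeomorph (𝓡∂ 4) (𝓡∂ 4) M N ∞, ∀ x, (x, Φ x) ∈ O

end Pool.Agent.L7h17.AH
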