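import Pool.Agent.L7h17.AH.Fin
import Pool.Agent.L7h17.AH.Stm2

/-!
# Project AH: injective immersions with closed image
-/

set_option autoImplicit false
set_option linter.unusedSectionVars false

open Set Filter Topology Metric
open scoped ContDiff Manifold

noncomputable section

namespace Pool.Agent.L7h17.AH

variable {n : ℕ} {X Y E F : Type} [TopologicalSpace X]
    [ChartedSpace (EuclideanSpace ℝ (Fin n)) X] [IsManifold (𝓡 n) ∞ X] [TopologicalSpace Y]
    [ChartedSpace (EuclideanSpace ℝ (Fin n)) Y] [IsManifold (𝓡 n) ∞ Y]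
    [NormedAddCommGroup E] [NormedSpace ℝ E] [NormedAddCommGroup F] [NormedSpace ℝ F]

/-- a lower bound near `x` gives an injective derivative -/
theorem imm_of_low {ι : X → E} {κ : Y → F} {g : X → Y} {x : X}
    (hι : MDifferentiableAt (𝓡 n) 𝓘(ℝ, E) ι x)
    (hιi : Function.Injective (mfderiv (𝓡 n) 𝓘(ℝ, E) ι x))
    (hκ : MDifferentiableAt (𝓡 n) 𝓘(ℝ, F) κ (g x)) (hg : MDifferentiableAt (𝓡 n) (𝓡 n) g x)
    {c : ℝ} (hc : 0 < c) (hev : ∀ᶠ y in 𝓝 x, c * ‖ι y - ι x‖ ≤ ‖κ (g y) - κ (g x)‖) :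
    Function.Injective (mfderiv (𝓡 n) (𝓡 n) g x) := by
  obtain ⟨D, hD⟩ : ∃ D : EuclideanSpace ℝ (Fin n) →L[ℝ] E, HasMFDerivAt (𝓡 n) 𝓘(ℝ, E) ι x D :=
    ⟨mfderiv (𝓡 n) 𝓘(ℝ, E) ι x, hι.hasMFDerivAt⟩
  obtain ⟨G, hG⟩ : ∃ G : EuclideanSpace ℝ (Fin n) →L[ℝ] EuclideanSpace ℝ (Fin n),
      HasMFDerivAt (𝓡 n) (𝓡 n) g x G :=
    ⟨mfderiv (𝓡 n) (𝓡 n) g x, hg.hasMFDerivAt⟩
  obtain ⟨D', hD'⟩ : ∃ D : EuclideanSpace ℝ (Fin n) →L[ℝ] F, HasMFDerivAt (𝓡 n) 𝓘(ℝ, F) κ (g x) D :=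
    ⟨mfderiv (𝓡 n) 𝓘(ℝ, F) κ (g x), hκ.hasMFDerivAt⟩
  have hcomp : HasMFDerivAt (𝓡 n) 𝓘(ℝ, F) (fun y => κ (g y)) x (D'.comp G) :=
    HasMFDerivAt.comp x hD' hG
  have hDi : Function.Injective D := by
    rw [hD.mfderiv] at hιi
    exact hιi
  have key : ∀ u v : EuclideanSpace ℝ (Fin n), G u = G v → u = v := by
    intro u v huv
    have h1 := low_mder hD hcomp hev (u - v)
    have h2 : ‖(D'.comp G) (u - v)‖ = 0 := by
      rw [ContinuousLinearMap.comp_apply, map_sub, huv, sub_self, map_zero, norm_zero]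
    have h1' : c * ‖D (u - v)‖ ≤ 0 := h1.trans_eq h2
    have h3 : D (u - v) = 0 := by
      by_contra h4
      have := norm_pos_iff.2 h4
      have : 0 < c * ‖D (u - v)‖ := by positivity
      linarith
    rw [map_sub, sub_eq_zero] at h3
    exact hDi h3
  rw [hG.mfderiv]
  exact fun u v huv => key u v huv

/-- an injective immersion with closed image onto a connected manifold of the same dimension is a
bijective local diffeomorphism -/
theorem fin2 [Nonempty X] [PreconnectedSpace Y] {g : X → Y}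
    (hg : ContMDiff (𝓡 n) (𝓡 n) ∞ g) (hgi : Function.Injective g)
    (himm : ∀ x, Function.Injective (mfderiv (𝓡 n) (𝓡 n) g x)) (hcl : IsClosed (range g)) :
    Function.Bijective g ∧ ∀ x, IsLocalDiffeomorphAt (𝓡 n) (𝓡 n) ∞ g x := by
  choose S v hS hxS hv himg hvs using fun x => Pool.Agent.Helper186.local_inverse hg (himm x) rfl
  have hopen : IsOpenMap g := by
    intro O hO
    have : g '' O = ⋃ x : X, g '' (O ∩ S x) := by
      rw [← image_iUnion, ← inter_iUnion]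
      congr 1
      ext y
      constructor
      · exact fun hy => ⟨hy, mem_iUnion.2 ⟨y, hxS y⟩⟩
      · exact fun hy => hy.1
    rw [this]
    exact isOpen_iUnion fun x => himg x _ inter_subset_right (hO.inter (hS x))
  have hrange : range g = univ := by
    have h1 : IsClopen (range g) := ⟨hcl, hopen.isOpen_range⟩
    rcases isClopen_iff.1 h1 with h | h
    · exact absurd h (range_nonempty g).ne_empty
    · exact h
  have hsurj : Function.Surjective g := range_eq_univ.1 hrange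
  let e : X ≃ Y := Equiv.ofBijective g ⟨hgi, hsurj⟩
  have he : ∀ x, e x = g x := fun x => rfl
  have hinv : ContMDiff (𝓡 n) (𝓡 n) ∞ e.symm := by
    intro y
    obtain ⟨x, rfl⟩ := hsurj y
    refine (hvs x x (hxS x)).congr_of_eventuallyEq ?_
    have h1 : g '' S x ∈ 𝓝 (g x) := (himg x _ subset_rfl (hS x)).mem_nhds ⟨x, hxS x, rfl⟩
    filter_upwards [h1] with z hz
    obtain ⟨ζ, hζ, rfl⟩ := hz
    rw [hv x ζ hζ, ← he ζ, e.symm_apply_apply]
  let Φ : Diffeomorph (𝓡 n) (𝓡 n) X Y ∞ := ⟨e, hg, hinv⟩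
  exact ⟨⟨hgi, hsurj⟩, fun x => Φ.isLocalDiffeomorph x⟩

end Pool.Agent.L7h17.AH
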