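import Pool.Agent.L7h17.AH.RelB
import Pool.Agent.L7h17.AH.RelC

/-!
# Project AH: the glued map
-/

set_option autoImplicit false
set_option linter.unusedSectionVars false

open Set Filter Topology Metric MeasureTheory
open scoped ContDiff Manifold

noncomputable section

namespace Pool.Agent.L7h17.AH

open Pool.Agent.L7h32.AA Pool.Agent.L7h32.PI

variable {n : ℕ} {X Y E F : Type} [TopologicalSpace X]
    [ChartedSpace (EuclideanSpace ℝ (Fin n)) X] [IsManifold (𝓡 n) ∞ X] [TopologicalSpace Y]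
    [ChartedSpace (EuclideanSpace ℝ (Fin n)) Y] [IsManifold (𝓡 n) ∞ Y]
    [NormedAddCommGroup E] [NormedSpace ℝ E] [FiniteDimensional ℝ E]
    [MeasurableSpace E] [BorelSpace E]
    [NormedAddCommGroup F] [NormedSpace ℝ F] [FiniteDimensional ℝ F]

/-- all the data for the glued map -/
structure Asm (n : ℕ) {X Y E F : Type} [TopologicalSpace X]
    [ChartedSpace (EuclideanSpace ℝ (Fin n)) X] [TopologicalSpace Y]
    [ChartedSpace (EuclideanSpace ℝ (Fin n)) Y]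
    [NormedAddCommGroup E] [NormedSpace ℝ E] [MeasurableSpace E]
    [NormedAddCommGroup F] [NormedSpace ℝ F] (μ : Measure E)
    (ι : X → E) (j : Y → F) (f : X ≃ₜ Y) (C C₂ : Set X) (U V : Set E) (U' : Set F) (ρ : E → X)
    (ρ' : F → Y) (φ : E → F) (ψ : F → E) (χ : E → ℝ) (t₁ c : ℝ) (η : E → ℝ)
    (Λ ε H κ w o r τ s₁ Lχ c₀ L₀ δ₁ CP : ℝ) : Prop where
  D : DatR μ (range ι) (ι '' C₂) U (fun z => ι (ρ z)) t₁ c η Λ (range j) (j '' (f '' C₂)) U'
    (fun z => j (ρ' z)) ε H κ w o r τ φ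
  cC₂ : IsCompact C₂
  hι : SEmbI (𝓡 n) ι
  hj : SEmbI (𝓡 n) j
  oU' : IsOpen U'
  rs : ContMDiffOn 𝓘(ℝ, F) (𝓡 n) ∞ ρ' U'
  rfix : ∀ y, j y ∈ U' → ρ' (j y) = y
  phi : ∀ x, φ (ι x) = j (f x)
  psi : ∀ y, ψ (j y) = ι (f.symm y)
  oV : IsOpen V
  sV : ι '' C₂ ⊆ V
  As : ContDiffOn ℝ ∞ (DatR.A μ η (fun z => ι (ρ z)) τ φ) V
  chs : ContDiff ℝ ∞ χ
  ch0 : ∀ z, 0 ≤ χ z
  ch1 : ∀ z, χ z ≤ 1
  s1 : 0 < s₁
  one : ∀ z ∈ cthickening s₁ (ι '' C), χ z = 1
  zero : ∀ z, z ∉ thickening (2 * s₁) (ι '' C) → χ z = 0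
  mar : ∀ x, ι x ∈ cthickening (3 * s₁) (ι '' C) → x ∈ interior C₂
  ts : τ ≤ s₁ / 2
  L0 : 0 ≤ Lχ
  L : ∀ z z', |χ z - χ z'| ≤ Lχ * ‖z - z'‖
  ld : ∀ x, x ∉ C → IsLocalDiffeomorphAt (𝓡 n) (𝓡 n) ∞ f x
  c0 : 0 < c₀
  tr : ∀ x ∈ C₂, ∀ y ∈ C₂, ι x ∉ thickening (s₁ / 2) (ι '' C) →
    ι y ∉ thickening (s₁ / 2) (ι '' C) → ‖ι x - ι y‖ ≤ τ →
    c₀ * ‖ι x - ι y‖ ≤ ‖φ (ι x) - φ (ι y)‖ ∧ ‖φ (ι x) - φ (ι y)‖ ≤ L₀ * ‖ι x - ι y‖ ∧
      ‖DatR.A μ η (fun z => ι (ρ z)) τ φ (ι y) - φ (ι y)‖ ≤ δ₁ ∧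
      ‖(DatR.A μ η (fun z => ι (ρ z)) τ φ (ι x) - φ (ι x)) -
        (DatR.A μ η (fun z => ι (ρ z)) τ φ (ι y) - φ (ι y))‖ ≤ δ₁ * ‖ι x - ι y‖
  d0 : 0 ≤ δ₁
  CP0 : 0 ≤ CP
  CPb : ∀ x ∈ C₂, ‖fderiv ℝ (fun z => j (ρ' z)) (φ (ι x))‖ ≤ CP
  hk : κ * (2 * L₀ + 1) ≤ c₀ / 4
  hd : δ₁ * ((1 + Lχ) * (CP + 1)) ≤ c₀ / 4

namespace Asm

variable {μ : Measure E} [μ.IsAddHaarMeasure]
    {ι : X → E} {j : Y → F} {f : X ≃ₜ Y} {C C₂ : Set X} {U V : Set E} {U' : Set F} {ρ : E → X}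
    {ρ' : F → Y} {φ : E → F} {ψ : F → E} {χ : E → ℝ} {t₁ c : ℝ} {η : E → ℝ}
    {Λ ε H κ w o r τ s₁ Lχ c₀ L₀ δ₁ CP : ℝ}

/-- the glued map -/
def b (μ : Measure E) (ι : X → E) (ρ : E → X) (φ : E → F) (χ : E → ℝ) (η : E → ℝ) (τ : ℝ) (x : X) :
    F := DatR.B μ η (fun z => ι (ρ z)) τ φ χ (ι x)

open Classical in
/-- the glued map -/
def g (μ : Measure E) (ι : X → E) (f : X ≃ₜ Y) (ρ : E → X) (ρ' : F → Y) (φ : E → F) (χ : E → ℝ)
    (η : E → ℝ) (τ : ℝ) (x : X) : Y :=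
  if χ (ι x) = 0 then f x else ρ' (b μ ι ρ φ χ η τ x)

variable (S : Asm n μ ι j f C C₂ U V U' ρ ρ' φ ψ χ t₁ c η Λ ε H κ w o r τ s₁ Lχ c₀ L₀ δ₁ CP)

include S

theorem mem1 {x : X} (hx : x ∈ C₂) : ι x ∈ ι '' C₂ := mem_image_of_mem _ hx

theorem bU {x : X} (hx : x ∈ C₂) : b μ ι ρ φ χ η τ x ∈ U' :=
  S.D.B_mem (mem_image_of_mem _ hx) (S.ch0 _) (S.ch1 _)

theorem int_of {x : X} (hx : χ (ι x) ≠ 0) : x ∈ interior C₂ := by
  by_contra h
  apply hx
  apply S.zero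
  intro h1
  refine h (S.mar x ?_)
  exact (thickening_subset_cthickening _ _).trans
    (cthickening_mono (by linarith [S.s1]) _) h1

theorem C₂_of {x : X} (hx : χ (ι x) ≠ 0) : x ∈ C₂ := interior_subset (S.int_of hx)

/-- points close to points with `χ ≠ 0` -/
theorem C₂_near {x y : X} (hx : χ (ι x) ≠ 0) (hxy : ‖ι x - ι y‖ ≤ τ) : y ∈ interior C₂ := by
  have h1 : ι x ∈ thickening (2 * s₁) (ι '' C) := by
    by_contra h
    exact hx (S.zero _ h)
  rw [mem_thickening_iff] at h1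
  obtain ⟨z, hz, h2⟩ := h1
  apply S.mar
  apply thickening_subset_cthickening
  rw [mem_thickening_iff]
  refine ⟨z, hz, ?_⟩
  have h3 := dist_triangle (ι y) (ι x) z
  have h4 : dist (ι y) (ι x) ≤ τ := by
    rw [dist_eq_norm, norm_sub_rev]
    exact hxy
  have := S.ts
  have := S.s1
  linarith

theorem g_eq {x : X} (hx : x ∈ C₂) : g μ ι f ρ ρ' φ χ η τ x = ρ' (b μ ι ρ φ χ η τ x) := by
  unfold g
  split_ifs with h
  · have h1 : b μ ι ρ φ χ η τ x = j (f x) := by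
      unfold b DatR.B
      rw [h, zero_smul, add_zero, S.phi]
    have h2 := S.bU hx
    rw [h1] at h2 ⊢
    exact (S.rfix _ h2).symm
  · rfl

theorem g_eq0 {x : X} (hx : χ (ι x) = 0) : g μ ι f ρ ρ' φ χ η τ x = f x := by
  unfold g
  rw [if_pos hx]

/-- near pairs -/
theorem near {x : X} (hx : x ∈ C₂) : ∃ c' : ℝ, 0 < c' ∧ ∀ y ∈ C₂, ‖ι x - ι y‖ ≤ τ →
    c' * ‖ι x - ι y‖ ≤ ‖j (g μ ι f ρ ρ' φ χ η τ x) - j (g μ ι f ρ ρ' φ χ η τ y)‖ := by
  obtain ⟨l, T, hl, hT, hTl, hb⟩ := S.D.aff _ (mem_image_of_mem ι hx)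
  have hc0 := S.c0
  refine ⟨min (l / 4) (c₀ / 2), lt_min (by positivity) (by positivity), fun y hy hxy => ?_⟩
  rw [S.g_eq hx, S.g_eq hy]
  have hnn := norm_nonneg (ι x - ι y)
  by_cases h1 : χ (ι x) = 1 ∧ χ (ι y) = 1
  · have e1 : ∀ z : X, χ (ι z) = 1 → b μ ι ρ φ χ η τ z = DatR.A μ η (fun z => ι (ρ z)) τ φ (ι z) := by
      intro z hz
      unfold b DatR.B
      rw [hz, one_smul, add_sub_cancel]
    rw [e1 x h1.1, e1 y h1.2]
    have h2 := S.D.imm (mem_image_of_mem ι hx) (mem_image_of_mem ι hy) hxy hl hT hTl hb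
    refine le_trans ?_ h2
    gcongr
    exact min_le_left _ _
  · -- both points are in the transition region
    have key : ∀ u v : X, ‖ι u - ι v‖ ≤ τ → χ (ι u) ≠ 1 → ι u ∉ thickening (s₁ / 2) (ι '' C) ∧
        ι v ∉ thickening (s₁ / 2) (ι '' C) := by
      intro u v huv hu
      have h3 : ∀ z ∈ ι '' C, s₁ < dist (ι u) z := by
        intro z hz
        by_contra h4
        exact hu (S.one _ (mem_cthickening_of_dist_le _ z _ _ hz (not_lt.1 h4)))
      have hs := S.s1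
      have hts := S.ts
      constructor
      · intro h5
        rw [mem_thickening_iff] at h5
        obtain ⟨z, hz, h6⟩ := h5
        have := h3 z hz
        linarith
      · intro h5
        rw [mem_thickening_iff] at h5
        obtain ⟨z, hz, h6⟩ := h5
        have h7 := h3 z hz
        have h8 := dist_triangle (ι u) (ι v) z
        rw [dist_eq_norm (ι u) (ι v)] at h8
        linarith
    have h3 : ι x ∉ thickening (s₁ / 2) (ι '' C) ∧ ι y ∉ thickening (s₁ / 2) (ι '' C) := by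
      rw [not_and_or] at h1
      rcases h1 with h1 | h1
      · exact key x y hxy h1
      · exact (key y x (by rwa [norm_sub_rev]) h1).symm
    obtain ⟨a1, a2, a3, a4⟩ := S.tr x hx y hy h3.1 h3.2 hxy
    have h4 := S.D.trans (χ := χ) (mem_image_of_mem ι hx) (mem_image_of_mem ι hy) hxy S.ch0 S.ch1
      (S.L _ _) a1 a2 a3 a4 (S.CPb x hx) S.CP0 S.L0 S.d0 S.hk S.hd
    refine le_trans ?_ h4
    gcongr
    exact min_le_right _ _

/-- closeness -/
theorem close {x : X} (hx : x ∈ C₂) : ‖j (g μ ι f ρ ρ' φ χ η τ x) - φ (ι x)‖ ≤ 3 * o := by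
  rw [S.g_eq hx]
  exact S.D.close (mem_image_of_mem ι hx) (S.ch0 _) (S.ch1 _)

theorem psi1 : ∀ x ∈ range ι, ψ (φ x) = x := by
  rintro _ ⟨x, rfl⟩
  rw [S.phi, S.psi, f.symm_apply_apply]

theorem psi2 : ∀ y ∈ range j, φ (ψ y) = y := by
  rintro _ ⟨y, rfl⟩
  rw [S.psi, S.phi, f.apply_symm_apply]

theorem psic : ContinuousOn (fun z => ψ (j (ρ' z))) U' := by
  have h1 : (fun z => ψ (j (ρ' z))) = fun z => ι (f.symm (ρ' z)) := by
    funext z
    exact S.psi _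
  rw [h1]
  exact (S.hι.smooth.continuous.comp f.symm.continuous).comp_continuousOn S.rs.continuousOn

theorem psim : MapsTo ψ (range j) (range ι) := by
  rintro _ ⟨y, rfl⟩
  rw [S.psi]
  exact mem_range_self _

theorem inj : Function.Injective (g μ ι f ρ ρ' φ χ η τ) := by
  -- the case `χ (ι x) ≠ 0`
  have main : ∀ x y : X, χ (ι x) ≠ 0 → g μ ι f ρ ρ' φ χ η τ x = g μ ι f ρ ρ' φ χ η τ y → x = y := by
    intro x y hx hxy
    have hxC := S.C₂_of hx
    rcases le_total τ ‖ι y - ι x‖ with hfar | hnear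
    · exfalso
      obtain ⟨l, T, hl, hT, hTl, hb⟩ := S.D.aff _ (mem_image_of_mem ι hxC)
      have hr0 := S.D.r0
      have hε0 := S.D.eps0
      have ho0 := S.D.o0 (mem_image_of_mem ι hxC)
      have gx : ‖j (g μ ι f ρ ρ' φ χ η τ x) - φ (ι x)‖ ≤ 5 * (ε * l * r) := by
        rw [S.g_eq hxC]
        exact S.D.g_close (mem_image_of_mem ι hxC) hl hT hb (S.ch0 _) (S.ch1 _)
      by_cases hy : y ∈ C₂
      · obtain ⟨l', T', hl', hT', hTl', hb'⟩ := S.D.aff _ (mem_image_of_mem ι hy)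
        have gy : ‖j (g μ ι f ρ ρ' φ χ η τ y) - φ (ι y)‖ ≤ 5 * (ε * l' * r) := by
          rw [S.g_eq hy]
          exact S.D.g_close (mem_image_of_mem ι hy) hl' hT' hb' (S.ch0 _) (S.ch1 _)
        have cx := S.close hxC
        have cy := S.close hy
        rcases le_total l' l with hll | hll
        · refine S.D.far S.psic S.psim S.psi1 S.psi2 (mem_image_of_mem ι hxC) (mem_range_self y)
            hfar hl hT hTl hb gx ?_ cx (by rw [hxy]; exact cy)
          rw [hxy]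
          refine gy.trans ?_
          gcongr
        · refine S.D.far S.psic S.psim S.psi1 S.psi2 (mem_image_of_mem ι hy) (mem_range_self x)
            (by rwa [norm_sub_rev]) hl' hT' hTl' hb' gy ?_ cy (by rw [← hxy]; exact cx)
          rw [← hxy]
          refine gx.trans ?_
          gcongr
      · have hy0 : χ (ι y) = 0 := by
          by_contra h
          exact hy (S.C₂_of h)
        have e0 : j (g μ ι f ρ ρ' φ χ η τ y) - φ (ι y) = 0 := by
          rw [S.g_eq0 hy0, S.phi, sub_self]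
        refine S.D.far S.psic S.psim S.psi1 S.psi2 (mem_image_of_mem ι hxC) (mem_range_self y)
            hfar hl hT hTl hb gx ?_ (S.close hxC) ?_
        · rw [hxy, e0, norm_zero]
          positivity
        · rw [hxy, e0, norm_zero]
          positivity
    · have hnear' : ‖ι x - ι y‖ ≤ τ := by rwa [norm_sub_rev]
      have hyC := interior_subset (S.C₂_near hx hnear')
      obtain ⟨c', hc', h1⟩ := S.near hxC
      have h2 := h1 y hyC hnear'
      rw [hxy, sub_self, norm_zero] at h2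
      have h3 : ‖ι x - ι y‖ ≤ 0 := by
        by_contra h4
        have := not_le.1 h4
        have : 0 < c' * ‖ι x - ι y‖ := by positivity
        linarith
      exact S.hι.inj (sub_eq_zero.1 (norm_le_zero_iff.1 h3))
  intro x y hxy
  by_cases hx : χ (ι x) = 0
  · by_cases hy : χ (ι y) = 0
    · rw [S.g_eq0 hx, S.g_eq0 hy] at hxy
      exact f.injective hxy
    · exact (main y x hy hxy.symm).symm
  · exact main x y hx hxy

/-- off the interior of `C₂`: `g = f` near `x` -/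
theorem off {x : X} (hx : x ∉ interior C₂) : ∀ᶠ y in 𝓝 x, g μ ι f ρ ρ' φ χ η τ y = f y := by
  have h1 : ι x ∉ cthickening (2 * s₁) (ι '' C) := fun h =>
    hx (S.mar x (cthickening_mono (by linarith [S.s1]) _ h))
  have h2 : ∀ᶠ y in 𝓝 x, ι y ∉ cthickening (2 * s₁) (ι '' C) :=
    S.hι.smooth.continuous.continuousAt.eventually
      ((isClosed_cthickening (δ := 2 * s₁) (E := ι '' C)).isOpen_compl.mem_nhds h1)
  filter_upwards [h2] with y hy
  exact S.g_eq0 (S.zero _ fun h => hy (thickening_subset_cthickening _ _ h))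

theorem sub_int : C ⊆ interior C₂ := fun x hx => S.mar x
  (self_subset_cthickening _ (mem_image_of_mem _ hx))

theorem smooth : ContMDiff (𝓡 n) (𝓡 n) ∞ (g μ ι f ρ ρ' φ χ η τ) := by
  intro x
  by_cases hx : x ∈ interior C₂
  · have hev : ∀ᶠ y in 𝓝 x, g μ ι f ρ ρ' φ χ η τ y = ρ' (b μ ι ρ φ χ η τ y) := by
      filter_upwards [isOpen_interior.mem_nhds hx] with y hy
      exact S.g_eq (interior_subset hy)
    refine ContMDiffAt.congr_of_eventuallyEq ?_ hev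
    have hxC := interior_subset hx
    have hA : ContMDiffAt (𝓡 n) 𝓘(ℝ, F) ∞
        (fun y => DatR.A μ η (fun z => ι (ρ z)) τ φ (ι y)) x := by
      have h1 : ContMDiffAt 𝓘(ℝ, E) 𝓘(ℝ, F) ∞ (DatR.A μ η (fun z => ι (ρ z)) τ φ) (ι x) :=
        (S.As.contDiffAt (S.oV.mem_nhds (S.sV (mem_image_of_mem _ hxC)))).contMDiffAt
      exact h1.comp x (S.hι.smooth x)
    have hb : ContMDiffAt (𝓡 n) 𝓘(ℝ, F) ∞ (b μ ι ρ φ χ η τ) x := by
      by_cases hC : x ∈ C
      · have h1 : ∀ᶠ y in 𝓝 x, ι y ∈ thickening s₁ (ι '' C) := by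
          refine S.hι.smooth.continuous.continuousAt.eventually (isOpen_thickening.mem_nhds ?_)
          exact self_subset_thickening S.s1 _ (mem_image_of_mem _ hC)
        refine hA.congr_of_eventuallyEq ?_
        filter_upwards [h1] with y hy
        have h2 := S.one _ (thickening_subset_cthickening _ _ hy)
        unfold b DatR.B
        rw [h2, one_smul, add_sub_cancel]
      · have hf : ContMDiffAt (𝓡 n) 𝓘(ℝ, F) ∞ (fun y => j (f y)) x :=
          (S.hj.smooth _).comp x (S.ld x hC).contMDiffAt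
        have hχ : ContMDiffAt (𝓡 n) 𝓘(ℝ, ℝ) ∞ (fun y => χ (ι y)) x :=
          S.chs.contMDiff.contMDiffAt.comp x (S.hι.smooth x)
        have e : b μ ι ρ φ χ η τ = fun y => j (f y) +
            χ (ι y) • (DatR.A μ η (fun z => ι (ρ z)) τ φ (ι y) - j (f y)) := by
          funext y
          unfold b DatR.B
          rw [S.phi]
        rw [e]
        exact hf.add (hχ.smul (hA.sub hf))
    have h2 : ContMDiffAt 𝓘(ℝ, F) (𝓡 n) ∞ ρ' (b μ ι ρ φ χ η τ x) :=
      S.rs.contMDiffAt (S.oU'.mem_nhds (S.bU hxC))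
    exact h2.comp x hb
  · have hC : x ∉ C := fun h => hx (S.sub_int h)
    exact (S.ld x hC).contMDiffAt.congr_of_eventuallyEq (S.off hx)

theorem imm (x : X) : Function.Injective (mfderiv (𝓡 n) (𝓡 n) (g μ ι f ρ ρ' φ χ η τ) x) := by
  by_cases hx : x ∈ interior C₂
  · obtain ⟨c', hc', h1⟩ := S.near (interior_subset hx)
    refine imm_of_low (ι := ι) (κ := j) (S.hι.smooth.mdifferentiableAt (by simp)) (S.hι.imm x)
      (S.hj.smooth.mdifferentiableAt (by simp)) (S.smooth.mdifferentiableAt (by simp)) hc' ?_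
    have h2 : ∀ᶠ y in 𝓝 x, ‖ι y - ι x‖ < τ := by
      have := S.hι.smooth.continuous.continuousAt (x := x) |>.eventually
        (ball_mem_nhds _ S.D.tau0)
      filter_upwards [this] with y hy
      rwa [dist_eq_norm] at hy
    filter_upwards [h2, isOpen_interior.mem_nhds hx] with y hy hyC
    have := h1 y (interior_subset hyC) (by rw [norm_sub_rev]; exact hy.le)
    rwa [norm_sub_rev (ι x), norm_sub_rev (j _)] at this
  · have hC : x ∉ C := fun h => hx (S.sub_int h)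
    have h1 : mfderiv (𝓡 n) (𝓡 n) (g μ ι f ρ ρ' φ χ η τ) x = mfderiv (𝓡 n) (𝓡 n) f x :=
      Filter.EventuallyEq.mfderiv_eq (S.off hx)
    rw [h1]
    exact ((S.ld x hC).mfderivToContinuousLinearEquiv (by simp)).injective

end Asm

end Pool.Agent.L7h17.AH
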