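import Pool.Agent.L7h17.AH.RelD
import Pool.Agent.L7h17.AH.Tub
import Pool.Agent.L7h17.AH.Gen
import Pool.Agent.L7h34.AA.Mol
import Pool.Agent.L7h73.AA.Cts

/-!
# Project AH: the choice of the parameters
-/

set_option autoImplicit false
set_option linter.unusedSectionVars false

open Set Filter Topology Metric MeasureTheory
open scoped ContDiff Manifold

noncomputable section

namespace Pool.Agent.L7h17.AH

open Pool.Agent.L7h32.AA Pool.Agent.L7h32.PI

/-- cutoff functions -/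
theorem exists_cut {E : Type} [NormedAddCommGroup E] [NormedSpace ℝ E] [FiniteDimensional ℝ E]
    {K₀ : Set E} (hK : IsCompact K₀) {s : ℝ} (hs : 0 < s) :
    ∃ (χ : E → ℝ) (L : ℝ), ContDiff ℝ ∞ χ ∧ (∀ z, 0 ≤ χ z) ∧ (∀ z, χ z ≤ 1) ∧
      (∀ z ∈ cthickening s K₀, χ z = 1) ∧ (∀ z, z ∉ thickening (2 * s) K₀ → χ z = 0) ∧ 0 ≤ L ∧
      ∀ z z', |χ z - χ z'| ≤ L * ‖z - z'‖ := by
  obtain ⟨f, h0, h1, h2⟩ := exists_contMDiffMap_zero_one_of_isClosed (n := (⊤ : ℕ∞)) 𝓘(ℝ, E)
    (s := (thickening (2 * s) K₀)ᶜ) (t := cthickening s K₀) isOpen_thickening.isClosed_compl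
    isClosed_cthickening (by
      rw [Set.disjoint_left]
      intro z hz hz2
      exact hz (cthickening_subset_thickening' (by linarith) (by linarith) _ hz2))
  have hf : ContDiff ℝ ∞ f := f.contMDiff.contDiff
  have hcs : HasCompactSupport f := by
    refine HasCompactSupport.intro (K := cthickening (2 * s) K₀) hK.cthickening fun z hz => ?_
    exact h0 fun h => hz (thickening_subset_cthickening _ _ h)
  obtain ⟨L, hL⟩ := (hf.of_le (by simp : (1 : WithTop ℕ∞) ≤ ∞)).lipschitzWith_of_hasCompactSupport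
      hcs (by simp)
  refine ⟨f, L, hf, fun z => (h2 z).1, fun z => (h2 z).2, fun z hz => h1 hz, fun z hz => h0 hz,
    L.2, fun z z' => ?_⟩
  have := hL.dist_le_mul z z'
  rwa [Real.dist_eq, dist_eq_norm] at this

/-- neighbourhoods of the graph over a compact set -/
theorem graph_nhds {X Y F : Type} [TopologicalSpace X] [TopologicalSpace Y] [NormedAddCommGroup F]
    {j : Y → F} (hj : IsInducing j) {f : X → Y} (hf : Continuous f) {K : Set X} (hK : IsCompact K)
    {O : Set (X × Y)} (hO : IsOpen O) (h : ∀ x, (x, f x) ∈ O) :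
    ∃ δ : ℝ, 0 < δ ∧ ∀ x ∈ K, ∀ y : Y, ‖j y - j (f x)‖ ≤ δ → (x, y) ∈ O := by
  refine hK.induction_on (p := fun K => ∃ δ : ℝ, 0 < δ ∧ ∀ x ∈ K, ∀ y : Y,
    ‖j y - j (f x)‖ ≤ δ → (x, y) ∈ O) ?_ ?_ ?_ ?_
  · exact ⟨1, one_pos, fun x hx => absurd hx (notMem_empty x)⟩
  · rintro s t hst ⟨δ, hδ, h1⟩
    exact ⟨δ, hδ, fun x hx => h1 x (hst hx)⟩
  · rintro s t ⟨δ, hδ, h1⟩ ⟨δ', hδ', h2⟩
    refine ⟨min δ δ', lt_min hδ hδ', fun x hx y hy => ?_⟩
    rcases hx with hx | hx
    · exact h1 x hx y (hy.trans (min_le_left _ _))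
    · exact h2 x hx y (hy.trans (min_le_right _ _))
  · intro x hx
    obtain ⟨u, v, hu, hv, hxu, hxv, huv⟩ := isOpen_prod_iff.1 hO x (f x) (h x)
    obtain ⟨Q, hQ, hQv⟩ := hj.isOpen_iff.1 hv
    have hxQ : j (f x) ∈ Q := by
      have : f x ∈ j ⁻¹' Q := by rw [hQv]; exact hxv
      exact this
    obtain ⟨s, hs, hsb⟩ := Metric.isOpen_iff.1 hQ _ hxQ
    have hc : ∀ᶠ z in 𝓝 x, ‖j (f z) - j (f x)‖ < s / 2 := by
      have := (hj.continuous.comp hf).continuousAt (x := x) |>.eventually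
        (ball_mem_nhds _ (half_pos hs))
      filter_upwards [this] with z hz
      rwa [dist_eq_norm] at hz
    refine ⟨{z | z ∈ u ∧ ‖j (f z) - j (f x)‖ < s / 2}, mem_nhdsWithin_of_mem_nhds
      (Filter.inter_mem (hu.mem_nhds hxu) hc), s / 4, by positivity, fun z hz y hy => ?_⟩
    refine huv ⟨hz.1, ?_⟩
    have h1 : j y ∈ Q := by
      apply hsb
      rw [mem_ball, dist_eq_norm]
      have e : j y - j (f x) = (j y - j (f z)) + (j (f z) - j (f x)) := by abel
      rw [e]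
      have := norm_add_le (j y - j (f z)) (j (f z) - j (f x))
      have := hz.2
      linarith
    have : y ∈ j ⁻¹' Q := h1
    rwa [hQv] at this

end Pool.Agent.L7h17.AH
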