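import Pool.Agent.L7h17.AH.RelE

/-!
# Project AH: the relative theorem `S_REL`
-/

set_option autoImplicit false
set_option linter.unusedSectionVars false

open Set Filter Topology Metric MeasureTheory
open scoped ContDiff Manifold

noncomputable section

namespace Pool.Agent.L7h17.AH

open Pool.Agent.L7h32.AA Pool.Agent.L7h32.PI

/-- the inverse of a homeomorphism which is a local diffeomorphism at `x` is smooth at `f x` -/
theorem symm_smooth {n : ℕ} {X Y : Type} [TopologicalSpace X]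
    [ChartedSpace (EuclideanSpace ℝ (Fin n)) X] [TopologicalSpace Y]
    [ChartedSpace (EuclideanSpace ℝ (Fin n)) Y] (f : X ≃ₜ Y) {y : Y}
    (h : IsLocalDiffeomorphAt (𝓡 n) (𝓡 n) ∞ f (f.symm y)) :
    ContMDiffAt (𝓡 n) (𝓡 n) ∞ f.symm y := by
  have h1 := h.localInverse_isLocalDiffeomorphAt
  rw [f.apply_symm_apply] at h1
  refine h1.contMDiffAt.congr_of_eventuallyEq ?_
  have h2 : y ∈ h.localInverse.source := by
    have := h.localInverse_mem_source
    rwa [f.apply_symm_apply] at this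
  filter_upwards [h.localInverse.open_source.mem_nhds h2] with z hz
  have h3 := h.localInverse_right_inv hz
  rw [Homeomorph.symm_apply_eq]
  exact h3.symm

/-- the relative theorem, with a modification inside `W` -/
theorem rel (n a : ℕ) : ∃ ε : ℝ, 0 < ε ∧ ∀ (D : ℝ) (X Y F : Type)
    [TopologicalSpace X] [ChartedSpace (EuclideanSpace ℝ (Fin n)) X] [IsManifold (𝓡 n) ∞ X]
    [T2Space X] [TopologicalSpace Y] [ChartedSpace (EuclideanSpace ℝ (Fin n)) Y]
    [IsManifold (𝓡 n) ∞ Y] [T2Space Y] [PreconnectedSpace Y]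
    [NormedAddCommGroup F] [NormedSpace ℝ F] [FiniteDimensional ℝ F]
    (ι : X → EuclideanSpace ℝ (Fin a)) (κ : Y → F) (f : X ≃ₜ Y) (C W : Set X) (O : Set (X × Y)),
    SEmbI (𝓡 n) ι → SEmbI (𝓡 n) κ → IsInducing ι → IsInducing κ → IsCompact C → IsOpen W → C ⊆ W →
    (∀ x, x ∉ C → IsLocalDiffeomorphAt (𝓡 n) (𝓡 n) ∞ f x) →
    (∀ r₀ : ℝ, 0 < r₀ → ∃ r : ℝ, 0 < r ∧ r < r₀ ∧ ∀ x ∈ W, NAt (𝓡 n) ι κ ε D r f x) →
    IsOpen O → (∀ x, (x, f x) ∈ O) →
    ∃ (G : X → Y) (C' : Set X), IsCompact C' ∧ C' ⊆ W ∧ Function.Bijective G ∧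
      (∀ x, IsLocalDiffeomorphAt (𝓡 n) (𝓡 n) ∞ G x) ∧ (∀ x, x ∉ C' → G x = f x) ∧
      ∀ x, (x, G x) ∈ O := by
  obtain ⟨η, hη, heven⟩ := exists_even (volume : Measure (EuclideanSpace ℝ (Fin a)))
  obtain ⟨Λ, hΛ2, hΛ⟩ := exists_lam hη
  set ε : ℝ := 1 / (48 * Λ) with hεd
  have hε : 0 < ε := by positivity
  refine ⟨ε, hε, ?_⟩
  intro D X Y F _ _ _ _ _ _ _ _ _ _ _ _ ι j f C W O hι hj hιi hji hC hW hCW hld hna hO hfO
  -- empty case
  rcases isEmpty_or_nonempty X with hX | hX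
  · exact ⟨f, ∅, isCompact_empty, empty_subset _, f.bijective, fun x => (IsEmpty.false x).elim,
      fun x _ => rfl, fun x => hfO x⟩
  have : LocallyCompactSpace X := ChartedSpace.locallyCompactSpace (EuclideanSpace ℝ (Fin n)) X
  obtain ⟨C₂, hC₂, hCC₂, hC₂W⟩ := exists_compact_between hC hW hCW
  have hY : Nonempty Y := hX.map f
  have hSι : SEmb (n := n) ι := ⟨hι.smooth, hι.inj, hι.imm⟩
  have hSj : SEmb (n := n) j := ⟨hj.smooth, hj.inj, hj.imm⟩
  obtain ⟨U₀, ρ₀, hU₀, hAU₀, hρ₀, hf₀⟩ := good_compact hSι hιi hC₂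
  obtain ⟨U', ρ', hU', hAU', hρ', hf'⟩ := good_compact hSj hji (hC₂.image f.continuous)
  have hR₀ : RR (range ι) U₀ (fun z => ι (ρ₀ z)) :=
    ⟨hU₀, contMDiffOn_iff_contDiffOn.1 (hι.smooth.comp_contMDiffOn hρ₀),
      fun x _ => mem_range_self _, by
        rintro _ ⟨x, rfl⟩ hx
        rw [hf₀ x hx]⟩
  obtain ⟨U, q, hU, hKU, hUU₀, hq, hqU, hqfix, hq1⟩ := ortR hR₀
  set ρ : EuclideanSpace ℝ (Fin a) → X := fun z => ρ₀ (q z) with hρd
  have hρ : ContMDiffOn 𝓘(ℝ, EuclideanSpace ℝ (Fin a)) (𝓡 n) ∞ ρ U :=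
    hρ₀.comp (contMDiffOn_iff_contDiffOn.2 hq) hqU
  have hρf : ∀ x, ι x ∈ U → ρ (ι x) = x := fun x hx => by
    simp only [hρd]
    rw [hqfix _ (mem_range_self x) (hUU₀ hx), hf₀ x (hUU₀ hx)]
  have hR : RR (range ι) U (fun z => ι (ρ z)) :=
    ⟨hU, contMDiffOn_iff_contDiffOn.1 (hι.smooth.comp_contMDiffOn hρ),
      fun x _ => mem_range_self _, by
        rintro _ ⟨x, rfl⟩ hx
        rw [hρf x hx]⟩
  have hR' : RR (range j) U' (fun z => j (ρ' z)) :=
    ⟨hU', contMDiffOn_iff_contDiffOn.1 (hj.smooth.comp_contMDiffOn hρ'),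
      fun x _ => mem_range_self _, by
        rintro _ ⟨x, rfl⟩ hx
        rw [hf' x hx]⟩
  have hK₁ : IsCompact (ι '' C₂) := hC₂.image hι.smooth.continuous
  have hK₁U : ι '' C₂ ⊆ U := by
    intro z hz
    refine hKU ⟨?_, hAU₀ hz⟩
    obtain ⟨x, -, rfl⟩ := hz
    exact mem_range_self x
  have hK₁' : IsCompact (j '' (f '' C₂)) := (hC₂.image f.continuous).image hj.smooth.continuous
  obtain ⟨φ, hφ⟩ : ∃ φ : EuclideanSpace ℝ (Fin a) → F, ∀ x, φ (ι x) = j (f x) :=
    ⟨fun z => j (f (Function.invFun ι z)), fun x => by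
      simp only [Function.leftInverse_invFun hι.inj x]⟩
  obtain ⟨ψ, hψ⟩ : ∃ ψ : F → EuclideanSpace ℝ (Fin a), ∀ y, ψ (j y) = ι (f.symm y) :=
    ⟨fun z => ι (f.symm (Function.invFun j z)), fun x => by
      simp only [Function.leftInverse_invFun hj.inj x]⟩
  have hφN : (fun z => φ (ι (ρ z))) = fun z => j (f (ρ z)) := funext fun z => hφ _
  have hψN : (fun z => ψ (j (ρ' z))) = fun z => ι (f.symm (ρ' z)) := funext fun z => hψ _
  have hcont : ContinuousOn (fun z => φ (ι (ρ z))) U := by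
    rw [hφN]
    exact (hj.smooth.continuous.comp f.continuous).comp_continuousOn hρ.continuousOn
  -- the cutoff function
  obtain ⟨Q, hQ, hQC⟩ := hιi.isOpen_iff.1 (isOpen_interior (s := C₂))
  have hK₀ : IsCompact (ι '' C) := hC.image hι.smooth.continuous
  have hK₀Q : ι '' C ⊆ Q := by
    rintro _ ⟨x, hx, rfl⟩
    have : x ∈ ι ⁻¹' Q := by rw [hQC]; exact hCC₂ hx
    exact this
  obtain ⟨s3, hs3, hs3Q⟩ := hK₀.exists_cthickening_subset_open hQ hK₀Q
  obtain ⟨s₁, hs₁d⟩ : ∃ s₁ : ℝ, s₁ = s3 / 3 := ⟨_, rfl⟩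
  have hs₁ : 0 < s₁ := by rw [hs₁d]; positivity
  have hmar : ∀ x, ι x ∈ cthickening (3 * s₁) (ι '' C) → x ∈ interior C₂ := by
    intro x hx
    have h1 : ι x ∈ Q := hs3Q (by
      have : 3 * s₁ = s3 := by rw [hs₁d]; ring
      rwa [this] at hx)
    have h2 : x ∈ ι ⁻¹' Q := h1
    rwa [hQC] at h2
  obtain ⟨χ, Lχ, hχs, hχ0, hχ1, hχone, hχzero, hLχ0, hLχ⟩ := exists_cut hK₀ hs₁
  -- the transition region
  set RX : Set X := C₂ \ ι ⁻¹' thickening (s₁ / 2) (ι '' C) with hRX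
  have hRXc : IsCompact RX := hC₂.diff (isOpen_thickening.preimage hι.smooth.continuous)
  have hRXC : ∀ x ∈ RX, x ∉ C := fun x hx hxC =>
    hx.2 (self_subset_thickening (by positivity) _ (mem_image_of_mem _ hxC))
  have hREc : IsCompact (ι '' RX) := hRXc.image hι.smooth.continuous
  set UR : Set (EuclideanSpace ℝ (Fin a)) := U ∩ ρ ⁻¹' Cᶜ with hUR
  have hURo : IsOpen UR := hρ.continuousOn.isOpen_inter_preimage hU hC.isClosed.isOpen_compl
  have hREU : ι '' RX ⊆ UR := by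
    rintro _ ⟨x, hx, rfl⟩
    have h1 : ι x ∈ U := hK₁U (mem_image_of_mem _ hx.1)
    refine ⟨h1, ?_⟩
    rw [mem_preimage, hρf x h1]
    exact hRXC x hx
  have hΦs : ContDiffOn ℝ ∞ (fun z => φ (ι (ρ z))) UR := by
    rw [hφN, ← contMDiffOn_iff_contDiffOn]
    intro z hz
    have h1 : ContMDiffAt 𝓘(ℝ, EuclideanSpace ℝ (Fin a)) (𝓡 n) ∞ ρ z :=
      hρ.contMDiffAt (hU.mem_nhds hz.1)
    exact (((hj.smooth (f (ρ z))).comp (ρ z) (hld _ hz.2).contMDiffAt).comp z
      h1).contMDiffWithinAt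
  set UR' : Set F := U' ∩ ρ' ⁻¹' (f '' C)ᶜ with hUR'
  have hUR'o : IsOpen UR' := hρ'.continuousOn.isOpen_inter_preimage hU'
    (hC.image f.continuous).isClosed.isOpen_compl
  have hRE'c : IsCompact (j '' (f '' RX)) := (hRXc.image f.continuous).image hj.smooth.continuous
  have hREU' : j '' (f '' RX) ⊆ UR' := by
    rintro _ ⟨_, ⟨x, hx, rfl⟩, rfl⟩
    have h1 : j (f x) ∈ U' := hAU' (mem_image_of_mem _ (mem_image_of_mem _ hx.1))
    refine ⟨h1, ?_⟩
    rw [mem_preimage, hf' _ h1]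
    rintro ⟨y, hy, hyx⟩
    rw [f.injective hyx] at hy
    exact hRXC x hx hy
  have hΨs : ContDiffOn ℝ ∞ (fun z => ψ (j (ρ' z))) UR' := by
    rw [hψN, ← contMDiffOn_iff_contDiffOn]
    intro z hz
    have h1 : ContMDiffAt 𝓘(ℝ, F) (𝓡 n) ∞ ρ' z := hρ'.contMDiffAt (hU'.mem_nhds hz.1)
    have h2 : f.symm (ρ' z) ∉ C := fun h => hz.2 ⟨_, h, f.apply_symm_apply _⟩
    exact (((hι.smooth (f.symm (ρ' z))).comp (ρ' z) (symm_smooth f (hld _ h2))).comp z
      h1).contMDiffWithinAt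
  obtain ⟨L₀, w₀, hL₀, hw₀, hlip⟩ := lipC hREc hURo hREU hΦs
  obtain ⟨L₁, w₁, hL₁, hw₁, hlip'⟩ := lipC hRE'c hUR'o hREU' hΨs
  obtain ⟨CP, hCP0, hCP⟩ := bdC hK₁' hU' hAU' hR'.smooth
  obtain ⟨wa, hwa, hna1⟩ := nuC hK₁ hU hK₁U hR.smooth one_pos
  -- constants
  set H : ℝ := max D 1 with hH
  have hH1 : 1 ≤ H := le_max_right _ _
  set c₀ : ℝ := 1 / L₁ with hc₀
  have hc₀0 : 0 < c₀ := by positivity
  set κ : ℝ := min (ε / (64 * ((H + 1) * ((2 + 1) * Λ)))) (c₀ / 4 / (2 * L₀ + 1)) with hκ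
  have hκ0 : 0 < κ := lt_min (by positivity) (by positivity)
  have hκ1 : κ * (64 * ((H + 1) * ((2 + 1) * Λ))) ≤ ε := by
    rw [← le_div_iff₀ (by positivity)]
    exact min_le_left _ _
  have hκ2 : κ * (2 * L₀ + 1) ≤ c₀ / 4 := by
    rw [← le_div_iff₀ (by positivity)]
    exact min_le_right _ _
  set δ₁ : ℝ := c₀ / 4 / ((1 + Lχ) * (CP + 1)) with hδ₁
  have hδ₁0 : 0 < δ₁ := by positivity
  have hδ₁1 : δ₁ * ((1 + Lχ) * (CP + 1)) ≤ c₀ / 4 := by
    rw [hδ₁, div_mul_cancel₀]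
    positivity
  obtain ⟨wN, hwN, hnuN⟩ := nuC hK₁ hU hK₁U hR.smooth hκ0
  obtain ⟨wN', hwN', hnuN'⟩ := nuC hK₁' hU' hAU' hR'.smooth hκ0
  set w : ℝ := min wN wN' with hw
  have hw0 : 0 < w := lt_min hwN hwN'
  obtain ⟨δO, hδO, hgraph⟩ := graph_nhds hji f.continuous hC₂ hO hfO
  set o : ℝ := min (min (w / 8) (δO / 3)) (w₁ / 2) with ho
  have ho0 : 0 < o := lt_min (lt_min (by positivity) (by positivity)) (by positivity)
  have ho1 : o ≤ w / 8 := (min_le_left _ _).trans (min_le_left _ _)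
  have ho2 : o ≤ δO / 3 := (min_le_left _ _).trans (min_le_right _ _)
  have ho3 : o ≤ w₁ / 2 := min_le_right _ _
  obtain ⟨so, hso, hosc⟩ := ucC hK₁ hU hK₁U hcont ho0
  obtain ⟨ta, hta, htaU⟩ := hK₁.exists_thickening_subset_open hU hK₁U
  obtain ⟨tR, htR, htRU⟩ := hREc.exists_thickening_subset_open hURo hREU
  -- the mollifications are close to `φ` in the transition region
  have hVR : ∀ x ∈ thickening (tR / 2) (ι '' RX), ∀ z : EuclideanSpace ℝ (Fin a), ‖z‖ < tR / 2 →
      x + z ∈ UR := by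
    intro x hx z hz
    apply htRU
    rw [mem_thickening_iff] at hx ⊢
    obtain ⟨y, hy, hxy⟩ := hx
    refine ⟨y, hy, ?_⟩
    have h1 := dist_triangle (x + z) x y
    have h2 : dist (x + z) x = ‖z‖ := by rw [dist_eq_norm, add_sub_cancel_left]
    linarith
  have hmol := Pool.Agent.L7h34.AA.s_MOL (EuclideanSpace ℝ (Fin a)) F volume η hη UR
    (thickening (tR / 2) (ι '' RX)) (tR / 2) (fun z => φ (ι (ρ z))) hURo isOpen_thickening
    (by positivity) hVR hΦs
  obtain ⟨τ₀, hτ₀, hcts⟩ := Pool.Agent.L7h73.AA.s_CTS (EuclideanSpace ℝ (Fin a)) F (ι '' RX)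
    (thickening (tR / 2) (ι '' RX)) (Ioo (-(tR / 2)) (tR / 2)) _ hREc isOpen_thickening
    (self_subset_thickening (by positivity) _) isOpen_Ioo hmol 0
    ⟨by linarith, by linarith⟩ δ₁ hδ₁0
  -- the scale
  obtain ⟨t₁, ht₁d⟩ : ∃ t₁ : ℝ, t₁ = min (ta / 2) wa := ⟨_, rfl⟩
  have ht₁ : 0 < t₁ := by rw [ht₁d]; exact lt_min (by positivity) hwa
  obtain ⟨r, hr0, hr1, hNA⟩ := hna (min (min (min w so) (min w₀ t₁)) (min (min τ₀ (tR / 2)) (s₁ / 2)))
    (by positivity)
  have hrw : r < w := hr1.trans_le (((min_le_left _ _).trans (min_le_left _ _)).trans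
    (min_le_left _ _))
  have hrso : r < so := hr1.trans_le (((min_le_left _ _).trans (min_le_left _ _)).trans
    (min_le_right _ _))
  have hrw₀ : r < w₀ := hr1.trans_le (((min_le_left _ _).trans (min_le_right _ _)).trans
    (min_le_left _ _))
  have hrt₁ : r < t₁ := hr1.trans_le (((min_le_left _ _).trans (min_le_right _ _)).trans
    (min_le_right _ _))
  have hrτ₀ : r < τ₀ := hr1.trans_le (((min_le_right _ _).trans (min_le_left _ _)).trans
    (min_le_left _ _))
  have hrtR : r < tR / 2 := hr1.trans_le (((min_le_right _ _).trans (min_le_left _ _)).trans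
    (min_le_right _ _))
  have hrs₁ : r < s₁ / 2 := hr1.trans_le ((min_le_right _ _).trans (min_le_right _ _))
  obtain ⟨τ, hτd⟩ : ∃ τ : ℝ, τ = r / 3 := ⟨_, rfl⟩
  have hτ0 : 0 < τ := by rw [hτd]; positivity
  have hτr : τ < r := by rw [hτd]; linarith
  -- the derivative of the retraction has values in the tangent space
  have hder : ∀ (x : X) (v : EuclideanSpace ℝ (Fin a)), ι x ∈ U → ∃ u : EuclideanSpace ℝ (Fin n),
      fderiv ℝ (fun z => ι (ρ z)) (ι x) v = derI (𝓡 n) ι x u := by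
    intro x v hxU
    obtain ⟨G, hG⟩ : ∃ G : EuclideanSpace ℝ (Fin a) →L[ℝ] EuclideanSpace ℝ (Fin n),
        HasMFDerivAt 𝓘(ℝ, EuclideanSpace ℝ (Fin a)) (𝓡 n) ρ (ι x) G :=
      ⟨mfderiv 𝓘(ℝ, EuclideanSpace ℝ (Fin a)) (𝓡 n) ρ (ι x),
        ((hρ.contMDiffAt (hU.mem_nhds hxU)).mdifferentiableAt (by simp)).hasMFDerivAt⟩
    have hD : HasMFDerivAt (𝓡 n) 𝓘(ℝ, EuclideanSpace ℝ (Fin a)) ι (ρ (ι x))
        (derI (𝓡 n) ι x) := by
      rw [hρf x hxU]
      exact (hι.smooth.mdifferentiableAt (by simp)).hasMFDerivAt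
    have h3 : HasMFDerivAt 𝓘(ℝ, EuclideanSpace ℝ (Fin a)) 𝓘(ℝ, EuclideanSpace ℝ (Fin a))
        (fun z => ι (ρ z)) (ι x) ((derI (𝓡 n) ι x).comp G) := HasMFDerivAt.comp (ι x) hD hG
    have h4 : HasFDerivAt (fun z => ι (ρ z)) ((derI (𝓡 n) ι x).comp G) (ι x) :=
      hasMFDerivAt_iff_hasFDerivAt.1 h3
    rw [h4.fderiv]
    exact ⟨G v, rfl⟩
  have hosc' : ∀ x ∈ C₂, ∀ y : X, ‖ι y - ι x‖ ≤ r → ‖j (f y) - j (f x)‖ < o := by
    intro x hx y hyx
    have h1 := hosc _ (mem_image_of_mem ι hx) (ι y) (by linarith)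
    have h2 := h1.2
    rw [hφ, hφ, hρf y h1.1, hρf x (hK₁U (mem_image_of_mem ι hx))] at h2
    exact h2
  have hD : DatR volume (range ι) (ι '' C₂) U (fun z => ι (ρ z)) t₁ 2 η Λ (range j)
      (j '' (f '' C₂)) U' (fun z => j (ρ' z)) ε H κ w o r τ φ :=
    { opn := hU
      smooth := hR.smooth
      mps := hR.mps
      fix := hR.fix
      sub := image_subset_range _ _
      inU := fun x hx z hz => htaU (by
        rw [mem_thickening_iff]
        refine ⟨x, hx, ?_⟩
        rw [dist_eq_norm, add_sub_cancel_left]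
        have : t₁ ≤ ta / 2 := by rw [ht₁d]; exact min_le_left _ _
        linarith)
      nearN := fun x hx z hz => by
        have h0 : t₁ ≤ wa := by rw [ht₁d]; exact min_le_right _ _
        have b0 := hna1 x hx (x + z) x (by
          rw [add_sub_cancel_left]
          linarith) (by rwa [sub_self, norm_zero])
        have b1 := b0.2.2
        have hxr : x ∈ range ι := image_subset_range _ _ hx
        rw [hR.fix x hxr b0.2.1, add_sub_cancel_left] at b1
        have b2 : ‖fderiv ℝ (fun z => ι (ρ z)) x z‖ ≤ ‖z‖ := by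
          have := (fderiv ℝ (fun z => ι (ρ z)) x).le_of_opNorm_le (hq1 x hxr (hUU₀ b0.2.1)) z
          rwa [one_mul] at this
        have b3 := norm_sub_norm_le (ι (ρ (x + z)) - x) (fderiv ℝ (fun z => ι (ρ z)) x z)
        linarith
      C1 := by norm_num
      ker := hη
      even := heven
      lam2 := hΛ2
      lam := hΛ
      eps0 := hε
      eps := by
        rw [hεd]
        have : Λ ≠ 0 := by positivity
        field_simp
        norm_num
      H1 := hH1
      mps' := hR'.mps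
      fix' := hR'.fix
      nu := fun p hp z z' hz hz' =>
        hnuN p hp z z' (hz.trans_le (min_le_left _ _)) (hz'.trans_le (min_le_left _ _))
      nu' := fun p hp z z' hz hz' =>
        hnuN' p hp z z' (hz.trans_le (min_le_right _ _)) (hz'.trans_le (min_le_right _ _))
      kap0 := hκ0.le
      kap := hκ1
      cont := hcont
      maps := by
        rintro _ ⟨x, rfl⟩
        rw [hφ]
        exact mem_range_self _
      maps1 := by
        rintro _ ⟨x, hx, rfl⟩
        rw [hφ]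
        exact mem_image_of_mem _ (mem_image_of_mem _ hx)
      aff := by
        rintro _ ⟨x, hx, rfl⟩
        obtain ⟨l, T, hl, hT, hTl, hb⟩ := hNA x (hC₂W hx)
        refine ⟨l, T, hl, fun v => (hT v).trans ?_, fun v => ?_, ?_⟩
        · gcongr
          exact le_max_left _ _
        · obtain ⟨u, hu⟩ := hder x v (hK₁U (mem_image_of_mem ι hx))
          rw [hu]
          exact hTl u
        · rintro _ ⟨y, rfl⟩ hy
          rw [hφ, hφ]
          exact hb y hy
      tau0 := hτ0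
      tau1 := by linarith
      hr := by
        rw [hτd]
        ring
      hrw := hrw
      om := ho1
      osc := by
        rintro _ ⟨x, hx, rfl⟩ _ ⟨y, rfl⟩ hyx
        rw [hφ, hφ]
        exact (hosc' x hx y hyx).le }
  have hV : ∀ x ∈ thickening (ta / 2) (ι '' C₂), ∀ z : EuclideanSpace ℝ (Fin a), ‖z‖ < ta / 2 →
      x + z ∈ U := by
    intro x hx z hz
    apply htaU
    rw [mem_thickening_iff] at hx ⊢
    obtain ⟨y, hy, hxy⟩ := hx
    refine ⟨y, hy, ?_⟩
    have h1 := dist_triangle (x + z) x y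
    have h2 : dist (x + z) x = ‖z‖ := by rw [dist_eq_norm, add_sub_cancel_left]
    linarith
  have S : Asm n volume ι j f C C₂ U (thickening (ta / 2) (ι '' C₂)) U' ρ ρ' φ ψ χ t₁ 2 η Λ ε H κ w
      o r τ s₁ Lχ c₀ L₀ δ₁ CP :=
    { D := hD
      cC₂ := hC₂
      hι := hι
      hj := hj
      oU' := hU'
      rs := hρ'
      rfix := hf'
      phi := hφ
      psi := hψ
      oV := isOpen_thickening
      sV := self_subset_thickening (by positivity) _
      As := by
        have h0 : t₁ ≤ ta / 2 := by rw [ht₁d]; exact min_le_left _ _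
        exact Pool.Agent.L7h34.AA.mol2 hη hU isOpen_thickening (by positivity : (0 : ℝ) < ta / 2)
          hV hcont hτ0 (by linarith)
      chs := hχs
      ch0 := hχ0
      ch1 := hχ1
      s1 := hs₁
      one := hχone
      zero := hχzero
      mar := hmar
      ts := by linarith
      L0 := hLχ0
      L := hLχ
      ld := hld
      c0 := hc₀0
      tr := by
        intro x hx y hy hx2 hy2 hxy
        have hxR : x ∈ RX := ⟨hx, hx2⟩
        have hyR : y ∈ RX := ⟨hy, hy2⟩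
        have hxU := hK₁U (mem_image_of_mem ι hx)
        have hyU := hK₁U (mem_image_of_mem ι hy)
        have hyx : ‖ι y - ι x‖ ≤ τ := by rwa [norm_sub_rev]
        refine ⟨?_, ?_, ?_, ?_⟩
        · have h1 := hlip' (j (f x)) (mem_image_of_mem _ (mem_image_of_mem _ hxR)) (j (f x)) (j (f y))
            (by rw [sub_self, norm_zero]; exact hw₁) (by
              have := hosc' x hx y (by linarith)
              linarith)
          have e1 : ∀ z ∈ C₂, ψ (j (ρ' (j (f z)))) = ι z := by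
            intro z hz
            rw [hψ, hf' _ (hAU' (mem_image_of_mem _ (mem_image_of_mem _ hz))),
              f.symm_apply_apply]
          rw [e1 x hx, e1 y hy] at h1
          rw [hφ, hφ, hc₀, one_div, inv_mul_le_iff₀ hL₁]
          exact h1
        · have h1 := hlip (ι x) (mem_image_of_mem _ hxR) (ι x) (ι y)
            (by rw [sub_self, norm_zero]; exact hw₀) (by linarith)
          rw [hρf x hxU, hρf y hyU] at h1
          exact h1
        · have h1 := (hcts τ ⟨by linarith, by linarith⟩ (by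
            rw [sub_zero, abs_of_pos hτ0]
            linarith)).1 (ι y) (mem_image_of_mem _ hyR)
          simp only [moll_zero hη] at h1
          rw [hρf y hyU] at h1
          exact h1
        · have h1 := (hcts τ ⟨by linarith, by linarith⟩ (by
            rw [sub_zero, abs_of_pos hτ0]
            linarith)).2 (ι x) (mem_image_of_mem _ hxR) (ι y) (mem_image_of_mem _ hyR)
          simp only [moll_zero hη] at h1
          rw [hρf y hyU, hρf x hxU] at h1
          exact h1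
      d0 := hδ₁0.le
      CP0 := hCP0.le
      CPb := by
        intro x hx
        rw [hφ]
        exact hCP _ (mem_image_of_mem _ (mem_image_of_mem _ hx))
      hk := hκ2
      hd := hδ₁1 }
  -- the conclusion
  set G : X → Y := Asm.g volume ι f ρ ρ' φ χ η τ with hG
  have hoff : ∀ x, x ∉ interior C₂ → G x = f x := fun x hx => (S.off hx).self_of_nhds
  have hcl : IsClosed (range G) := by
    have e : range G = G '' C₂ ∪ f '' (interior C₂)ᶜ := by
      ext y
      constructor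
      · rintro ⟨x, rfl⟩
        by_cases hx : x ∈ interior C₂
        · exact Or.inl ⟨x, interior_subset hx, rfl⟩
        · exact Or.inr ⟨x, hx, (hoff x hx).symm⟩
      · rintro (⟨x, -, rfl⟩ | ⟨x, hx, rfl⟩)
        · exact mem_range_self x
        · exact ⟨x, hoff x hx⟩
    rw [e]
    exact (hC₂.image S.smooth.continuous).isClosed.union
      (f.isClosedMap _ isOpen_interior.isClosed_compl)
  obtain ⟨hbij, hldG⟩ := fin2 S.smooth S.inj S.imm hcl
  refine ⟨G, C₂, hC₂, hC₂W, hbij, hldG, fun x hx => hoff x fun h => hx (interior_subset h), fun x => ?_⟩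
  by_cases hx : x ∈ C₂
  · refine hgraph x hx _ ?_
    have h1 := S.close hx
    rw [hφ] at h1
    linarith
  · rw [hoff x fun h => hx (interior_subset h)]
    exact hfO x

theorem s_REL : S_REL := by
  intro n a
  obtain ⟨ε, hε, h⟩ := rel n a
  refine ⟨ε, hε, ?_⟩
  intro D X Y F _ _ _ _ _ _ _ _ _ _ _ _ ι j f C W O hι hj hιi hji hC hW hCW hld hna hO hfO
  obtain ⟨G, C', h1, -, h2⟩ := h D X Y F ι j f C W O hι hj hιi hji hC hW hCW hld hna hO hfO
  exact ⟨G, C', h1, h2⟩

end Pool.Agent.L7h17.AH
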